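import Pool.Graph.R_pool_sql_team_seeded_707910d6.T2H29.TA.Main2
import Pool.Graph.R_pool_sql_team_seeded_707910d6.T2H29.SW.B13

/-!
# Uniform local bounds
-/

set_option autoImplicit false
set_option linter.unusedSectionVars false

namespace Pool.Agent.H3.W

open Finset NumberField NumberField.InfinitePlace Module MeasureTheory
open Pool.Agent.T2H29.SW Pool.Agent.T2H29.TA
open scoped RealInnerProductSpace ContDiff

/-- the bound from the second derivative, uniform in all parameters -/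
theorem sup1 (r : Bool) {g : ℂ → ℂ} (hg : CIg {z | z ≠ 0} g) : ∃ C : ℝ, 0 < C ∧
    ∀ (k : ℤ) (τ : ℝ) (ζ : ℂ), Rl r ζ →
    ‖FL r (fun z => uu k τ z * g z) ζ‖ ≤ C * (√((1 + ‖cp r k τ‖) ^ nr r))⁻¹ := by
  have key : ∃ C : ℝ, 0 ≤ C ∧ ∀ (k : ℤ) (τ : ℝ) (ζ : ℂ), cp r k τ ≠ 0 →
      ‖FL r (fun z => uu k τ z * g z) ζ‖ ≤ (√C + 1) * (√(‖cp r k τ‖ ^ nr r))⁻¹ := by
    cases r with
    | true =>
      obtain ⟨C, hC0, hC⟩ := A10_sup A10_lfR hg
      refine ⟨C, hC0, fun k τ ζ hτ => ?_⟩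
      have hτ0 : τ ≠ 0 := fun h0 => hτ (by simp [cp, h0])
      rw [A10_FLR]
      refine A10_sqrt (norm_nonneg _) hC0 ?_
      have h1 := hC (uu k τ) τ (A10_chR k τ) hτ0 (A10_famR.cont (A10_CIR hg) (k, τ)) ζ.re
      simpa [nr, cp] using h1
    | false =>
      obtain ⟨C, hC0, hC⟩ := A10_sup A10_lfC hg
      refine ⟨C, hC0, fun k τ ζ hτ => ?_⟩
      rw [A10_FLC]
      refine A10_sqrt (norm_nonneg _) hC0 ?_
      have h1 := hC (uu k τ) _ (A10_chC k τ) hτ (A10_famC.cont (A10_CIC hg) (k, τ)) ((2 : ℝ) • ζ)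
      rw [Complex.finrank_real_complex] at h1
      exact h1
  obtain ⟨C, hC0, hC⟩ := key
  obtain ⟨C2, hC20, hC2⟩ := dec0 r hg 0
  refine ⟨(√C + 1) * 2 + C2 * 2, by positivity, fun k τ ζ hζ => ?_⟩
  set c := ‖cp r k τ‖ with hc
  have hc0 : 0 ≤ c := norm_nonneg _
  have hnr1 := A11.nr_pos r
  have hnr2 := A11.nr_le r
  have hs0 : 0 < √((1 + c) ^ nr r) := Real.sqrt_pos.2 (by positivity)
  rcases le_total c 1 with h1 | h1
  · have h2 := hC2 k τ ζ hζ
    rw [pow_zero, pow_zero, one_mul, mul_one] at h2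
    have h3 : √((1 + c) ^ nr r) ≤ 2 := by
      rw [Real.sqrt_le_left (by norm_num)]
      calc (1 + c) ^ nr r ≤ (1 + c) ^ 2 := pow_le_pow_right₀ (by linarith) hnr2
        _ ≤ 2 ^ 2 := pow_le_pow_left₀ (by linarith) (by linarith) 2
    have h4 : 1 ≤ 2 * (√((1 + c) ^ nr r))⁻¹ := by
      rw [← div_eq_mul_inv, le_div_iff₀ hs0]
      linarith
    calc _ ≤ C2 := h2
      _ ≤ C2 * (2 * (√((1 + c) ^ nr r))⁻¹) := le_mul_of_one_le_right hC20.le h4
      _ = C2 * 2 * (√((1 + c) ^ nr r))⁻¹ := by ring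
      _ ≤ _ := by
          refine mul_le_mul_of_nonneg_right ?_ (by positivity)
          have : 0 ≤ √C := Real.sqrt_nonneg _
          linarith
  · have hne : cp r k τ ≠ 0 := by
      intro h0
      rw [hc, h0, norm_zero] at h1
      linarith
    have h2 := hC k τ ζ hne
    rw [← hc] at h2
    have hcc : 0 < c := by linarith
    have h3 : √((1 + c) ^ nr r) ≤ 2 * √(c ^ nr r) := by
      rw [Real.sqrt_le_left (by positivity), mul_pow, Real.sq_sqrt (by positivity)]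
      calc (1 + c) ^ nr r ≤ (2 * c) ^ nr r := pow_le_pow_left₀ (by linarith) (by linarith) _
        _ = 2 ^ nr r * c ^ nr r := mul_pow _ _ _
        _ ≤ 2 ^ 2 * c ^ nr r := by
            refine mul_le_mul_of_nonneg_right ?_ (by positivity)
            exact pow_le_pow_right₀ (by norm_num) hnr2
    have h4 : (√(c ^ nr r))⁻¹ ≤ 2 * (√((1 + c) ^ nr r))⁻¹ := by
      have hs1 : 0 < √(c ^ nr r) := Real.sqrt_pos.2 (by positivity)
      rw [← div_eq_mul_inv, le_div_iff₀ hs0, inv_mul_le_iff₀ hs1]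
      linarith
    have h5 : 0 ≤ √C := Real.sqrt_nonneg _
    calc _ ≤ (√C + 1) * (√(c ^ nr r))⁻¹ := h2
      _ ≤ (√C + 1) * (2 * (√((1 + c) ^ nr r))⁻¹) := mul_le_mul_of_nonneg_left h4 (by positivity)
      _ = (√C + 1) * 2 * (√((1 + c) ^ nr r))⁻¹ := by ring
      _ ≤ _ := by
          refine mul_le_mul_of_nonneg_right ?_ (by positivity)
          linarith

/-- the local bound, uniform in all parameters -/
theorem loc1 (r : Bool) {g : ℂ → ℂ} (hg : CIg {z | z ≠ 0} g) {ε : ℝ} (hε : 0 < ε) (N : ℕ) :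
    ∃ C : ℝ, 0 < C ∧ ∀ (k : ℤ) (τ : ℝ) (ζ : ℂ), Rl r ζ →
    ‖FL r (fun z => uu k τ z * g z) ζ‖ ≤ C * ((√((1 + ‖cp r k τ‖) ^ nr r))⁻¹ *
      ((1 + ‖ζ‖ / (1 + ‖cp r k τ‖) ^ (1 + ε)) ^ N)⁻¹) := by
  obtain ⟨C1, hC10, hC1⟩ := sup1 r hg
  obtain ⟨N2, hN, hN2⟩ : ∃ N2 : ℕ, N ≤ N2 ∧ 1 ≤ ε * N2 := by
    refine ⟨max N ⌈1 / ε⌉₊, le_max_left _ _, ?_⟩
    have h1 : 1 / ε ≤ (max N ⌈1 / ε⌉₊ : ℕ) := (Nat.le_ceil _).trans (by exact_mod_cast le_max_right _ _)
    rw [div_le_iff₀ hε] at h1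
    linarith
  obtain ⟨C2, hC20, hC2⟩ := dec0 r hg N2
  refine ⟨C1 * 2 ^ N + C2 * 2 ^ N, by positivity, fun k τ ζ hζ => ?_⟩
  set T : ℝ := 1 + ‖cp r k τ‖ with hT
  have hT1 : 1 ≤ T := by
    have := norm_nonneg (cp r k τ)
    linarith
  have hT0 : 0 < T := by linarith
  set s := ‖ζ‖ with hs
  have hs0 : 0 ≤ s := norm_nonneg _
  set T1 := T ^ (1 + ε) with hT1'
  have hT10 : 0 < T1 := Real.rpow_pos_of_pos hT0 _
  have hsq0 : 0 < √(T ^ nr r) := Real.sqrt_pos.2 (by positivity)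
  set Y := ‖FL r (fun z => uu k τ z * g z) ζ‖ with hY
  have hY0 : 0 ≤ Y := norm_nonneg _
  have hZ0 : 0 < ((1 + s / T1) ^ N)⁻¹ := by positivity
  by_cases hsT : s ≤ T1
  · have h1 := hC1 k τ ζ hζ
    have h4 : 1 ≤ 2 ^ N * ((1 + s / T1) ^ N)⁻¹ := by
      rw [← div_eq_mul_inv, le_div_iff₀ (by positivity), one_mul]
      refine pow_le_pow_left₀ (by positivity) ?_ _
      have : s / T1 ≤ 1 := (div_le_one hT10).2 hsT
      linarith
    calc Y ≤ C1 * (√(T ^ nr r))⁻¹ := h1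
      _ ≤ C1 * (√(T ^ nr r))⁻¹ * (2 ^ N * ((1 + s / T1) ^ N)⁻¹) :=
          le_mul_of_one_le_right (by positivity) h4
      _ = C1 * 2 ^ N * ((√(T ^ nr r))⁻¹ * ((1 + s / T1) ^ N)⁻¹) := by ring
      _ ≤ _ := mul_le_mul_of_nonneg_right (by linarith [show 0 < C2 * 2 ^ N by positivity])
          (by positivity)
  · rw [not_le] at hsT
    have hs1 : 0 < s := hT10.trans hsT
    have h1 := hC2 k τ ζ hζ
    have h2 : s ^ N2 * Y ≤ C2 * T ^ N2 := by
      refine (mul_le_mul_of_nonneg_right ?_ hY0).trans h1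
      exact pow_le_pow_left₀ hs0 (by linarith) _
    have h3 : Y ≤ C2 * (T / s) ^ N2 := by
      rw [div_pow, mul_div_assoc', le_div_iff₀ (by positivity)]
      linarith
    have h4 : T / s = T1 / s * T ^ (-ε) := by
      have : T = T1 * T ^ (-ε) := by
        rw [hT1', ← Real.rpow_add hT0]
        simp
      nth_rewrite 1 [this]
      ring
    have h5 : (T ^ (-ε)) ^ N2 ≤ T⁻¹ := by
      rw [← Real.rpow_natCast, ← Real.rpow_mul hT0.le, ← Real.rpow_neg_one]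
      refine Real.rpow_le_rpow_of_exponent_le (by linarith) ?_
      linarith
    have h6 : T⁻¹ ≤ (√(T ^ nr r))⁻¹ := by
      refine inv_anti₀ hsq0 ?_
      refine Real.sqrt_le_iff.2 ⟨hT0.le, ?_⟩
      exact pow_le_pow_right₀ (by linarith) (A11.nr_le r)
    have h7 : T1 / s ≤ 1 := (div_le_one hs1).2 hsT.le
    have h8 : (T1 / s) ^ N2 ≤ (T1 / s) ^ N := pow_le_pow_of_le_one (by positivity) h7 hN
    have h9 : (T1 / s) ^ N ≤ 2 ^ N * ((1 + s / T1) ^ N)⁻¹ := by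
      rw [← div_eq_mul_inv, ← div_pow]
      refine pow_le_pow_left₀ (by positivity) ?_ _
      rw [div_le_div_iff₀ hs1 (by positivity)]
      have : T1 * (s / T1) = s := by field_simp
      rw [mul_add, this]
      linarith
    have h10 : (T / s) ^ N2 ≤ (√(T ^ nr r))⁻¹ * (2 ^ N * ((1 + s / T1) ^ N)⁻¹) := by
      rw [h4, mul_pow, mul_comm]
      exact mul_le_mul (h5.trans h6) (h8.trans h9) (by positivity) (by positivity)
    calc Y ≤ C2 * (T / s) ^ N2 := h3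
      _ ≤ C2 * ((√(T ^ nr r))⁻¹ * (2 ^ N * ((1 + s / T1) ^ N)⁻¹)) :=
          mul_le_mul_of_nonneg_left h10 hC20.le
      _ = C2 * 2 ^ N * ((√(T ^ nr r))⁻¹ * ((1 + s / T1) ^ N)⁻¹) := by ring
      _ ≤ _ := mul_le_mul_of_nonneg_right (by linarith [show 0 < C1 * 2 ^ N by positivity])
          (by positivity)

end Pool.Agent.H3.W
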