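import Pool.Agent.H3.W.W9

/-!
# The final assembly for ramified characters
-/

set_option autoImplicit false
set_option linter.unusedSectionVars false

namespace Pool.Agent.H3.W

open Finset NumberField NumberField.InfinitePlace Module MeasureTheory
open Pool.Agent.T2H29.SW Pool.Agent.T2H29.TA
open scoped RealInnerProductSpace ContDiff nonZeroDivisors

variable {K : Type} [Field K] [NumberField K]

/-- the critical integral -/
lemma crit_eps {ε : ℝ} (hε : 0 < ε) : ∃ C : ℝ, 0 < C ∧ ∀ (I : Ideal (𝓞 K)) (T : LS K → ℂ)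
    (G E Q : ℝ) (τ : InfinitePlace K → ℝ) (s : ℂ), 0 ≤ G → 0 ≤ E → 1 ≤ Q → I ≠ ⊥ → TD T →
    (∀ x : LS K, mm I x.2 < m0 K → T x = 0) →
    (∀ x : LS K, m0 K ≤ mm I x.2 → mm I x.2 ≤ Q → ‖T x‖ ≤ G * √(mm I x.2)) →
    (∀ x : LS K, Q ≤ mm I x.2 → ‖T x‖ ≤ E * (mm I x.2 / √Q * (Q / mm I x.2) ^ 2)) →
    s.re = 1 / 2 → √(Ideal.absNorm I) * ‖LamT τ T s‖ ≤ C * (G + E) * Q ^ ε := by
  have hcK := cK_pos K
  have hscK : 0 < √(cK K) := Real.sqrt_pos.2 hcK
  have hn1 : (1 : ℝ) ≤ dg K := by exact_mod_cast NeZero.pos (dg K)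
  have hn0 : (0 : ℝ) < dg K := by linarith
  set l0 := |Real.log (m0 K)| with hl0
  have hl00 : 0 ≤ l0 := abs_nonneg _
  refine ⟨(√(cK K))⁻¹ * (8 + 2 * l0) * (1 / ε + 1), by positivity,
    fun I T G E Q τ s hG hE hQ hI hT h0 h1 h2 hs => ?_⟩
  have hcr := LamT_crit hG hE hQ hI hT h0 h1 h2 τ hs
  refine hcr.trans ?_
  have hQ0 : 0 < Q := by linarith
  have hlQ : 0 ≤ Real.log Q := Real.log_nonneg hQ
  have h3 : Real.log Q + 1 ≤ (1 / ε + 1) * Q ^ ε := by
    have h4 := y_le_exp hlQ hε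
    have e1 : Real.exp (ε * Real.log Q) = Q ^ ε := by
      rw [Real.rpow_def_of_pos hQ0, mul_comm]
    rwa [e1] at h4
  have h2n : 2 / (dg K : ℝ) ≤ 2 := by
    rw [div_le_iff₀ hn0]
    linarith
  have h8n : 8 / (dg K : ℝ) ≤ 8 := by
    rw [div_le_iff₀ hn0]
    linarith
  have h4 : 2 / (dg K : ℝ) * Real.log Q + 2 / (dg K : ℝ) * |Real.log (m0 K)| ≤
      (8 + 2 * l0) * (Real.log Q + 1) := by
    have h5 : 2 / (dg K : ℝ) * Real.log Q ≤ 2 * Real.log Q := mul_le_mul_of_nonneg_right h2n hlQ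
    have h6 : 2 / (dg K : ℝ) * |Real.log (m0 K)| ≤ 2 * l0 := mul_le_mul_of_nonneg_right h2n hl00
    have h7 : 0 ≤ l0 * Real.log Q := by positivity
    nlinarith
  have h5 : 8 / (dg K : ℝ) ≤ (8 + 2 * l0) * (Real.log Q + 1) := by nlinarith
  calc (√(cK K))⁻¹ * (G * (2 / (dg K : ℝ) * Real.log Q + 2 / (dg K : ℝ) * |Real.log (m0 K)|) +
        E * (8 / (dg K : ℝ))) ≤
      (√(cK K))⁻¹ * (G * ((8 + 2 * l0) * (Real.log Q + 1)) +
        E * ((8 + 2 * l0) * (Real.log Q + 1))) := by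
        refine mul_le_mul_of_nonneg_left (add_le_add ?_ ?_) (by positivity)
        · exact mul_le_mul_of_nonneg_left h4 hG
        · exact mul_le_mul_of_nonneg_left h5 hE
    _ = (√(cK K))⁻¹ * (8 + 2 * l0) * ((G + E) * (Real.log Q + 1)) := by ring
    _ ≤ (√(cK K))⁻¹ * (8 + 2 * l0) * ((G + E) * ((1 / ε + 1) * Q ^ ε)) := by
        refine mul_le_mul_of_nonneg_left ?_ (by positivity)
        exact mul_le_mul_of_nonneg_left h3 (by positivity)
    _ = _ := by ring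

/-- the arithmetic of the exponents -/
lemma exps {q V ε : ℝ} (hq : 1 ≤ q) (hV : 1 ≤ V) (hε : 0 < ε) (hε1 : ε ≤ 1) {t1 R Ct G : ℝ}
    (hR : 1 ≤ R) (hCt : 1 ≤ Ct) (ht : t1 ≤ Ct * q ^ (ε / 4)) (ht0 : 0 ≤ t1) (hG : 0 ≤ G) :
    (G * (t1 * R * V ^ (1 / 6 + ε / 4)) + G * V ^ (ε / 4)) * (q * V ^ (1 + ε / 4)) ^ (ε / 4) ≤
      2 * G * Ct * ((q * V) ^ ε * V ^ (1 / 6 : ℝ) * R) := by
  have hq0 : 0 < q := by linarith
  have hV0 : 0 < V := by linarith
  have hqV : 1 ≤ q * V := one_le_mul_of_one_le_of_one_le hq hV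
  have hqV0 : 0 < q * V := by linarith
  set A := (q * V) ^ (ε / 4) with hA
  have hA1 : 1 ≤ A := Real.one_le_rpow hqV (by positivity)
  have hA0 : 0 < A := by linarith
  have hqA : q ^ (ε / 4) ≤ A :=
    Real.rpow_le_rpow hq0.le (le_mul_of_one_le_right hq0.le hV) (by positivity)
  have hVA : V ^ (ε / 4) ≤ A :=
    Real.rpow_le_rpow hV0.le (le_mul_of_one_le_left hV0.le hq) (by positivity)
  have hV6 : 1 ≤ V ^ (1 / 6 : ℝ) := Real.one_le_rpow hV (by norm_num)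
  have hV6' : V ^ (1 / 6 + ε / 4) ≤ V ^ (1 / 6 : ℝ) * A := by
    rw [Real.rpow_add hV0]
    exact mul_le_mul_of_nonneg_left hVA (by positivity)
  have hQ : (q * V ^ (1 + ε / 4)) ^ (ε / 4) ≤ A * A := by
    have h1 : q * V ^ (1 + ε / 4) ≤ (q * V) ^ (2 : ℝ) := by
      have h2 : V ^ (1 + ε / 4) ≤ V ^ (2 : ℝ) :=
        Real.rpow_le_rpow_of_exponent_le hV (by linarith)
      rw [Real.mul_rpow hq0.le hV0.le]
      refine mul_le_mul ?_ h2 (by positivity) (by positivity)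
      calc q = q ^ (1 : ℝ) := (Real.rpow_one q).symm
        _ ≤ q ^ (2 : ℝ) := Real.rpow_le_rpow_of_exponent_le hq (by norm_num)
    calc (q * V ^ (1 + ε / 4)) ^ (ε / 4) ≤ ((q * V) ^ (2 : ℝ)) ^ (ε / 4) :=
          Real.rpow_le_rpow (by positivity) h1 (by positivity)
      _ = A * A := by
          rw [hA, ← Real.rpow_mul hqV0.le, ← Real.rpow_add hqV0]
          congr 1
          ring
  have hA4 : A * A * (A * A) = (q * V) ^ ε := by
    rw [hA, ← Real.rpow_add hqV0, ← Real.rpow_add hqV0]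
    congr 1
    ring
  have h1 : t1 * R * V ^ (1 / 6 + ε / 4) ≤ Ct * A * R * (V ^ (1 / 6 : ℝ) * A) := by
    refine mul_le_mul ?_ hV6' (by positivity) (by positivity)
    refine mul_le_mul_of_nonneg_right ?_ (by linarith)
    exact ht.trans (mul_le_mul_of_nonneg_left hqA (by linarith))
  have h2 : V ^ (ε / 4) ≤ Ct * A * R * (V ^ (1 / 6 : ℝ) * A) := by
    calc V ^ (ε / 4) ≤ A := hVA
      _ = 1 * 1 * 1 * (1 * A) := by ring
      _ ≤ Ct * A * R * (V ^ (1 / 6 : ℝ) * A) := by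
          refine mul_le_mul ?_ ?_ (by positivity) (by positivity)
          · refine mul_le_mul ?_ hR (by norm_num) (by positivity)
            exact mul_le_mul hCt hA1 (by norm_num) (by positivity)
          · exact mul_le_mul_of_nonneg_right hV6 hA0.le
  calc (G * (t1 * R * V ^ (1 / 6 + ε / 4)) + G * V ^ (ε / 4)) *
        (q * V ^ (1 + ε / 4)) ^ (ε / 4) ≤
      (G * (Ct * A * R * (V ^ (1 / 6 : ℝ) * A)) + G * (Ct * A * R * (V ^ (1 / 6 : ℝ) * A))) *
        (A * A) := by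
        refine mul_le_mul ?_ hQ (by positivity) (by positivity)
        exact add_le_add (mul_le_mul_of_nonneg_left h1 hG) (mul_le_mul_of_nonneg_left h2 hG)
    _ = 2 * G * Ct * ((A * A * (A * A)) * V ^ (1 / 6 : ℝ) * R) := by ring
    _ = _ := by rw [hA4]

/-- the bound for one class -/
theorem class_ram {B : ℝ} (hB : CBI K B) {ε : ℝ} (hε : 0 < ε) (hε1 : ε ≤ 1) :
    ∃ C : ℝ, 0 < C ∧ ∀ (c s s' I : Ideal (𝓞 K)) (b : Basis (Fin (dg K)) ℤ I) (F : 𝓞 K → ℂ)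
    (θ : Par (InfinitePlace K)) (τ : InfinitePlace K → ℝ) (z : ℂ), c * s * s' ≠ ⊥ →
    c * s * s' ≠ ⊤ → s ≤ s' → (∀ P : Ideal (𝓞 K), P.IsPrime → s' ≤ P → c ≤ P) →
    PM (c * s * s') F → I ≠ ⊥ → IsCoprime I (c * s * s') →
    TD (ThW b θ (fun z => F (el b z))) → z.re = 1 / 2 →
    √(Ideal.absNorm I) * ‖LamT τ (ThW b θ (fun z => F (el b z))) z‖ ≤
      C * ((Ideal.absNorm (c * s * s') * VT θ) ^ ε * VT θ ^ (1 / 6 : ℝ) *
        √(Ideal.absNorm c + Ideal.absNorm s)) := by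
  have hε4 : 0 < ε / 4 := by positivity
  obtain ⟨C1, hC1, H1⟩ := mid_bd hB hε4
  obtain ⟨C2, hC2, H2⟩ := tail_bd hB hε4 2
  obtain ⟨C3, hC3, H3⟩ := crit_eps (K := K) hε4
  obtain ⟨C4, hC4, H4⟩ := tau_bound K hε4
  refine ⟨C3 * (2 * (C1 + 2 * C2) * C4), by positivity,
    fun c s s' I b F θ τ z hne htop hle hp hF hI hIc hTD hz => ?_⟩
  have hc0 : c ≠ ⊥ := (ne_bot_mul (ne_bot_mul hne).1).1
  have hs0 : s ≠ ⊥ := (ne_bot_mul (ne_bot_mul hne).1).2
  have hs'0 : s' ≠ ⊥ := (ne_bot_mul hne).2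
  have hV := VT_pos θ
  have hV1 := VT_one θ
  have hq1 : (1 : ℝ) ≤ Ideal.absNorm (c * s * s') := by exact_mod_cast nrm_pos hne
  have hNc1 : (1 : ℝ) ≤ Ideal.absNorm c := by exact_mod_cast nrm_pos hc0
  have hNs := absNorm_pos' hs0
  have hτ1 : (1 : ℝ) ≤ tau s' := by exact_mod_cast tau_pos hs'0
  have hts : (tau s' : ℝ) ≤ C4 * (Ideal.absNorm (c * s * s') : ℝ) ^ (ε / 4) := by
    refine (H4 s' hs'0).trans ?_
    refine mul_le_mul_of_nonneg_left ?_ (by linarith)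
    refine Real.rpow_le_rpow (by positivity) ?_ (by positivity)
    have h2 : Ideal.absNorm s' ∣ Ideal.absNorm (c * s * s') := by
      rw [map_mul]
      exact dvd_mul_left _ _
    exact_mod_cast Nat.le_of_dvd (nrm_pos hne) h2
  set q : ℝ := (Ideal.absNorm (c * s * s') : ℝ) with hq
  have hq0 : 0 < q := by linarith
  set R := √((Ideal.absNorm c : ℝ) + Ideal.absNorm s) with hR
  have hR1 : 1 ≤ R := by
    rw [hR, Real.one_le_sqrt]
    linarith
  set t1 : ℝ := (tau s' : ℝ) with ht1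
  set V := VT θ with hVd
  set Q1 := q * V ^ (1 + ε / 4) with hQ1
  have hQ11 : 1 ≤ Q1 := one_le_mul_of_one_le_of_one_le hq1 (Real.one_le_rpow hV1 (by linarith))
  have hQ10 : 0 < Q1 := by linarith
  have hF0 : F (el b 0) = 0 := by
    rw [el_zero]
    refine hF.zero _ fun h1 => ?_
    rw [Ideal.isCoprime_iff_sup_eq] at h1
    apply htop
    simpa using h1
  have hcr := H3 I (ThW b θ (fun z => F (el b z))) (C1 * (t1 * R * V ^ (1 / 6 + ε / 4)))
    (2 * C2 * V ^ (ε / 4)) Q1 τ z (by positivity) (by positivity) hQ11 hI hTD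
    (fun x hx => ThW_zero hI hF0 hx)
    (fun x hx1 hx2 => H1 c s s' I b F x θ hne hle hp hF hI hIc hx1 hx2)
    (fun x hx => by
      have h1 := H2 I (c * s * s') b F x θ hI hne htop hIc hF
      have hMM := mm_pos hI x.2
      refine le_trans h1 ?_
      set M := mm I x.2 with hM
      have hX : Q1 / M ≤ 1 := (div_le_one hMM).2 hx
      have hX0 : 0 ≤ Q1 / M := by positivity
      have hqV : 0 < q * V := by positivity
      have hsqV : 0 < √(q * V) := Real.sqrt_pos.2 hqV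
      have hsQ : 0 < √Q1 := Real.sqrt_pos.2 hQ10
      have hVe1 : 1 ≤ V ^ (ε / 4) := Real.one_le_rpow hV1 (by positivity)
      have h2 : M / √(q * V) ≤ V ^ (ε / 4) * (M / √Q1) := by
        rw [mul_div_assoc', div_le_div_iff₀ hsqV hsQ]
        have h3 : √Q1 ≤ V ^ (ε / 4) * √(q * V) := by
          rw [Real.sqrt_le_left (by positivity), mul_pow, Real.sq_sqrt hqV.le, hQ1,
            Real.rpow_add hV, Real.rpow_one]
          calc q * (V * V ^ (ε / 4)) = 1 * V ^ (ε / 4) * (q * V) := by ring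
            _ ≤ V ^ (ε / 4) * V ^ (ε / 4) * (q * V) := by
                refine mul_le_mul_of_nonneg_right ?_ hqV.le
                exact mul_le_mul_of_nonneg_right hVe1 (by positivity)
            _ = _ := by ring
        calc M * √Q1 ≤ M * (V ^ (ε / 4) * √(q * V)) := mul_le_mul_of_nonneg_left h3 hMM.le
          _ = _ := by ring
      calc C2 * (M / √(q * V) * ((Q1 / M) ^ 2 * (1 + Q1 / M))) ≤
            C2 * (V ^ (ε / 4) * (M / √Q1) * ((Q1 / M) ^ 2 * 2)) := by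
            refine mul_le_mul_of_nonneg_left ?_ hC2.le
            refine mul_le_mul h2 ?_ (by positivity) (by positivity)
            exact mul_le_mul_of_nonneg_left (by linarith) (by positivity)
        _ = 2 * C2 * V ^ (ε / 4) * (M / √Q1 * (Q1 / M) ^ 2) := by ring) hz
  have hG0 : 0 ≤ C1 + 2 * C2 := by positivity
  have hfin := exps hq1 hV1 hε hε1 hR1 hC4 hts (by linarith) hG0
  calc _ ≤ C3 * (C1 * (t1 * R * V ^ (1 / 6 + ε / 4)) + 2 * C2 * V ^ (ε / 4)) * Q1 ^ (ε / 4) := hcr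
    _ ≤ C3 * ((C1 + 2 * C2) * (t1 * R * V ^ (1 / 6 + ε / 4)) + (C1 + 2 * C2) * V ^ (ε / 4)) *
          Q1 ^ (ε / 4) := by
        refine mul_le_mul_of_nonneg_right ?_ (by positivity)
        refine mul_le_mul_of_nonneg_left (add_le_add ?_ ?_) hC3.le
        · exact mul_le_mul_of_nonneg_right (by linarith) (by positivity)
        · exact mul_le_mul_of_nonneg_right (by linarith) (by positivity)
    _ = C3 * (((C1 + 2 * C2) * (t1 * R * V ^ (1 / 6 + ε / 4)) + (C1 + 2 * C2) * V ^ (ε / 4)) *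
          (q * V ^ (1 + ε / 4)) ^ (ε / 4)) := by rw [hQ1]; ring
    _ ≤ C3 * (2 * (C1 + 2 * C2) * C4 * ((q * V) ^ ε * V ^ (1 / 6 : ℝ) * R)) :=
        mul_le_mul_of_nonneg_left hfin hC3.le
    _ = _ := by ring

/-- ramified characters -/
theorem fin_ram (K : Type) [Field K] [NumberField K] {ε : ℝ} (hε : 0 < ε) (hε1 : ε ≤ 1) :
    ∃ C : ℝ, 0 < C ∧ ∀ (c s s' : Ideal (𝓞 K)) (θ : Par (InfinitePlace K))
    (χ : Ideal (𝓞 K) →* ℂ), c * s * s' ≠ ⊥ → c * s * s' ≠ ⊤ → s ≤ s' →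
    (∀ P : Ideal (𝓞 K), P.IsPrime → s' ≤ P → c ≤ P) → HeckeM (c * s * s') θ χ →
    ∃ L : ℂ → ℂ, Differentiable ℂ L ∧
    (∀ s : ℂ, 1 < s.re →
      HasSum (fun I : Ideal (𝓞 K) => χ I * (Ideal.absNorm I : ℂ) ^ (-s)) (L s)) ∧
    ∀ t : ℝ, ‖L (1 / 2 + t * Complex.I)‖ ≤ C *
      ((Ideal.absNorm (c * s * s') * VT (shp θ t)) ^ ε * VT (shp θ t) ^ (1 / 6 : ℝ) *
        √(Ideal.absNorm c + Ideal.absNorm s)) := by
  obtain ⟨B, hB1, hB⟩ := exists_CBI K
  choose Ct hCt0 hCt using fun N => tailI (K := K) (B := B) hB N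
  obtain ⟨C0, hC00, hC0⟩ := main_absV K
  obtain ⟨C1, hC10, hC1⟩ := class_ram hB hε hε1
  refine ⟨C0 * C1, by positivity, fun c s s' θ χ hne htop hle hp hH => ?_⟩
  set m := c * s * s' with hm
  set F := FF m θ χ with hF
  have hFm : PM m F := FF_PM htop hH
  choose I hI hco hCl using fun C : ClassGroup (𝓞 K) => exists_rep2 hne htop C⁻¹
  have hb : ∀ C, Nonempty (Basis (Fin (dg K)) ℤ (I C)) := fun C => exists_bas (I C) (hI C)
  set b : ∀ C, Basis (Fin (dg K)) ℤ (I C) := fun C => Classical.choice (hb C) with hbdef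
  have hS : ∀ C, SetU B Ct (Ideal.absNorm m) (2 * B ^ 2 * Ideal.absNorm m) (I C) (b C)
      (fun z => F (el (b C) z)) := fun C =>
    data_V hB hCt0 hCt (hI C) hne htop (hco C) (b C) hFm
  obtain ⟨L, hL1, hL2, hL3⟩ := hC0 B Ct m θ χ _ _ htop hH.zero hH.norm I hI b
    (fun C z => F (el (b C) z)) hco hCl hS
    (fun C z => by beta_reduce; rw [FF_rel htop hH, one_mul])
  refine ⟨L, hL1, hL2, fun t => ?_⟩
  have hre : ((1 : ℂ) / 2 + t * Complex.I).re = 1 / 2 := by simp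
  have h1 := hL3 t _ (fun C => hC1 c s s' (I C) (b C) F (shp θ t) θ.2 (1 / 2 + t * Complex.I)
    hne htop hle hp hFm (hI C) (hco C) ((hS C).td (shp θ t)) hre)
  refine h1.trans (le_of_eq ?_)
  ring

end Pool.Agent.H3.W
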