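import Pool.Agent.H3.W.W10

/-!
# Unramified characters: the middle range and the tail
-/

set_option autoImplicit false
set_option linter.unusedSectionVars false

namespace Pool.Agent.H3.W

open Finset NumberField NumberField.InfinitePlace Module MeasureTheory
open Pool.Agent.T2H29.SW Pool.Agent.T2H29.TA
open scoped RealInnerProductSpace ContDiff nonZeroDivisors

variable {K : Type} [Field K] [NumberField K]

lemma PM_top : PM (⊤ * ⊤ * ⊤ : Ideal (𝓞 K)) (fun _ => (1 : ℂ)) := by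
  have h : (⊤ * ⊤ * ⊤ : Ideal (𝓞 K)) = ⊤ := by
    rw [Ideal.mul_top, Ideal.mul_top]
  rw [h]
  refine ⟨fun α hα => ?_, fun α _ => norm_one, fun α β => (mul_one 1).symm, fun α β _ => rfl,
    fun n hn => ?_⟩
  · exfalso
    apply hα
    rw [Ideal.isCoprime_iff_sup_eq]
    exact sup_top_eq _
  · exact absurd hn (not_top_lt)

/-- the sum of all weights -/
lemma all_mid {B : ℝ} (hB : CBI K B) {ε : ℝ} (hε : 0 < ε) : ∃ C : ℝ, 0 < C ∧
    ∀ (I : Ideal (𝓞 K)) (b : Basis (Fin (dg K)) ℤ I) (x : LS K) (θ : Par (InfinitePlace K)),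
    I ≠ ⊥ → m0 K ≤ mm I x.2 → mm I x.2 ≤ VT θ ^ (1 + ε) →
    ‖ThW b θ (F0 K) x‖ ≤ C * VT θ ^ (1 / 6 + ε) * √(mm I x.2) := by
  obtain ⟨C, hC, H⟩ := mid_bd hB hε
  have hτ0 : (0 : ℝ) ≤ tau (⊤ : Ideal (𝓞 K)) := Nat.cast_nonneg _
  refine ⟨C * ((tau (⊤ : Ideal (𝓞 K)) + 1) * √2), by positivity, fun I b x θ hI h1 h2 => ?_⟩
  have htt : (⊤ * ⊤ * ⊤ : Ideal (𝓞 K)) = ⊤ := by
    rw [Ideal.mul_top, Ideal.mul_top]
  have hne : (⊤ * ⊤ * ⊤ : Ideal (𝓞 K)) ≠ ⊥ := by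
    rw [htt]
    exact top_ne_bot
  have h3 := H ⊤ ⊤ ⊤ I b (fun _ => 1) x θ hne le_rfl (fun P _ h => h) PM_top hI (by
    rw [htt, Ideal.isCoprime_iff_sup_eq]
    exact sup_top_eq _) h1 (by
    rw [htt, Ideal.absNorm_top, Nat.cast_one, one_mul]
    exact h2)
  have h4 : ThW b θ (F0 K) x = ∑' z, Wt (lamK K) θ (vc (AX b x) z) * 1 := by
    unfold ThW TW
    refine tsum_congr fun z => ?_
    by_cases h0 : z = 0
    · rw [h0, v3_Wt0, zero_mul, zero_mul]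
    · unfold F0
      rw [if_neg h0]
  rw [h4]
  refine h3.trans ?_
  rw [Ideal.absNorm_top, Nat.cast_one, one_add_one_eq_two]
  refine mul_le_mul_of_nonneg_right ?_ (Real.sqrt_nonneg _)
  have hV := VT_pos θ
  have h5 : 0 ≤ √2 * VT θ ^ (1 / 6 + ε) := by positivity
  calc C * ((tau (⊤ : Ideal (𝓞 K)) : ℝ) * √2 * VT θ ^ (1 / 6 + ε)) =
        C * ((tau (⊤ : Ideal (𝓞 K)) : ℝ) * (√2 * VT θ ^ (1 / 6 + ε))) := by ring
    _ ≤ C * (((tau (⊤ : Ideal (𝓞 K)) : ℝ) + 1) * (√2 * VT θ ^ (1 / 6 + ε))) := by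
        refine mul_le_mul_of_nonneg_left ?_ hC.le
        exact mul_le_mul_of_nonneg_right (by linarith) h5
    _ = _ := by ring

/-- the middle range for unramified characters -/
lemma unr_mid {B : ℝ} (hB : CBI K B) {ε : ℝ} (hε : 0 < ε) : ∃ C : ℝ, 0 < C ∧
    ∀ (I : Ideal (𝓞 K)) (b : Basis (Fin (dg K)) ℤ I) (x : LS K) (θ : Par (InfinitePlace K)),
    I ≠ ⊥ → m0 K ≤ mm I x.2 → mm I x.2 ≤ VT θ ^ (1 + ε) →
    ‖ThW b θ (Fw K) x‖ ≤ C * VT θ ^ (1 / 6 + ε) * √(mm I x.2) := by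
  obtain ⟨C, hC, H⟩ := all_mid hB hε
  refine ⟨C * (1 + 2 ^ dg K), by positivity, fun I b x θ hI h1 h2 => ?_⟩
  have hV := VT_pos θ
  have hMM := mm_pos hI x.2
  rw [v1_ThW_lin hI b (hB I hI b) θ x]
  have h3 := H I b x θ hI h1 h2
  have hI2 := v1_I2_ne hI
  have hmm2 : mm (v1_I2 I) x.2 ≤ mm I x.2 := by
    have h20 : Ideal.span {(2 : 𝓞 K)} ≠ ⊥ := v1_span_ne
    have e1 : v1_I2 I = I * Ideal.span {2} := by
      unfold v1_I2
      rw [mul_comm]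
    rw [e1, mm_mul hI h20]
    refine div_le_self hMM.le ?_
    exact_mod_cast nrm_pos h20
  have h4 : ‖ThW b θ (F2 K) x‖ ≤ C * VT θ ^ (1 / 6 + ε) * √(mm I x.2) := by
    rw [← v1_ThW]
    rcases lt_or_ge (mm (v1_I2 I) x.2) (m0 K) with h5 | h5
    · rw [ThW_zero hI2 v1_F0_zero h5, norm_zero]
      positivity
    · refine (H (v1_I2 I) (v1_b2 b) x θ hI2 h5 (hmm2.trans h2)).trans ?_
      exact mul_le_mul_of_nonneg_left (Real.sqrt_le_sqrt hmm2) (by positivity)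
  refine (norm_sub_le _ _).trans ?_
  rw [norm_mul]
  have e1 : ‖(2 : ℂ) ^ dg K‖ = 2 ^ dg K := by
    rw [norm_pow]
    norm_num
  rw [e1]
  have h5 := mul_le_mul_of_nonneg_left h4 (by positivity : (0 : ℝ) ≤ 2 ^ dg K)
  calc _ ≤ C * VT θ ^ (1 / 6 + ε) * √(mm I x.2) +
        2 ^ dg K * (C * VT θ ^ (1 / 6 + ε) * √(mm I x.2)) := add_le_add h3 h5
    _ = _ := by ring

/-- the tail for unramified characters -/
lemma unr_tl {B : ℝ} {ε : ℝ} (hε : 0 < ε) (j : ℕ) : ∃ C : ℝ, 0 < C ∧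
    ∀ (A : Matrix (Fin (dg K)) (Fin (dg K)) ℝ) (θ : Par (InfinitePlace K)), GB K B A →
    ‖TW (lamK K) θ A (Fw K)‖ ≤ C * (Mv A / √(VT θ) *
      ((VT θ ^ (1 + ε) / Mv A) ^ j * (1 + VT θ ^ (1 + ε) / Mv A))) := by
  obtain ⟨C1, hC1, H1⟩ := FTW (K := K) hε (dg K + 1 + 2 * j)
  obtain ⟨C2, hC2, H2⟩ := sum_nz (K := K) B j
  refine ⟨C1 * (C2 * (1 + (2 ^ dg K) ^ j * 2 ^ dg K)), by positivity, fun A θ hA => ?_⟩
  have hV := VT_pos θ
  have hMv := Mv_pos hA.1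
  have hGB := GB_du K hA
  have hTa : ∀ w, 0 < Ta θ w ^ (1 + ε) := fun w => Real.rpow_pos_of_pos (Ta_pos θ w) _
  have hTa2 : ∀ w, 0 < 2 * Ta θ w ^ (1 + ε) := fun w => by
    have := hTa w
    positivity
  obtain ⟨s1, t1⟩ := H2 (du A) hGB (fun w => Ta θ w ^ (1 + ε)) hTa
  obtain ⟨s2, t2⟩ := H2 (du A) hGB (fun w => 2 * Ta θ w ^ (1 + ε)) hTa2
  have e1 : ∏ w : InfinitePlace K, (2 * Ta θ w ^ (1 + ε)) ^ mult w =
      2 ^ dg K * VT θ ^ (1 + ε) := by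
    rw [← VT_rpow, ← prod_pow_mult K 2, ← prod_mul_distrib]
    exact prod_congr rfl fun w _ => mul_pow _ _ _
  rw [Mv_du, VT_rpow] at t1
  rw [Mv_du, e1] at t2
  set X := VT θ ^ (1 + ε) / Mv A with hX
  have hX0 : 0 < X := by positivity
  have e2 : (Mv A)⁻¹ * VT θ ^ (1 + ε) = X := by
    rw [hX]
    field_simp
  have e3 : (Mv A)⁻¹ * (2 ^ dg K * VT θ ^ (1 + ε)) = 2 ^ dg K * X := by
    rw [hX]
    field_simp
  rw [e2] at t1
  rw [e3] at t2
  set u : (Fin (dg K) → ℤ) → ℝ := fun ζ => if ζ = 0 then 0 else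
      ∏ w, ((1 + ‖lamK K w (vc (du A) ζ)‖ / Ta θ w ^ (1 + ε)) ^ (dg K + 1 + 2 * j))⁻¹ with hu
  set v : (Fin (dg K) → ℤ) → ℝ := fun ζ => if ζ = 0 then 0 else
      ∏ w, ((1 + ‖lamK K w (vc (du A) ζ)‖ / (2 * Ta θ w ^ (1 + ε))) ^ (dg K + 1 + 2 * j))⁻¹
    with hv
  have hb : ∀ ζ : Fin (dg K) → ℤ, ‖FT (Wt (lamK K) θ) (vc (du A) ζ) -
      FT (Wt (lamK K) θ) ((2 : ℝ)⁻¹ • vc (du A) ζ)‖ ≤ C1 * (√(VT θ))⁻¹ * (u ζ + v ζ) := by
    intro ζ
    by_cases hζ : ζ = 0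
    · rw [hζ, v2_vc0, smul_zero, sub_self, norm_zero]
      simp [hu, hv]
    · refine (norm_sub_le _ _).trans ?_
      have k1 := H1 θ (vc (du A) ζ)
      have k2 := H1 θ ((2 : ℝ)⁻¹ • vc (du A) ζ)
      have k3 : ∀ w, ‖lamK K w ((2 : ℝ)⁻¹ • vc (du A) ζ)‖ / Ta θ w ^ (1 + ε) =
          ‖lamK K w (vc (du A) ζ)‖ / (2 * Ta θ w ^ (1 + ε)) := fun w => by
        rw [map_smul, norm_smul, Real.norm_of_nonneg (by positivity)]
        field_simp
      simp_rw [k3] at k2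
      simp only [hu, hv]
      rw [if_neg hζ, if_neg hζ]
      calc _ ≤ _ := add_le_add k1 k2
        _ = _ := by ring
  have hs := ((s1.add s2).mul_left (C1 * (√(VT θ))⁻¹)).hasSum
  have hnorm := tsum_of_norm_bounded hs hb
  rw [tsum_mul_left, (s1.tsum_add s2)] at hnorm
  rw [v2_pois K hA.1 θ, norm_mul, Complex.norm_real, Real.norm_of_nonneg hMv.le]
  have h5 : ∑' ζ, u ζ + ∑' ζ, v ζ ≤
      C2 * (1 + (2 ^ dg K) ^ j * 2 ^ dg K) * (X ^ j * (1 + X)) := by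
    have h6 : (1 : ℝ) ≤ 2 ^ dg K := one_le_pow₀ (by norm_num)
    have h7 : (2 ^ dg K * X) ^ j * (1 + 2 ^ dg K * X) ≤
        (2 ^ dg K) ^ j * 2 ^ dg K * (X ^ j * (1 + X)) := by
      rw [mul_pow]
      calc (2 ^ dg K) ^ j * X ^ j * (1 + 2 ^ dg K * X) ≤
            (2 ^ dg K) ^ j * X ^ j * (2 ^ dg K * (1 + X)) := by
            refine mul_le_mul_of_nonneg_left ?_ (by positivity)
            nlinarith
        _ = _ := by ring
    calc ∑' ζ, u ζ + ∑' ζ, v ζ ≤ C2 * (X ^ j * (1 + X)) +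
          C2 * ((2 ^ dg K * X) ^ j * (1 + 2 ^ dg K * X)) := add_le_add t1 t2
      _ ≤ C2 * (X ^ j * (1 + X)) + C2 * ((2 ^ dg K) ^ j * 2 ^ dg K * (X ^ j * (1 + X))) :=
          add_le_add le_rfl (mul_le_mul_of_nonneg_left h7 hC2.le)
      _ = _ := by ring
  calc Mv A * ‖∑' ζ : Fin (dg K) → ℤ, (FT (Wt (lamK K) θ) (vc (du A) ζ) -
        FT (Wt (lamK K) θ) ((2 : ℝ)⁻¹ • vc (du A) ζ))‖ ≤
        Mv A * (C1 * (√(VT θ))⁻¹ * (C2 * (1 + (2 ^ dg K) ^ j * 2 ^ dg K) *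
          (X ^ j * (1 + X)))) := by
        refine mul_le_mul_of_nonneg_left (hnorm.trans ?_) hMv.le
        exact mul_le_mul_of_nonneg_left h5 (by positivity)
    _ = _ := by
        rw [div_eq_mul_inv (Mv A)]
        ring

/-- the bound for one class -/
theorem class_unr {B : ℝ} (hB1 : 1 ≤ B) (hB : CBI K B) {ε : ℝ} (hε : 0 < ε) (hε1 : ε ≤ 1) :
    ∃ C : ℝ, 0 < C ∧ ∀ (I : Ideal (𝓞 K)) (b : Basis (Fin (dg K)) ℤ I)
    (θ : Par (InfinitePlace K)) (τ : InfinitePlace K → ℝ) (z : ℂ), I ≠ ⊥ → z.re = 1 / 2 →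
    √(Ideal.absNorm I) * ‖LamT τ (ThW b θ (Fw K)) z‖ ≤
      C * (VT θ ^ ε * VT θ ^ (1 / 6 : ℝ)) := by
  have hε4 : 0 < ε / 4 := by positivity
  obtain ⟨C1, hC1, H1⟩ := unr_mid hB hε4
  obtain ⟨C2, hC2, H2⟩ := unr_tl (K := K) (B := B) hε4 2
  obtain ⟨C3, hC3, H3⟩ := crit_eps (K := K) hε4
  refine ⟨C3 * (2 * (C1 + 2 * C2)), by positivity, fun I b θ τ z hI hz => ?_⟩
  have hV := VT_pos θ
  have hV1 := VT_one θ
  set V := VT θ with hVd
  set Q1 := V ^ (1 + ε / 4) with hQ1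
  have hQ11 : 1 ≤ Q1 := Real.one_le_rpow hV1 (by linarith)
  have hQ10 : 0 < Q1 := by linarith
  have hcr := H3 I (ThW b θ (Fw K)) (C1 * V ^ (1 / 6 + ε / 4))
    (2 * C2 * V ^ (ε / 4)) Q1 τ z (by positivity) (by positivity) hQ11 hI
    (v3_td hB1 hB hI b θ)
    (fun x hx => ThW_zero hI v3_Fw_zero hx)
    (fun x hx1 hx2 => H1 I b x θ hI hx1 hx2)
    (fun x hx => by
      have h1 := H2 (AX b x) θ (GB_AX K hB hI b x)
      rw [Mv_AX] at h1
      have hMM := mm_pos hI x.2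
      refine le_trans h1 ?_
      set M := mm I x.2 with hM
      have hX : Q1 / M ≤ 1 := (div_le_one hMM).2 hx
      have hX0 : 0 ≤ Q1 / M := by positivity
      have hsqV : 0 < √V := Real.sqrt_pos.2 hV
      have hsQ : 0 < √Q1 := Real.sqrt_pos.2 hQ10
      have hVe1 : 1 ≤ V ^ (ε / 4) := Real.one_le_rpow hV1 (by positivity)
      have h2 : M / √V ≤ V ^ (ε / 4) * (M / √Q1) := by
        rw [mul_div_assoc', div_le_div_iff₀ hsqV hsQ]
        have h3 : √Q1 ≤ V ^ (ε / 4) * √V := by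
          rw [Real.sqrt_le_left (by positivity), mul_pow, Real.sq_sqrt hV.le, hQ1,
            Real.rpow_add hV, Real.rpow_one]
          calc V * V ^ (ε / 4) = 1 * V ^ (ε / 4) * V := by ring
            _ ≤ V ^ (ε / 4) * V ^ (ε / 4) * V := by
                refine mul_le_mul_of_nonneg_right ?_ hV.le
                exact mul_le_mul_of_nonneg_right hVe1 (by positivity)
            _ = _ := by ring
        calc M * √Q1 ≤ M * (V ^ (ε / 4) * √V) := mul_le_mul_of_nonneg_left h3 hMM.le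
          _ = _ := by ring
      calc C2 * (M / √V * ((Q1 / M) ^ 2 * (1 + Q1 / M))) ≤
            C2 * (V ^ (ε / 4) * (M / √Q1) * ((Q1 / M) ^ 2 * 2)) := by
            refine mul_le_mul_of_nonneg_left ?_ hC2.le
            refine mul_le_mul h2 ?_ (by positivity) (by positivity)
            exact mul_le_mul_of_nonneg_left (by linarith) (by positivity)
        _ = 2 * C2 * V ^ (ε / 4) * (M / √Q1 * (Q1 / M) ^ 2) := by ring) hz
  have hG0 : 0 ≤ C1 + 2 * C2 := by positivity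
  have hfin := exps (q := 1) (V := V) (t1 := 1) (R := 1) (Ct := 1) le_rfl hV1 hε hε1 le_rfl le_rfl
    (by rw [Real.one_rpow, mul_one]) zero_le_one hG0
  simp only [one_mul, mul_one] at hfin
  calc _ ≤ C3 * (C1 * V ^ (1 / 6 + ε / 4) + 2 * C2 * V ^ (ε / 4)) * Q1 ^ (ε / 4) := hcr
    _ ≤ C3 * ((C1 + 2 * C2) * V ^ (1 / 6 + ε / 4) + (C1 + 2 * C2) * V ^ (ε / 4)) *
          Q1 ^ (ε / 4) := by
        refine mul_le_mul_of_nonneg_right ?_ (by positivity)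
        refine mul_le_mul_of_nonneg_left (add_le_add ?_ ?_) hC3.le
        · exact mul_le_mul_of_nonneg_right (by linarith) (by positivity)
        · exact mul_le_mul_of_nonneg_right (by linarith) (by positivity)
    _ = C3 * (((C1 + 2 * C2) * V ^ (1 / 6 + ε / 4) + (C1 + 2 * C2) * V ^ (ε / 4)) *
          (V ^ (1 + ε / 4)) ^ (ε / 4)) := by rw [hQ1]; ring
    _ ≤ C3 * (2 * (C1 + 2 * C2) * (V ^ ε * V ^ (1 / 6 : ℝ))) :=
        mul_le_mul_of_nonneg_left hfin hC3.le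
    _ = _ := by ring

/-- unramified characters -/
theorem fin_unr (K : Type) [Field K] [NumberField K] {ε : ℝ} (hε : 0 < ε) (hε1 : ε ≤ 1) :
    ∃ C : ℝ, 0 < C ∧
    ∀ (θ : Par (InfinitePlace K)) (χ : Ideal (𝓞 K) →* ℂ), HU θ χ →
    ∃ L : ℂ → ℂ, Differentiable ℂ L ∧
    (∀ s : ℂ, 1 < s.re →
      HasSum (fun I : Ideal (𝓞 K) =>
        (1 - χ (Ideal.span {2}) * (2 : ℂ) ^ ((dg K : ℂ) * (1 - s))) *
          (χ I * (Ideal.absNorm I : ℂ) ^ (-s))) (L s)) ∧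
    ∀ t : ℝ, ‖L (1 / 2 + t * Complex.I)‖ ≤
      C * (VT (shp θ t) ^ ε * VT (shp θ t) ^ (1 / 6 : ℝ)) := by
  have : Nonempty (Fin (dg K)) := ⟨0⟩
  obtain ⟨B, hB1, hB⟩ := exists_CBI K
  obtain ⟨c, hc0, hc⟩ := UU_int K
  obtain ⟨C0, hC00, hC0⟩ := class_unr (K := K) hB1 hB hε hε1
  have hwc : 0 < (NumberField.Units.torsionOrder K : ℝ) * c := by
    have : (0 : ℝ) < NumberField.Units.torsionOrder K := by
      exact_mod_cast NumberField.Units.torsionOrder_pos K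
    positivity
  have hcard : (0 : ℝ) < Fintype.card (ClassGroup (𝓞 K)) := by
    exact_mod_cast Fintype.card_pos
  have hZ0 : Zf K (1 / 2) ≠ 0 := Zf_ne K (by norm_num)
  have hZn : 0 < ‖Zf K (1 / 2)‖ := norm_pos_iff.2 hZ0
  refine ⟨Fintype.card (ClassGroup (𝓞 K)) * (((NumberField.Units.torsionOrder K : ℝ) * c)⁻¹ *
    ‖Zf K (1 / 2)‖⁻¹ * C0), by positivity, fun θ χ hχ => ?_⟩
  have hdata : ∀ C : ClassGroup (𝓞 K), ∃ (I : Ideal (𝓞 K)) (hI : I ≠ ⊥),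
      ClassGroup.mk0 ⟨I, nzd hI⟩ = C⁻¹ := by
    intro C
    obtain ⟨J, hJ⟩ := ClassGroup.mk0_surjective C⁻¹
    refine ⟨J.1, nonZeroDivisors.coe_ne_zero J, ?_⟩
    rw [← hJ]
  choose I hI hC using hdata
  have hbas : ∀ C, Nonempty (Basis (Fin (dg K)) ℤ (I C)) := fun C => exists_bas (I C) (hI C)
  obtain ⟨b⟩ : Nonempty (∀ C, Basis (Fin (dg K)) ℤ (I C)) := ⟨fun C => (hbas C).some⟩
  have hχn : ∀ C, ‖χ (I C)‖ = 1 := fun C => hχ.norm _ (hI C)
  set Lt : ℝ → ℂ → ℂ := fun t0 s => ∑ C : ClassGroup (𝓞 K), ((χ (I C))⁻¹ *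
    (Ideal.absNorm (I C) : ℂ) ^ s * (((NumberField.Units.torsionOrder K : ℂ) * c)⁻¹ *
      (Zf K (s - Complex.I * t0))⁻¹ * LamT θ.2 (ThW (b C) (shp θ t0) (Fw K)) s)) with hLt
  have hd : ∀ t0, DifferentiableOn ℂ (Lt t0) {s | |s.im - t0| < 1} := by
    intro t0
    rw [hLt]
    beta_reduce
    refine DifferentiableOn.fun_sum fun C _ => ?_
    have h1 := (v3_td hB1 hB (hI C) (b C) (shp θ t0)).diff θ.2
    have h2 : DifferentiableOn ℂ (fun s => (Zf K (s - Complex.I * t0))⁻¹) {s | |s.im - t0| < 1} := by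
      refine DifferentiableOn.inv ?_ fun s hs => ?_
      · exact ((Zf_diff K).comp (by fun_prop :
          Differentiable ℂ fun s : ℂ => s - Complex.I * t0)).differentiableOn
      · refine Zf_ne K ?_
        have e1 : (s - Complex.I * t0).im = s.im - t0 := by simp
        rw [e1]
        exact le_of_lt hs
    have h3 : Differentiable ℂ fun s : ℂ => (Ideal.absNorm (I C) : ℂ) ^ s := by
      refine Differentiable.const_cpow differentiable_id (Or.inl ?_)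
      have := absNorm_pos' (hI C)
      exact_mod_cast this.ne'
    refine DifferentiableOn.mul ((h3.differentiableOn).const_mul _) ?_
    refine DifferentiableOn.mul (h2.const_mul _) ?_
    exact h1.differentiableOn
  have hsum : ∀ t0 s, 1 < s.re → |s.im - t0| < 1 →
      HasSum (fun I : Ideal (𝓞 K) => (1 - χ (Ideal.span {2}) * (2 : ℂ) ^ ((dg K : ℂ) * (1 - s))) *
          (χ I * (Ideal.absNorm I : ℂ) ^ (-s))) (Lt t0 s) := by
    intro t0 s hs ht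
    refine all_hasSum (f := fun J : Ideal (𝓞 K) =>
      (1 - χ (Ideal.span {2}) * (2 : ℂ) ^ ((dg K : ℂ) * (1 - s))) *
          (χ J * (Ideal.absNorm J : ℂ) ^ (-s))) ?_ fun C => ?_
    · rw [hχ.bot, zero_mul, mul_zero]
    · exact unr_series hB hχ hc0 hc (hI C) (hC C) (b C) hs ht
  obtain ⟨L, hL1, hL2, hL3⟩ := glue hd
    (g := fun s => ∑' I : Ideal (𝓞 K),
      (1 - χ (Ideal.span {2}) * (2 : ℂ) ^ ((dg K : ℂ) * (1 - s))) *
          (χ I * (Ideal.absNorm I : ℂ) ^ (-s)))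
    (fun t0 s hs ht => ((hsum t0 s hs ht).tsum_eq).symm)
  refine ⟨L, hL1, fun s hs => ?_, fun t => ?_⟩
  · rw [hL3 s.im s (by simp)]
    exact hsum s.im s hs (by simp)
  · set s : ℂ := 1 / 2 + t * Complex.I with hs
    have hsi : s.im = t := by simp [hs]
    have hre : s.re = 1 / 2 := by simp [hs]
    rw [hL3 t s (by rw [hsi]; simp)]
    have hsub : s - Complex.I * t = 1 / 2 := by rw [hs]; ring
    rw [hLt]
    beta_reduce
    refine (norm_sum_le _ _).trans ?_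
    set Bd := VT (shp θ t) ^ ε * VT (shp θ t) ^ (1 / 6 : ℝ) with hBd
    have h1 : ∀ C : ClassGroup (𝓞 K), ‖(χ (I C))⁻¹ * (Ideal.absNorm (I C) : ℂ) ^ s *
        (((NumberField.Units.torsionOrder K : ℂ) * c)⁻¹ * (Zf K (s - Complex.I * t))⁻¹ *
        LamT θ.2 (ThW (b C) (shp θ t) (Fw K)) s)‖ ≤
        ((NumberField.Units.torsionOrder K : ℝ) * c)⁻¹ * ‖Zf K (1 / 2)‖⁻¹ * C0 * Bd := by
      intro C
      have h2 := hC0 (I C) (b C) (shp θ t) θ.2 s (hI C) hre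
      have hI0 := absNorm_pos' (hI C)
      have e1 : ‖(Ideal.absNorm (I C) : ℂ) ^ s‖ = √(Ideal.absNorm (I C)) := by
        have e2 : ((Ideal.absNorm (I C) : ℕ) : ℂ) = (((Ideal.absNorm (I C) : ℕ) : ℝ) : ℂ) := by
          push_cast; rfl
        rw [e2, Complex.norm_cpow_eq_rpow_re_of_pos hI0, hre, Real.sqrt_eq_rpow]
      have e3 : ‖((NumberField.Units.torsionOrder K : ℂ) * c)⁻¹‖ =
          ((NumberField.Units.torsionOrder K : ℝ) * c)⁻¹ := by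
        rw [norm_inv]
        congr 1
        have : ((NumberField.Units.torsionOrder K : ℂ) * c) =
            (((NumberField.Units.torsionOrder K : ℝ) * c : ℝ) : ℂ) := by
          push_cast; rfl
        rw [this, Complex.norm_real, Real.norm_of_nonneg hwc.le]
      rw [norm_mul, norm_mul, norm_inv, hχn, inv_one, one_mul, norm_mul, norm_mul, e1, e3,
        hsub, norm_inv]
      set Λ := ‖LamT θ.2 (ThW (b C) (shp θ t) (Fw K)) s‖ with hΛ
      have hΛ0 : 0 ≤ Λ := norm_nonneg _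
      calc √(Ideal.absNorm (I C)) * (((NumberField.Units.torsionOrder K : ℝ) * c)⁻¹ *
            ‖Zf K (1 / 2)‖⁻¹ * Λ) =
            ((NumberField.Units.torsionOrder K : ℝ) * c)⁻¹ * ‖Zf K (1 / 2)‖⁻¹ *
              (√(Ideal.absNorm (I C)) * Λ) := by ring
        _ ≤ ((NumberField.Units.torsionOrder K : ℝ) * c)⁻¹ * ‖Zf K (1 / 2)‖⁻¹ * (C0 * Bd) :=
            mul_le_mul_of_nonneg_left h2 (by positivity)
        _ = _ := by ring
    refine (sum_le_sum fun C _ => h1 C).trans ?_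
    rw [sum_const, card_univ, nsmul_eq_mul]
    exact le_of_eq (by ring)

end Pool.Agent.H3.W
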