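import Pool.Agent.H3.W.W11

/-!
# The main theorem for unramified characters
-/

set_option autoImplicit false
set_option linter.unusedSectionVars false

namespace Pool.Agent.H3.W

open Finset NumberField NumberField.InfinitePlace Module MeasureTheory
open Pool.Agent.T2H29.SW Pool.Agent.T2H29.TA
open scoped RealInnerProductSpace ContDiff

/-- the main theorem for unramified characters -/
theorem main_unr (K : Type) [Field K] [NumberField K] {ε : ℝ} (hε : 0 < ε) (hε1 : ε ≤ 1) :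
    ∃ C : ℝ, 0 < C ∧
    ∀ (θ : Par (InfinitePlace K)) (χ : Ideal (𝓞 K) →* ℂ), HU θ χ →
    ∃ L : ℂ → ℂ, MeromorphicOn L Set.univ ∧ (∀ s : ℂ, s.re ≠ 1 → DifferentiableAt ℂ L s) ∧
    (∀ s : ℂ, 1 < s.re →
      HasSum (fun I : Ideal (𝓞 K) => χ I * (Ideal.absNorm I : ℂ) ^ (-s)) (L s)) ∧
    ∀ t : ℝ, ‖L (1 / 2 + t * Complex.I)‖ ≤
      C * (VT (shp θ t) ^ ε * VT (shp θ t) ^ (1 / 6 : ℝ)) := by
  obtain ⟨C, hC0, hC⟩ := fin_unr K hε hε1
  refine ⟨C * 3, by positivity, fun θ χ hχ => ?_⟩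
  obtain ⟨F, hF1, hF2, hF3⟩ := hC θ χ hχ
  obtain ⟨D, hD⟩ : ∃ D : ℂ → ℂ, D = fun s => 1 - χ (Ideal.span {2}) *
    (2 : ℂ) ^ ((dg K : ℂ) * (1 - s)) := ⟨_, rfl⟩
  have hDd : Differentiable ℂ D := by
    rw [hD]
    refine (differentiable_const _).sub ((differentiable_const _).mul ?_)
    exact Differentiable.const_cpow (by fun_prop) (Or.inl two_ne_zero)
  have h2 : ‖χ (Ideal.span {2})‖ = 1 := by
    refine hχ.norm _ ?_
    rw [ne_eq, Ideal.span_singleton_eq_bot]
    exact two_ne_zero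
  have hn : (1 : ℝ) ≤ dg K := by exact_mod_cast NeZero.pos (dg K)
  have hnorm : ∀ s : ℂ, ‖χ (Ideal.span {2}) * (2 : ℂ) ^ ((dg K : ℂ) * (1 - s))‖ =
      (2 : ℝ) ^ ((dg K : ℝ) * (1 - s.re)) := by
    intro s
    rw [norm_mul, h2, one_mul]
    have e1 : (2 : ℂ) = ((2 : ℝ) : ℂ) := by norm_num
    rw [e1, Complex.norm_cpow_eq_rpow_re_of_pos two_pos]
    congr 1
    simp
  have hDne : ∀ s : ℂ, s.re ≠ 1 → D s ≠ 0 := by
    intro s hs h0
    rw [hD] at h0
    have h1 : χ (Ideal.span {2}) * (2 : ℂ) ^ ((dg K : ℂ) * (1 - s)) = 1 := (sub_eq_zero.1 h0).symm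
    have h3 := hnorm s
    rw [h1, norm_one] at h3
    have h4 : (dg K : ℝ) * (1 - s.re) = 0 := by
      by_contra h5
      rcases lt_or_gt_of_ne h5 with h6 | h6
      · have := Real.rpow_lt_one_of_one_lt_of_neg (one_lt_two) h6
        linarith
      · have := Real.one_lt_rpow (one_lt_two) h6
        linarith
    rcases mul_eq_zero.1 h4 with h5 | h5
    · linarith
    · exact hs (by linarith)
  refine ⟨fun s => F s / D s, ?_, fun s hs => ?_, fun s hs => ?_, fun t => ?_⟩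
  · intro s _
    exact (hF1.analyticAt s).meromorphicAt.div (hDd.analyticAt s).meromorphicAt
  · exact (hF1 s).div (hDd s) (hDne s hs)
  · have h3 := (hF2 s hs).div_const (D s)
    have hne := hDne s hs.ne'
    refine h3.congr_fun ?_ |> id
    intro I
    rw [hD] at hne ⊢
    beta_reduce at hne ⊢
    field_simp
  · have h3 := hF3 t
    beta_reduce
    rw [norm_div]
    have h4 : 1 / 3 ≤ ‖D (1 / 2 + t * Complex.I)‖ := by
      have h5 := hnorm (1 / 2 + t * Complex.I)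
      have h6 : (1 / 2 + (t : ℂ) * Complex.I).re = 1 / 2 := by simp
      rw [h6] at h5
      have h7 : (4 : ℝ) / 3 ≤ (2 : ℝ) ^ ((dg K : ℝ) * (1 - 1 / 2)) := by
        have h8 : (2 : ℝ) ^ (1 / 2 : ℝ) ≤ (2 : ℝ) ^ ((dg K : ℝ) * (1 - 1 / 2)) :=
          Real.rpow_le_rpow_of_exponent_le one_le_two (by linarith)
        have h9 : (4 : ℝ) / 3 ≤ (2 : ℝ) ^ (1 / 2 : ℝ) := by
          rw [← Real.sqrt_eq_rpow]
          exact Real.le_sqrt_of_sq_le (by norm_num)
        linarith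
      have h10 : ‖χ (Ideal.span {2}) * (2 : ℂ) ^ ((dg K : ℂ) * (1 - (1 / 2 + t * Complex.I)))‖ ≤
          ‖D (1 / 2 + t * Complex.I)‖ + 1 := by
        have e1 : χ (Ideal.span {2}) * (2 : ℂ) ^ ((dg K : ℂ) * (1 - (1 / 2 + t * Complex.I))) =
            1 - D (1 / 2 + t * Complex.I) := by
          rw [hD]
          ring
        rw [e1]
        refine (norm_sub_le _ _).trans ?_
        rw [norm_one]
        linarith
      rw [h5] at h10
      linarith
    rw [div_le_iff₀ (by linarith)]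
    set Bd := VT (shp θ t) ^ ε * VT (shp θ t) ^ (1 / 6 : ℝ) with hBd
    have h11 : 0 ≤ C * Bd := by
      have := VT_pos (shp θ t)
      positivity
    calc _ ≤ C * Bd := h3
      _ = (C * Bd) * 3 * (1 / 3) := by ring
      _ ≤ (C * Bd) * 3 * ‖D (1 / 2 + t * Complex.I)‖ := mul_le_mul_of_nonneg_left h4 (by positivity)
      _ = _ := by ring

end Pool.Agent.H3.W
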