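import Pool.Agent.H3.W.W1

/-!
# Completion of sums with smooth weights
-/

set_option autoImplicit false
set_option linter.unusedSectionVars false

namespace Pool.Agent.H3.W

open Finset NumberField NumberField.InfinitePlace Module MeasureTheory
open Pool.Agent.T2H29.SW Pool.Agent.T2H29.TA
open scoped RealInnerProductSpace ContDiff

variable {K : Type} [Field K] [NumberField K]

/-- finite supports -/
lemma fin_supp {A : Matrix (Fin (dg K)) (Fin (dg K)) ℝ} (hA : A.det ≠ 0) {f : EK K → ℂ}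
    (hfc : HasCompactSupport f) (v0 : EK K) :
    {z : Fin (dg K) → ℤ | f (v0 + vc A z) ≠ 0}.Finite := by
  obtain ⟨R, hR⟩ := hfc.isCompact.isBounded.exists_norm_le
  refine (cnt_fin K hA v0 R).subset fun z hz => ?_
  intro w
  exact (lamK_norm_le K _ w).trans (hR _ (subset_tsupport f hz))

/-- completion for smooth weights -/
theorem comp_eq {I m : Ideal (𝓞 K)} (hI : I ≠ ⊥) (hm : m ≠ ⊥) (hc : IsCoprime I m)
    (b : Basis (Fin (dg K)) ℤ I) [Fintype (𝓞 K ⧸ m)] {g : 𝓞 K → ℂ} (hg1 : ∀ x, ‖g x‖ ≤ 1)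
    (hg : PerO m g) (x : LS K) (b3 : Basis (Fin (dg K)) ℤ (I * m : Ideal (𝓞 K))) {f : EK K → ℂ}
    (hf : ContDiff ℝ ∞ f) (hfc : HasCompactSupport f) :
    ∃ S : (Fin (dg K) → ℤ) → ℂ, (∀ ζ, ∃ l, AC m l ∧ S ζ = sQ m (fun x => g x * l x)) ∧
      S 0 = sQ m g ∧ (Summable fun ζ => ‖FT f (vc (du (AX b3 x)) ζ)‖) ∧
      ∑' z, f (vc (AX b x) z) * g (el b z) =
        (Mv (AX b3 x) : ℂ) * ∑' ζ, FT f (vc (du (AX b3 x)) ζ) * S ζ := by
  classical
  have hIm : I * m ≠ ⊥ := by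
    intro h
    rcases Ideal.mul_eq_bot.1 h with h1 | h1
    · exact hI h1
    · exact hm h1
  have hle : I * m ≤ I := Ideal.mul_le_left
  obtain ⟨e0, he0, he1⟩ := exists_e0 hc
  have hsub := subLI b hc b3 rfl hle
  have hA : (AX b x).det ≠ 0 := det_AX_ne hI b x
  have hA3 : (AX b3 x).det ≠ 0 := det_AX_ne hIm b3 x
  have hτ : ∀ t, (AX b x).mulVec (cz (tauI b b3 hle t)) = (AX b3 x).mulVec (cz t) := by
    intro t
    rw [AX_tau]
  have hper : ∀ z t, g (el b (z + tauI b b3 hle t)) = g (el b z) := by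
    intro z t
    refine hg _ _ ?_
    rw [el_addd, el_tauI, add_sub_cancel_left]
    exact Ideal.mul_le_right (el_mem b3 t)
  set rp : 𝓞 K ⧸ m → (Fin (dg K) → ℤ) := repI m b ⟨e0, he0⟩ with hrp
  set A := AX b x with hAd
  set A3 := AX b3 x with hA3d
  have hpo := pois K hA3 hf hfc
  have hFs := (hpo 0).1
  refine ⟨fun ζ => ∑ k : 𝓞 K ⧸ m, g (el b (rp k)) * lamS A A3 ζ (rp k), fun ζ => ?_, ?_, hFs, ?_⟩
  · refine ⟨lI b ⟨e0, he0⟩ (lamS A A3 ζ), lI_AC b hc b3 rfl hle (lamS_add _ _ ζ) (lamS_norm _ _ ζ)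
      (fun t => lamS_tau hA3 hτ ζ t), ?_⟩
    exact sum_repI b he1 hg _
  · have h1 := sum_repI (e0 := ⟨e0, he0⟩) b he1 hg (fun _ => (1 : ℂ))
    have h2 : (fun x => g x * lI b ⟨e0, he0⟩ (fun _ => (1 : ℂ)) x) = g := by
      funext y
      unfold lI
      rw [mul_one]
    rw [h2] at h1
    rw [← h1]
    refine sum_congr rfl fun k _ => ?_
    rw [lamS_zero]
  · have hsm : Summable fun z => f (vc A z) * g (el b z) := by
      refine summable_of_hasFiniteSupport ((fin_supp hA hfc 0).subset fun z hz => ?_)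
      show f (0 + vc A z) ≠ 0
      rw [zero_add]
      exact left_ne_zero_of_mul hz
    have h1 := SubL_tsum hsub (rep := rp) (cls_repI b he1) hsm
    rw [h1]
    have h2 : ∀ k : 𝓞 K ⧸ m, ∑' t, f (vc A (rp k + tauI b b3 hle t)) *
        g (el b (rp k + tauI b b3 hle t)) =
        (Mv A3 : ℂ) * ∑' ζ, FT f (vc (du A3) ζ) * (g (el b (rp k)) * lamS A A3 ζ (rp k)) := by
      intro k
      have h3 : ∀ t, f (vc A (rp k + tauI b b3 hle t)) * g (el b (rp k + tauI b b3 hle t)) =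
          f (vc A (rp k) + vc A3 t) * g (el b (rp k)) := by
        intro t
        rw [hper, vc_add']
        congr 3
        unfold vc
        rw [hτ]
      simp_rw [h3]
      rw [tsum_mul_right, (hpo (vc A (rp k))).2, mul_assoc, ← tsum_mul_right]
      congr 1
      refine tsum_congr fun ζ => ?_
      have h4 : e ⟪vc A (rp k), vc (du A3) ζ⟫ = lamS A A3 ζ (rp k) := by
        unfold lamS
        congr 1
        have h5 := dot_tr (A3⁻¹) (cz ζ) (A.mulVec (cz (rp k)))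
        have e1 : ∑ i, (ζ i : ℝ) * (A3⁻¹.mulVec (A.mulVec (cz (rp k)))) i =
            ∑ i, cz ζ i * (A3⁻¹.mulVec (A.mulVec (cz (rp k)))) i := rfl
        rw [e1, ← h5]
        unfold vc du
        rw [PiLp.inner_apply]
        refine sum_congr rfl fun i _ => ?_
        simp
      rw [h4]
      ring
    simp_rw [h2]
    rw [← mul_sum]
    congr 1
    have hs3 : ∀ k ∈ (univ : Finset (𝓞 K ⧸ m)), Summable fun ζ : Fin (dg K) → ℤ =>
        FT f (vc (du A3) ζ) * (g (el b (rp k)) * lamS A A3 ζ (rp k)) := by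
      intro k _
      refine Summable.of_norm_bounded hFs fun ζ => ?_
      rw [norm_mul, norm_mul, lamS_norm, mul_one]
      exact mul_le_of_le_one_right (norm_nonneg _) (hg1 _)
    rw [← Summable.tsum_finsetSum hs3]
    refine tsum_congr fun ζ => ?_
    rw [mul_sum]

/-- completion: the bound -/
theorem comp_le {I m : Ideal (𝓞 K)} (hI : I ≠ ⊥) (hm : m ≠ ⊥) (hc : IsCoprime I m)
    (b : Basis (Fin (dg K)) ℤ I) [Fintype (𝓞 K ⧸ m)] {g : 𝓞 K → ℂ} (hg1 : ∀ x, ‖g x‖ ≤ 1)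
    (hg : PerO m g) (x : LS K) (b3 : Basis (Fin (dg K)) ℤ (I * m : Ideal (𝓞 K))) {f : EK K → ℂ}
    (hf : ContDiff ℝ ∞ f) (hfc : HasCompactSupport f) {κ : ℝ}
    (hk : ∀ l, AC m l → ‖sQ m (fun x => g x * l x)‖ ≤ κ) {D : (Fin (dg K) → ℤ) → ℝ} {Y : ℝ}
    (hD : ∀ ζ, ‖FT f (vc (du (AX b3 x)) ζ)‖ ≤ D ζ) (hDs : Summable D) (hY : ∑' ζ, D ζ ≤ Y) :
    ‖∑' z, f (vc (AX b x) z) * g (el b z)‖ ≤ κ * (Mv (AX b3 x) * Y) := by
  obtain ⟨S, hS, -, hs, heq⟩ := comp_eq hI hm hc b hg1 hg x b3 hf hfc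
  have hIm : I * m ≠ ⊥ := by
    intro h
    rcases Ideal.mul_eq_bot.1 h with h1 | h1
    · exact hI h1
    · exact hm h1
  have hMv : 0 < Mv (AX b3 x) := Mv_pos (det_AX_ne hIm b3 x)
  have hSk : ∀ ζ, ‖S ζ‖ ≤ κ := fun ζ => by
    obtain ⟨l, hl, h1⟩ := hS ζ
    rw [h1]
    exact hk l hl
  have hκ : 0 ≤ κ := (norm_nonneg _).trans (hSk 0)
  rw [heq, norm_mul, Complex.norm_real, Real.norm_of_nonneg hMv.le]
  have h1 : ‖∑' ζ, FT f (vc (du (AX b3 x)) ζ) * S ζ‖ ≤ ∑' ζ, D ζ * κ := by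
    refine tsum_of_norm_bounded (hDs.mul_right κ).hasSum fun ζ => ?_
    rw [norm_mul]
    exact mul_le_mul (hD ζ) (hSk ζ) (norm_nonneg _) ((norm_nonneg _).trans (hD ζ))
  rw [tsum_mul_right] at h1
  calc _ ≤ Mv (AX b3 x) * ((∑' ζ, D ζ) * κ) := mul_le_mul_of_nonneg_left h1 hMv.le
    _ ≤ Mv (AX b3 x) * (Y * κ) := by
        refine mul_le_mul_of_nonneg_left ?_ hMv.le
        exact mul_le_mul_of_nonneg_right hY hκ
    _ = _ := by ring

/-- completion: the bound without the zero frequency -/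
theorem comp_le0 {I m : Ideal (𝓞 K)} (hI : I ≠ ⊥) (hm : m ≠ ⊥) (hc : IsCoprime I m)
    (b : Basis (Fin (dg K)) ℤ I) [Fintype (𝓞 K ⧸ m)] {g : 𝓞 K → ℂ} (hg1 : ∀ x, ‖g x‖ ≤ 1)
    (hg : PerO m g) (hg0 : sQ m g = 0) (x : LS K) (b3 : Basis (Fin (dg K)) ℤ (I * m : Ideal (𝓞 K)))
    {f : EK K → ℂ} (hf : ContDiff ℝ ∞ f) (hfc : HasCompactSupport f) {κ : ℝ}
    (hk : ∀ l, AC m l → ‖sQ m (fun x => g x * l x)‖ ≤ κ) {D : (Fin (dg K) → ℤ) → ℝ} {Y : ℝ}
    (hD0 : 0 ≤ D 0) (hD : ∀ ζ, ζ ≠ 0 → ‖FT f (vc (du (AX b3 x)) ζ)‖ ≤ D ζ) (hDs : Summable D)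
    (hY : ∑' ζ, D ζ ≤ Y) :
    ‖∑' z, f (vc (AX b x) z) * g (el b z)‖ ≤ κ * (Mv (AX b3 x) * Y) := by
  obtain ⟨S, hS, hS0, hs, heq⟩ := comp_eq hI hm hc b hg1 hg x b3 hf hfc
  have hIm : I * m ≠ ⊥ := by
    intro h
    rcases Ideal.mul_eq_bot.1 h with h1 | h1
    · exact hI h1
    · exact hm h1
  have hMv : 0 < Mv (AX b3 x) := Mv_pos (det_AX_ne hIm b3 x)
  have hSk : ∀ ζ, ‖S ζ‖ ≤ κ := fun ζ => by
    obtain ⟨l, hl, h1⟩ := hS ζ
    rw [h1]
    exact hk l hl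
  have hκ : 0 ≤ κ := (norm_nonneg _).trans (hSk 0)
  rw [heq, norm_mul, Complex.norm_real, Real.norm_of_nonneg hMv.le]
  have h1 : ‖∑' ζ, FT f (vc (du (AX b3 x)) ζ) * S ζ‖ ≤ ∑' ζ, D ζ * κ := by
    refine tsum_of_norm_bounded (hDs.mul_right κ).hasSum fun ζ => ?_
    rw [norm_mul]
    by_cases hζ : ζ = 0
    · rw [hζ, hS0, hg0, norm_zero, mul_zero]
      exact mul_nonneg hD0 hκ
    · exact mul_le_mul (hD ζ hζ) (hSk ζ) (norm_nonneg _) ((norm_nonneg _).trans (hD ζ hζ))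
  rw [tsum_mul_right] at h1
  calc _ ≤ Mv (AX b3 x) * ((∑' ζ, D ζ) * κ) := mul_le_mul_of_nonneg_left h1 hMv.le
    _ ≤ Mv (AX b3 x) * (Y * κ) := by
        refine mul_le_mul_of_nonneg_left ?_ hMv.le
        exact mul_le_mul_of_nonneg_right hY hκ
    _ = _ := by ring

end Pool.Agent.H3.W
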