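import Pool.Agent.H3.W.W2

/-!
# Long sums
-/

set_option autoImplicit false
set_option linter.unusedSectionVars false

namespace Pool.Agent.H3.W

open Finset NumberField NumberField.InfinitePlace Module MeasureTheory
open Pool.Agent.T2H29.SW Pool.Agent.T2H29.TA
open scoped RealInnerProductSpace ContDiff

section general

lemma sqrt_prod {κ : Type} (s : Finset κ) (f : κ → ℝ) (hf : ∀ w, 0 ≤ f w) :
    √(∏ w ∈ s, f w) = ∏ w ∈ s, √(f w) := by
  classical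
  induction s using Finset.induction_on with
  | empty => simp
  | insert a s ha ih =>
    rw [prod_insert ha, prod_insert ha, Real.sqrt_mul (hf a), ih]

lemma rpow_prod {κ : Type} (s : Finset κ) (f : κ → ℝ) (hf : ∀ w, 0 ≤ f w) (a : ℝ) :
    (∏ w ∈ s, f w) ^ a = ∏ w ∈ s, f w ^ a := (Real.finsetProd_rpow s f (fun w _ => hf w) a).symm

end general

variable {K : Type} [Field K] [NumberField K]

/-- the size of the parameters at a place -/
noncomputable def Ta (θ : Par (InfinitePlace K)) (w : InfinitePlace K) : ℝ :=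
  1 + ‖cp (tp K w) (θ.1 w) (θ.2 w)‖

/-- the archimedean part of the analytic conductor -/
noncomputable def VT (θ : Par (InfinitePlace K)) : ℝ := ∏ w, Ta θ w ^ mult w

lemma Ta_one (θ : Par (InfinitePlace K)) (w : InfinitePlace K) : 1 ≤ Ta θ w := by
  unfold Ta
  have := norm_nonneg (cp (tp K w) (θ.1 w) (θ.2 w))
  linarith

lemma Ta_pos (θ : Par (InfinitePlace K)) (w : InfinitePlace K) : 0 < Ta θ w := by
  have := Ta_one θ w
  linarith

lemma VT_one (θ : Par (InfinitePlace K)) : 1 ≤ VT θ := by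
  unfold VT
  have h : ∏ w : InfinitePlace K, (1 : ℝ) ≤ ∏ w, Ta θ w ^ mult w :=
    prod_le_prod (fun _ _ => zero_le_one) fun w _ => one_le_pow₀ (Ta_one θ w)
  simpa using h

lemma VT_pos (θ : Par (InfinitePlace K)) : 0 < VT θ := by
  have := VT_one θ
  linarith

lemma VT_rpow (θ : Par (InfinitePlace K)) (a : ℝ) :
    ∏ w, (Ta θ w ^ a) ^ mult w = VT θ ^ a := by
  unfold VT
  rw [rpow_prod _ _ (fun w => by have := Ta_pos θ w; positivity)]
  refine prod_congr rfl fun w _ => ?_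
  have h := (Ta_pos θ w).le
  rw [← Real.rpow_natCast, ← Real.rpow_mul h, mul_comm, Real.rpow_mul h, Real.rpow_natCast]

lemma VT_sqrt (θ : Par (InfinitePlace K)) :
    ∏ w, (√(Ta θ w ^ mult w))⁻¹ = (√(VT θ))⁻¹ := by
  unfold VT
  rw [sqrt_prod _ _ (fun w => by have := Ta_pos θ w; positivity), prod_inv_distrib]

lemma Ta_le_VT (θ : Par (InfinitePlace K)) (w : InfinitePlace K) : Ta θ w ≤ VT θ := by
  classical
  unfold VT
  rw [← mul_prod_erase univ _ (mem_univ w)]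
  have h1 : Ta θ w ≤ Ta θ w ^ mult w :=
    le_self_pow₀ (Ta_one θ w) (by have := mult_pos (w := w); omega)
  have h2 : (1 : ℝ) ≤ ∏ v ∈ univ.erase w, Ta θ v ^ mult v := by
    have h : ∏ v ∈ univ.erase w, (1 : ℝ) ≤ ∏ v ∈ univ.erase w, Ta θ v ^ mult v :=
      prod_le_prod (fun _ _ => zero_le_one) fun w _ => one_le_pow₀ (Ta_one θ w)
    simpa using h
  have h3 := Ta_pos θ w
  calc Ta θ w ≤ Ta θ w ^ mult w := h1
    _ ≤ _ := le_mul_of_one_le_right (by positivity) h2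

/-- the Fourier transform of the weight -/
theorem FTW {ε : ℝ} (hε : 0 < ε) (N : ℕ) : ∃ C : ℝ, 0 < C ∧
    ∀ (θ : Par (InfinitePlace K)) (ξ : EK K), ‖FT (Wt (lamK K) θ) ξ‖ ≤
      C * ((√(VT θ))⁻¹ * ∏ w, ((1 + ‖lamK K w ξ‖ / Ta θ w ^ (1 + ε)) ^ N)⁻¹) := by
  obtain ⟨c, hc, hFT⟩ := FT_prod K
  have hex := fun w : InfinitePlace K => loc1 (tp K w) A11.b0_TB.CIg hε N
  choose C hC0 hC using hex
  refine ⟨c * ∏ w, C w, mul_pos hc (prod_pos fun w _ => hC0 w), fun θ ξ => ?_⟩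
  have h1 : FT (Wt (lamK K) θ) ξ = (c : ℂ) * ∏ w, FL (tp K w)
      (fun z => uu (θ.1 w) (θ.2 w) z * ((bmp (‖z‖ ^ 2) : ℝ) : ℂ)) (lamK K w ξ) :=
    hFT (fun w z => uu (θ.1 w) (θ.2 w) z * ((bmp (‖z‖ ^ 2) : ℝ) : ℂ)) ξ
  rw [h1, norm_mul, norm_prod, Complex.norm_real, Real.norm_of_nonneg hc.le, ← VT_sqrt, mul_assoc]
  refine mul_le_mul_of_nonneg_left ?_ hc.le
  rw [← prod_mul_distrib, ← prod_mul_distrib]
  refine prod_le_prod (fun _ _ => norm_nonneg _) fun w _ => ?_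
  have h2 := hC w (θ.1 w) (θ.2 w) (lamK K w ξ) (lamK_Rl K ξ w)
  rw [mult_nr K w]
  exact h2

/-- nonzero vectors -/
lemma nz_low (B : ℝ) : ∃ C : ℝ, 0 < C ∧ ∀ D, GB K B D → ∀ R : InfinitePlace K → ℝ,
    (∀ w, 0 < R w) → ∀ ζ : Fin (dg K) → ℤ, ζ ≠ 0 →
    ∏ w, ((1 + ‖lamK K w (0 + vc D ζ)‖ / R w) ^ 2)⁻¹ ≤ C * (Mv D * ∏ w, R w ^ mult w) := by
  obtain ⟨C, hC, h⟩ := cnt_ne K B
  refine ⟨C, hC, fun D hD R hR ζ hζ => ?_⟩
  have h1 := h D hD (fun w => ‖lamK K w (vc D ζ)‖)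
    (fun w => norm_pos_iff.2 (lam_ne K B hD hζ w)) {ζ} (fun z hz => by
      rw [mem_singleton] at hz
      rw [hz]
      exact ⟨hζ, fun w => le_rfl⟩)
  rw [card_singleton, Nat.cast_one] at h1
  have hM := Mv_pos hD.1
  have h2 : ∏ w, ‖lamK K w (vc D ζ)‖ ^ mult w ≤ (∏ w, R w ^ mult w) *
      ∏ w, (1 + ‖lamK K w (0 + vc D ζ)‖ / R w) ^ 2 := by
    rw [← prod_mul_distrib]
    refine prod_le_prod (fun _ _ => by positivity) fun w _ => ?_
    rw [zero_add]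
    set x := ‖lamK K w (vc D ζ)‖ with hx
    have hx0 : 0 ≤ x := norm_nonneg _
    have hRw := hR w
    have h5 : x ^ mult w = R w ^ mult w * (x / R w) ^ mult w := by
      rw [← mul_pow]
      congr 1
      field_simp
    rw [h5]
    refine mul_le_mul_of_nonneg_left ?_ (by positivity)
    have h6 : mult w ≤ 2 := by
      unfold mult
      split_ifs <;> norm_num
    calc (x / R w) ^ mult w ≤ (1 + x / R w) ^ mult w :=
          pow_le_pow_left₀ (by positivity) (by linarith) _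
      _ ≤ (1 + x / R w) ^ 2 := pow_le_pow_right₀ (by
          have : 0 ≤ x / R w := by positivity
          linarith) h6
  rw [prod_inv_distrib]
  have hP : 0 < ∏ w, (1 + ‖lamK K w (0 + vc D ζ)‖ / R w) ^ 2 :=
    prod_pos fun w _ => by
      have := hR w
      positivity
  rw [inv_le_iff_one_le_mul₀ hP]
  calc (1 : ℝ) ≤ C * (Mv D * ∏ w, ‖lamK K w (vc D ζ)‖ ^ mult w) := h1
    _ ≤ C * (Mv D * ((∏ w, R w ^ mult w) *
          ∏ w, (1 + ‖lamK K w (0 + vc D ζ)‖ / R w) ^ 2)) := by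
        refine mul_le_mul_of_nonneg_left ?_ hC.le
        exact mul_le_mul_of_nonneg_left h2 hM.le
    _ = _ := by ring

/-- sums over nonzero vectors -/
theorem sum_nz (B : ℝ) (j : ℕ) : ∃ C : ℝ, 0 < C ∧ ∀ D, GB K B D → ∀ R : InfinitePlace K → ℝ,
    (∀ w, 0 < R w) →
    (Summable fun ζ : Fin (dg K) → ℤ => if ζ = 0 then 0 else
      ∏ w, ((1 + ‖lamK K w (vc D ζ)‖ / R w) ^ (dg K + 1 + 2 * j))⁻¹) ∧
    ∑' ζ : Fin (dg K) → ℤ, (if ζ = 0 then 0 else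
      ∏ w, ((1 + ‖lamK K w (vc D ζ)‖ / R w) ^ (dg K + 1 + 2 * j))⁻¹) ≤
      C * ((Mv D * ∏ w, R w ^ mult w) ^ j * (1 + Mv D * ∏ w, R w ^ mult w)) := by
  obtain ⟨C1, hC1, h1⟩ := nz_low (K := K) B
  obtain ⟨C2, hC2, h2⟩ := sum_dec K B (dg K + 1) le_rfl
  refine ⟨C1 ^ j * C2, by positivity, fun D hD R hR => ?_⟩
  obtain ⟨hs, ht⟩ := h2 D hD 0 R hR
  set X := Mv D * ∏ w, R w ^ mult w with hX
  have hX0 : 0 ≤ X := by
    have := Mv_pos hD.1
    have h3 : 0 ≤ ∏ w, R w ^ mult w := prod_nonneg fun w _ => by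
      have := hR w
      positivity
    positivity
  have hb : ∀ ζ : Fin (dg K) → ℤ, (if ζ = 0 then 0 else
      ∏ w, ((1 + ‖lamK K w (vc D ζ)‖ / R w) ^ (dg K + 1 + 2 * j))⁻¹) ≤
      (C1 * X) ^ j * ∏ w, ((1 + ‖lamK K w (0 + vc D ζ)‖ / R w) ^ (dg K + 1))⁻¹ := by
    intro ζ
    have hp : 0 ≤ ∏ w, ((1 + ‖lamK K w (0 + vc D ζ)‖ / R w) ^ (dg K + 1))⁻¹ :=
      prod_nonneg fun w _ => by
        have := hR w
        positivity
    split_ifs with hζ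
    · exact mul_nonneg (by positivity) hp
    · have h3 := h1 D hD R hR ζ hζ
      have h4 : ∏ w, ((1 + ‖lamK K w (vc D ζ)‖ / R w) ^ (dg K + 1 + 2 * j))⁻¹ =
          (∏ w, ((1 + ‖lamK K w (0 + vc D ζ)‖ / R w) ^ 2)⁻¹) ^ j *
            ∏ w, ((1 + ‖lamK K w (0 + vc D ζ)‖ / R w) ^ (dg K + 1))⁻¹ := by
        rw [← prod_pow, ← prod_mul_distrib]
        refine prod_congr rfl fun w _ => ?_
        rw [zero_add, inv_pow, ← mul_inv, ← pow_mul, ← pow_add]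
        congr 2
        ring
      rw [h4]
      refine mul_le_mul_of_nonneg_right ?_ hp
      refine pow_le_pow_left₀ (prod_nonneg fun w _ => ?_) h3 j
      have := hR w
      positivity
  have h0 : ∀ ζ : Fin (dg K) → ℤ, 0 ≤ (if ζ = 0 then 0 else
      ∏ w, ((1 + ‖lamK K w (vc D ζ)‖ / R w) ^ (dg K + 1 + 2 * j))⁻¹) := by
    intro ζ
    split_ifs
    · exact le_rfl
    · exact prod_nonneg fun w _ => by
        have := hR w
        positivity
  have hsm := Summable.of_nonneg_of_le h0 hb (hs.mul_left _)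
  refine ⟨hsm, (hsm.tsum_le_tsum hb (hs.mul_left _)).trans ?_⟩
  rw [tsum_mul_left]
  calc (C1 * X) ^ j * ∑' ζ, ∏ w, ((1 + ‖lamK K w (0 + vc D ζ)‖ / R w) ^ (dg K + 1))⁻¹ ≤
        (C1 * X) ^ j * (C2 * (1 + X)) := mul_le_mul_of_nonneg_left ht (by positivity)
    _ = _ := by rw [mul_pow]; ring

lemma gauss_le {m : Ideal (𝓞 K)} [Fintype (𝓞 K ⧸ m)] {F l : 𝓞 K → ℂ} (hF : PM m F)
    (hl : AC m l) : ‖sQ m (fun x => F x * l x)‖ ≤ √(Ideal.absNorm m) := by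
  have h1 := gauss hF hl
  have hcard : (Ideal.absNorm m : ℝ) = Fintype.card (𝓞 K ⧸ m) := by
    rw [Ideal.absNorm_apply, Submodule.cardQuot_apply, Nat.card_eq_fintype_card]
  rw [hcard]
  exact Real.le_sqrt_of_sq_le h1

/-- long sums -/
theorem long_bd {B : ℝ} (hB : CBI K B) {ε : ℝ} (hε : 0 < ε) : ∃ C : ℝ, 0 < C ∧
    ∀ (I m : Ideal (𝓞 K)) (b : Basis (Fin (dg K)) ℤ I) (F : 𝓞 K → ℂ) (x : LS K)
    (θ : Par (InfinitePlace K)), I ≠ ⊥ → m ≠ ⊥ → IsCoprime I m → PM m F →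
    ‖∑' z, Wt (lamK K) θ (vc (AX b x) z) * F (el b z)‖ ≤
      C * (mm I x.2 / √(Ideal.absNorm m * VT θ) *
        (1 + Ideal.absNorm m * VT θ ^ (1 + ε) / mm I x.2)) := by
  obtain ⟨C1, hC1, h1⟩ := FTW (K := K) hε (dg K + 1)
  obtain ⟨C2, hC2, h2⟩ := sum_dec K B (dg K + 1) le_rfl
  refine ⟨C1 * C2, by positivity, fun I m b F x θ hI hm hc hF => ?_⟩
  have : Finite (𝓞 K ⧸ m) := Ideal.finiteQuotientOfFreeOfNeBot m hm
  have : Fintype (𝓞 K ⧸ m) := Fintype.ofFinite _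
  have hIm : I * m ≠ ⊥ := by
    intro h
    rcases Ideal.mul_eq_bot.1 h with h1 | h1
    · exact hI h1
    · exact hm h1
  obtain ⟨b3⟩ := exists_bas (I * m) hIm
  have hGB := GB_du K (GB_AX K hB hIm b3 x)
  have hTa : ∀ w, 0 < Ta θ w ^ (1 + ε) := fun w => Real.rpow_pos_of_pos (Ta_pos θ w) _
  obtain ⟨hs, ht⟩ := h2 (du (AX b3 x)) hGB 0 (fun w => Ta θ w ^ (1 + ε)) hTa
  have hMM := mm_pos hI x.2
  have hN := absNorm_pos' hm
  set M := mm I x.2 with hM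
  set q : ℝ := (Ideal.absNorm m : ℝ) with hq
  have hMv : Mv (AX b3 x) = M / q := by rw [Mv_AX, mm_mul hI hm]
  rw [Mv_du, hMv, VT_rpow, inv_div] at ht
  have hV := VT_pos θ
  have key := comp_le hI hm hc b (fun x => hF.le_one x) (fun x y h => hF.per x y h) x b3
    (A11.Wt_sm K θ) (A11.Wt_cs K θ) (fun l hl => gauss_le hF hl)
    (D := fun ζ => C1 * ((√(VT θ))⁻¹ * ∏ w, ((1 + ‖lamK K w (0 + vc (du (AX b3 x)) ζ)‖ /
      Ta θ w ^ (1 + ε)) ^ (dg K + 1))⁻¹))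
    (Y := C1 * ((√(VT θ))⁻¹ * (C2 * (1 + q / M * VT θ ^ (1 + ε)))))
    (fun ζ => by
      have := h1 θ (vc (du (AX b3 x)) ζ)
      rw [zero_add]
      exact this) ((hs.mul_left _).mul_left _) (by
      rw [tsum_mul_left, tsum_mul_left]
      refine mul_le_mul_of_nonneg_left ?_ hC1.le
      exact mul_le_mul_of_nonneg_left ht (by positivity))
  refine key.trans (le_of_eq ?_)
  rw [hMv, Real.sqrt_mul hN.le]
  have hsq : √q * √q = q := Real.mul_self_sqrt hN.le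
  have hsq0 : 0 < √q := Real.sqrt_pos.2 hN
  have hsV0 : 0 < √(VT θ) := Real.sqrt_pos.2 hV
  have e1 : √q * (M / q) = M / √q := by
    nth_rewrite 2 [← hsq]
    field_simp
  calc √q * (M / q * (C1 * ((√(VT θ))⁻¹ * (C2 * (1 + q / M * VT θ ^ (1 + ε)))))) =
        (√q * (M / q)) * (C1 * ((√(VT θ))⁻¹ * (C2 * (1 + q / M * VT θ ^ (1 + ε))))) := by ring
    _ = C1 * C2 * (M / (√q * √(VT θ)) * (1 + q * VT θ ^ (1 + ε) / M)) := by
        rw [e1]
        field_simp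

/-- the tail -/
theorem tail_bd {B : ℝ} (hB : CBI K B) {ε : ℝ} (hε : 0 < ε) (j : ℕ) : ∃ C : ℝ, 0 < C ∧
    ∀ (I m : Ideal (𝓞 K)) (b : Basis (Fin (dg K)) ℤ I) (F : 𝓞 K → ℂ) (x : LS K)
    (θ : Par (InfinitePlace K)), I ≠ ⊥ → m ≠ ⊥ → m ≠ ⊤ → IsCoprime I m → PM m F →
    ‖∑' z, Wt (lamK K) θ (vc (AX b x) z) * F (el b z)‖ ≤
      C * (mm I x.2 / √(Ideal.absNorm m * VT θ) *
        ((Ideal.absNorm m * VT θ ^ (1 + ε) / mm I x.2) ^ j *
          (1 + Ideal.absNorm m * VT θ ^ (1 + ε) / mm I x.2))) := by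
  obtain ⟨C1, hC1, h1⟩ := FTW (K := K) hε (dg K + 1 + 2 * j)
  obtain ⟨C2, hC2, h2⟩ := sum_nz (K := K) B j
  refine ⟨C1 * C2, by positivity, fun I m b F x θ hI hm hmt hc hF => ?_⟩
  have : Finite (𝓞 K ⧸ m) := Ideal.finiteQuotientOfFreeOfNeBot m hm
  have : Fintype (𝓞 K ⧸ m) := Fintype.ofFinite _
  have hIm : I * m ≠ ⊥ := by
    intro h
    rcases Ideal.mul_eq_bot.1 h with h1 | h1
    · exact hI h1
    · exact hm h1
  obtain ⟨b3⟩ := exists_bas (I * m) hIm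
  have hGB := GB_du K (GB_AX K hB hIm b3 x)
  have hTa : ∀ w, 0 < Ta θ w ^ (1 + ε) := fun w => Real.rpow_pos_of_pos (Ta_pos θ w) _
  obtain ⟨hs, ht⟩ := h2 (du (AX b3 x)) hGB (fun w => Ta θ w ^ (1 + ε)) hTa
  have hMM := mm_pos hI x.2
  have hN := absNorm_pos' hm
  set M := mm I x.2 with hM
  set q : ℝ := (Ideal.absNorm m : ℝ) with hq
  have hMv : Mv (AX b3 x) = M / q := by rw [Mv_AX, mm_mul hI hm]
  rw [Mv_du, hMv, VT_rpow, inv_div] at ht
  have hV := VT_pos θ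
  have e2 : q * VT θ ^ (1 + ε) / M = q / M * VT θ ^ (1 + ε) := by ring
  rw [e2]
  set X := q / M * VT θ ^ (1 + ε) with hX
  have key := comp_le0 hI hm hc b (fun x => hF.le_one x) (fun x y h => hF.per x y h)
    (hF.sum_zero hmt) x b3 (A11.Wt_sm K θ) (A11.Wt_cs K θ) (fun l hl => gauss_le hF hl)
    (D := fun ζ => C1 * ((√(VT θ))⁻¹ * (if ζ = 0 then 0 else
      ∏ w, ((1 + ‖lamK K w (vc (du (AX b3 x)) ζ)‖ /
      Ta θ w ^ (1 + ε)) ^ (dg K + 1 + 2 * j))⁻¹)))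
    (Y := C1 * ((√(VT θ))⁻¹ * (C2 * (X ^ j * (1 + X)))))
    (by simp) (fun ζ hζ => by
      have := h1 θ (vc (du (AX b3 x)) ζ)
      rw [if_neg hζ]
      exact this) ((hs.mul_left _).mul_left _) (by
      rw [tsum_mul_left, tsum_mul_left]
      refine mul_le_mul_of_nonneg_left ?_ hC1.le
      exact mul_le_mul_of_nonneg_left ht (by positivity))
  refine key.trans (le_of_eq ?_)
  rw [hMv, Real.sqrt_mul hN.le]
  have hsq : √q * √q = q := Real.mul_self_sqrt hN.le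
  have hsq0 : 0 < √q := Real.sqrt_pos.2 hN
  have hsV0 : 0 < √(VT θ) := Real.sqrt_pos.2 hV
  have e1 : √q * (M / q) = M / √q := by
    nth_rewrite 2 [← hsq]
    field_simp
  calc √q * (M / q * (C1 * ((√(VT θ))⁻¹ * (C2 * (X ^ j * (1 + X)))))) =
        (√q * (M / q)) * (C1 * ((√(VT θ))⁻¹ * (C2 * (X ^ j * (1 + X))))) := by ring
    _ = C1 * C2 * (M / (√q * √(VT θ)) * (X ^ j * (1 + X))) := by
        rw [e1]
        field_simp

end Pool.Agent.H3.W
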