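import Pool.Agent.H3.W.W3

/-!
# Differencing over a sublattice
-/

set_option autoImplicit false
set_option linter.unusedSectionVars false

namespace Pool.Agent.H3.W

open Finset NumberField NumberField.InfinitePlace Module MeasureTheory
open Pool.Agent.T2H29.SW Pool.Agent.T2H29.TA
open scoped RealInnerProductSpace ContDiff

section
variable {ι : Type} [Fintype ι] [DecidableEq ι] {Qt : Type} [Fintype Qt] [DecidableEq Qt]
  {cls : (ι → ℤ) → Qt} {τ : (ι → ℤ) → (ι → ℤ)}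

/-- the shifted sums -/
lemma cls_step (H : (ι → ℤ) → ℂ) (T : (ι → ℤ) → (ι → ℤ)) (Y Z1 : Finset (ι → ℤ))
    (hZ : ∀ y ∈ Y, ∀ z, H (z + T y) ≠ 0 → z ∈ Z1) :
    ∃ r : ℝ, 0 ≤ r ∧ (Y.card : ℝ) ^ 2 * ‖∑' z, H z‖ ^ 2 ≤ Z1.card * r ∧
      (r : ℂ) = ∑ y1 ∈ Y, ∑ y2 ∈ Y, ∑' z, H (z + T y1) * (starRingEnd ℂ) (H (z + T y2)) := by
  have h1 : (Y.card : ℂ) * ∑' z, H z = ∑ z ∈ Z1, ∑ y ∈ Y, H (z + T y) := by
    rw [Finset.sum_comm, ← nsmul_eq_mul, ← Finset.sum_const]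
    refine Finset.sum_congr rfl fun y hy => ?_
    rw [← a8_tsum _ Z1 (hZ y hy), a8_shift]
  have h2 : (Y.card : ℝ) ^ 2 * ‖∑' z, H z‖ ^ 2 = ‖∑ z ∈ Z1, ∑ y ∈ Y, H (z + T y)‖ ^ 2 := by
    rw [← h1, norm_mul, Complex.norm_natCast, mul_pow]
  have h3 : ‖∑ z ∈ Z1, ∑ y ∈ Y, H (z + T y)‖ ^ 2 ≤
      Z1.card * ∑ z ∈ Z1, ‖∑ y ∈ Y, H (z + T y)‖ ^ 2 :=
    (pow_le_pow_left₀ (norm_nonneg _) (norm_sum_le _ _) 2).trans sq_sum_le_card_mul_sum_sq
  refine ⟨∑ z ∈ Z1, ‖∑ y ∈ Y, H (z + T y)‖ ^ 2, Finset.sum_nonneg fun _ _ => sq_nonneg _,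
    h2.le.trans h3, ?_⟩
  push_cast
  have h5 : ∀ z ∈ Z1, ((‖∑ y ∈ Y, H (z + T y)‖ : ℝ) : ℂ) ^ 2 = ∑ y1 ∈ Y, ∑ y2 ∈ Y,
      H (z + T y1) * (starRingEnd ℂ) (H (z + T y2)) := by
    intro z _
    rw [← Complex.mul_conj', map_sum, Finset.sum_mul_sum]
  rw [Finset.sum_congr rfl h5, Finset.sum_comm]
  refine Finset.sum_congr rfl fun y1 hy1 => ?_
  rw [Finset.sum_comm]
  refine Finset.sum_congr rfl fun y2 hy2 => ?_
  symm
  refine a8_tsum _ Z1 fun z hz => ?_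
  exact hZ y1 hy1 z (left_ne_zero_of_mul hz)

/-- differencing over a sublattice, the weight `u` depends only on the class -/
theorem vdc_cls (h : SubL cls τ) (hadd : ∀ a b, τ (a + b) = τ a + τ b) {rep : Qt → (ι → ℤ)}
    (hrep : ∀ k, cls (rep k) = k) {G u : (ι → ℤ) → ℂ} (hG : (Function.support G).Finite)
    (hu : ∀ z, ‖u z‖ ≤ 1) (hut : ∀ z w, cls z = cls w → u z = u w) (Y : Finset (ι → ℤ))
    (Z : Qt → Finset (ι → ℤ)) {W : ℝ}
    (hZ : ∀ k, ∀ y ∈ Y, ∀ t, G (rep k + τ (t + 2 • y)) ≠ 0 → t ∈ Z k)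
    (hW : ∀ k, ((Z k).card : ℝ) ≤ W) :
    (Y.card : ℝ) ^ 2 * ‖∑' z, u z * G z‖ ^ 2 ≤ Fintype.card Qt * (W *
      ∑ y1 ∈ Y, ∑ y2 ∈ Y, ‖∑' z, G (z + τ (y1 - y2)) * (starRingEnd ℂ) (G (z - τ (y1 - y2)))‖) := by
  have hsub : ∀ a b, τ (a - b) = τ a - τ b := by
    intro a b
    have h1 := hadd (a - b) b
    rw [sub_add_cancel] at h1
    rw [h1, add_sub_cancel_right]
  have hsm : ∀ (H : (ι → ℤ) → ℂ), (∀ z, H z ≠ 0 → G z ≠ 0) → Summable H := fun H hH =>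
    summable_of_hasFiniteSupport (hG.subset fun z hz => hH z hz)
  -- the classes
  have h1 : ‖∑' z, u z * G z‖ ≤ ∑ k, ‖∑' t, G (rep k + τ t)‖ := by
    rw [SubL_tsum h hrep (hsm _ fun z hz => right_ne_zero_of_mul hz)]
    refine (norm_sum_le _ _).trans (sum_le_sum fun k _ => ?_)
    have h2 : ∀ t, u (rep k + τ t) * G (rep k + τ t) = u (rep k) * G (rep k + τ t) := by
      intro t
      rw [hut _ _ (h.cls_add (rep k) t)]
    simp_rw [h2]
    rw [tsum_mul_left, norm_mul]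
    exact mul_le_of_le_one_left (norm_nonneg _) (hu _)
  have h2 : ‖∑' z, u z * G z‖ ^ 2 ≤ Fintype.card Qt * ∑ k, ‖∑' t, G (rep k + τ t)‖ ^ 2 := by
    refine (pow_le_pow_left₀ (norm_nonneg _) h1 2).trans ?_
    have := sq_sum_le_card_mul_sum_sq (s := (univ : Finset Qt))
      (f := fun k => ‖∑' t, G (rep k + τ t)‖)
    rwa [card_univ] at this
  have h3 := fun k => cls_step (fun t => G (rep k + τ t)) (fun y => 2 • y) Y (Z k)
    (fun y hy z hz => hZ k y hy z hz)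
  choose r hr0 hr1 hr2 using h3
  have h4 : (Y.card : ℝ) ^ 2 * ∑ k, ‖∑' t, G (rep k + τ t)‖ ^ 2 ≤ W * ∑ k, r k := by
    rw [mul_sum, mul_sum]
    refine sum_le_sum fun k _ => (hr1 k).trans ?_
    exact mul_le_mul_of_nonneg_right (hW k) (hr0 k)
  have h5 : ((∑ k, r k : ℝ) : ℂ) = ∑ y1 ∈ Y, ∑ y2 ∈ Y,
      ∑' z, G (z + τ (y1 - y2)) * (starRingEnd ℂ) (G (z - τ (y1 - y2))) := by
    push_cast
    rw [sum_congr rfl fun k _ => hr2 k, sum_comm]
    refine sum_congr rfl fun y1 hy1 => ?_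
    rw [sum_comm]
    refine sum_congr rfl fun y2 hy2 => ?_
    have hf : Summable fun z => G (z + τ (2 • y1)) * (starRingEnd ℂ) (G (z + τ (2 • y2))) := by
      refine summable_of_hasFiniteSupport ?_
      have h6 : (Function.support fun z => G (z + τ (2 • y1))).Finite := by
        refine (hG.preimage (f := fun z => z + τ (2 • y1)) ?_).subset fun z hz => hz
        exact (add_left_injective _).injOn
      exact h6.subset fun z hz => left_ne_zero_of_mul hz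
    have h7 := SubL_tsum h hrep hf
    rw [← a8_shift (fun z => G (z + τ (y1 - y2)) * (starRingEnd ℂ) (G (z - τ (y1 - y2))))
      (τ (y1 + y2))]
    have h8 : ∀ z, G (z + τ (y1 + y2) + τ (y1 - y2)) *
        (starRingEnd ℂ) (G (z + τ (y1 + y2) - τ (y1 - y2))) =
        G (z + τ (2 • y1)) * (starRingEnd ℂ) (G (z + τ (2 • y2))) := by
      intro z
      have e1 : z + τ (y1 + y2) + τ (y1 - y2) = z + τ (2 • y1) := by
        rw [add_assoc, ← hadd]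
        congr 2
        rw [two_nsmul]
        abel
      have e2 : z + τ (y1 + y2) - τ (y1 - y2) = z + τ (2 • y2) := by
        rw [add_sub_assoc, ← hsub]
        congr 2
        rw [two_nsmul]
        abel
      rw [e1, e2]
    simp_rw [h8]
    rw [h7]
    refine sum_congr rfl fun k _ => tsum_congr fun t => ?_
    rw [hadd, hadd, ← add_assoc, ← add_assoc]
  have h6 : ∑ k, r k ≤ ∑ y1 ∈ Y, ∑ y2 ∈ Y,
      ‖∑' z, G (z + τ (y1 - y2)) * (starRingEnd ℂ) (G (z - τ (y1 - y2)))‖ := by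
    have h7 : 0 ≤ ∑ k, r k := sum_nonneg fun k _ => hr0 k
    calc ∑ k, r k = ‖((∑ k, r k : ℝ) : ℂ)‖ := by rw [Complex.norm_real, Real.norm_of_nonneg h7]
      _ ≤ _ := by
          rw [h5]
          refine (norm_sum_le _ _).trans (Finset.sum_le_sum fun y1 _ => ?_)
          exact norm_sum_le _ _
  by_cases hQ : Nonempty Qt
  · obtain ⟨k0⟩ := hQ
    have hW0 : 0 ≤ W := (Nat.cast_nonneg _).trans (hW k0)
    calc (Y.card : ℝ) ^ 2 * ‖∑' z, u z * G z‖ ^ 2 ≤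
          (Y.card : ℝ) ^ 2 * (Fintype.card Qt * ∑ k, ‖∑' t, G (rep k + τ t)‖ ^ 2) :=
          mul_le_mul_of_nonneg_left h2 (by positivity)
      _ = Fintype.card Qt * ((Y.card : ℝ) ^ 2 * ∑ k, ‖∑' t, G (rep k + τ t)‖ ^ 2) := by ring
      _ ≤ Fintype.card Qt * (W * ∑ k, r k) := mul_le_mul_of_nonneg_left h4 (by positivity)
      _ ≤ _ := by
          refine mul_le_mul_of_nonneg_left ?_ (by positivity)
          exact mul_le_mul_of_nonneg_left h6 hW0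
  · exact absurd ⟨cls 0⟩ hQ

end

variable {K : Type} [Field K] [NumberField K] {I I2 : Ideal (𝓞 K)}

lemma tauI_add (b : Basis (Fin (dg K)) ℤ I) (b2 : Basis (Fin (dg K)) ℤ I2) (hle : I2 ≤ I)
    (s t : Fin (dg K) → ℤ) : tauI b b2 hle (s + t) = tauI b b2 hle s + tauI b b2 hle t := by
  apply el_inj b
  rw [el_addd, el_tauI, el_tauI, el_tauI, el_addd]

lemma vc_tau (b : Basis (Fin (dg K)) ℤ I) (b2 : Basis (Fin (dg K)) ℤ I2) (hle : I2 ≤ I)
    (x : LS K) (t : Fin (dg K) → ℤ) : vc (AX b x) (tauI b b2 hle t) = vc (AX b2 x) t := by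
  unfold vc
  rw [AX_tau]

end Pool.Agent.H3.W
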