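import Pool.Agent.H3.W.W4

/-!
# The differenced sums
-/

set_option autoImplicit false
set_option linter.unusedSectionVars false

namespace Pool.Agent.H3.W

open Finset NumberField NumberField.InfinitePlace Module MeasureTheory
open Pool.Agent.T2H29.SW Pool.Agent.T2H29.TA
open scoped RealInnerProductSpace ContDiff

variable {K : Type} [Field K] [NumberField K]

/-- the Fourier transform of the differenced weight -/
theorem FT_diff {β : Bool → ℂ → ℂ} (hβ : ∀ r, CIg S0 (β r)) : ∃ C h0 : ℝ, 0 < C ∧ 0 < h0 ∧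
    ∀ (o : InfinitePlace K → ℂ) (θ : Par (InfinitePlace K)) (p : EK K), Rot K o →
    (∀ w, ‖lamK K w p‖ ≤ h0) →
    ContDiff ℝ ∞ (fun v => Phi K β o θ (v + p) * (starRingEnd ℂ) (Phi K β o θ (v - p))) ∧
    HasCompactSupport (fun v => Phi K β o θ (v + p) * (starRingEnd ℂ) (Phi K β o θ (v - p))) ∧
    ∀ ξ : EK K, ‖FT (fun v => Phi K β o θ (v + p) * (starRingEnd ℂ) (Phi K β o θ (v - p))) ξ‖ ≤
      C * ((∏ w, (√((1 + ‖Cc (tp K w) (θ.1 w) (θ.2 w) (lamK K w p)‖) ^ mult w))⁻¹) *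
        ∏ w, ((1 + ‖lamK K w ξ‖ / (1 + ‖Cc (tp K w) (θ.1 w) (θ.2 w) (lamK K w p)‖)) ^
          (dg K + 1))⁻¹) := by
  obtain ⟨c, hc, hFT⟩ := FT_prod K
  have hloc : ∀ r, ∃ C h0 : ℝ, 0 < C ∧ 0 < h0 ∧ ∀ (k : ℤ) (τ : ℝ) (h ζ : ℂ), Rl r h → Rl r ζ →
      ‖h‖ ≤ h0 → ‖I1 r k τ (β r) h ζ‖ ≤ C * ((√((1 + ‖Cc r k τ h‖) ^ nr r))⁻¹ *
      ((1 + ‖ζ‖ / (1 + ‖Cc r k τ h‖)) ^ (dg K + 1))⁻¹) := fun r => A16_loc r (hβ r) _
  choose CL hL hCL hhL HL using hloc
  refine ⟨c * ∏ w : InfinitePlace K, CL (tp K w), min (hL true) (hL false),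
    mul_pos hc (Finset.prod_pos fun w _ => hCL _), lt_min (hhL _) (hhL _),
    fun o θ h ho hy => ?_⟩
  set f : EK K → ℂ := fun v => Phi K β o θ (v + h) * (starRingEnd ℂ) (Phi K β o θ (v - h)) with hf
  have hsm := A16_Phi_smooth K hβ o θ
  have hfs : ContDiff ℝ ∞ f := by
    refine (hsm.comp (contDiff_id.add contDiff_const)).mul ?_
    exact Complex.conjCLE.contDiff.comp (hsm.comp (contDiff_id.sub contDiff_const))
  have hfc : HasCompactSupport f := by
    refine HasCompactSupport.intro (isCompact_closedBall (-h) (√(dg K * (3 / 2) ^ 2))) ?_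
    intro v hv
    by_contra h1
    apply hv
    have h2 := A16_Phi_supp K hβ ho θ (left_ne_zero_of_mul h1)
    rw [mem_closedBall_iff_norm, sub_neg_eq_add]
    exact Real.le_sqrt_of_sq_le h2
  set g : InfinitePlace K → ℂ → ℂ := fun w z => U1 (θ.1 w) (θ.2 w) (lamK K w h) z *
      (β (tp K w) ((starRingEnd ℂ) (o w) * (z + lamK K w h)) *
        (starRingEnd ℂ) (β (tp K w) ((starRingEnd ℂ) (o w) * (z - lamK K w h)))) with hg
  have hform : f = fun v : EK K => ∏ w, g w (lamK K w v) := by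
    funext v
    simp only [hf, hg, Phi, map_prod, ← Finset.prod_mul_distrib]
    refine Finset.prod_congr rfl fun w _ => ?_
    unfold U1
    rw [map_add, map_sub, map_mul]
    ring
  have hFTf : ∀ ξ : EK K, FT f ξ = (c : ℂ) * ∏ w, I1 (tp K w) (θ.1 w) (θ.2 w) (β (tp K w))
      ((starRingEnd ℂ) (o w) * lamK K w h) ((starRingEnd ℂ) (o w) * lamK K w ξ) := by
    intro ξ
    rw [hform, hFT g ξ]
    congr 1
    refine Finset.prod_congr rfl fun w _ => ?_
    exact A16_I1_rot (tp K w) (θ.1 w) (θ.2 w) (A16_zero (hβ _)) (ho w).1 (ho w).2 _ _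
  refine ⟨hfs, hfc, fun ξ => ?_⟩
  rw [hFTf, norm_mul, Complex.norm_real, Real.norm_of_nonneg hc.le, mul_assoc]
  refine mul_le_mul_of_nonneg_left ?_ hc.le
  rw [norm_prod, ← Finset.prod_mul_distrib, ← Finset.prod_mul_distrib]
  refine Finset.prod_le_prod (fun w _ => norm_nonneg _) fun w _ => ?_
  have hCrot : ‖Cc (tp K w) (θ.1 w) (θ.2 w) ((starRingEnd ℂ) (o w) * lamK K w h)‖ =
      ‖Cc (tp K w) (θ.1 w) (θ.2 w) (lamK K w h)‖ := by
    unfold Cc
    simp only [norm_mul, Complex.norm_conj, (ho w).1, one_mul]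
  have hle : ‖(starRingEnd ℂ) (o w) * lamK K w h‖ ≤ hL (tp K w) := by
    rw [norm_mul, Complex.norm_conj, (ho w).1, one_mul]
    have h1 := hy w
    cases hr : tp K w
    · exact h1.trans (min_le_right _ _)
    · exact h1.trans (min_le_left _ _)
  have h1 := HL (tp K w) (θ.1 w) (θ.2 w) _ ((starRingEnd ℂ) (o w) * lamK K w ξ)
    ((ho w).2.conj.mul (lamK_Rl K _ w)) ((ho w).2.conj.mul (lamK_Rl K _ w)) hle
  rw [hCrot, norm_mul, Complex.norm_conj, (ho w).1, one_mul] at h1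
  rw [mult_nr K w]
  exact h1

/-- the finite part of the differenced sum -/
lemma DH_cs {a s s' : Ideal (𝓞 K)} {F : 𝓞 K → ℂ} [Fintype (𝓞 K ⧸ (s * s'))] (L : LC a s s')
    (hF : PM (a * s * s') F) {h : 𝓞 K} (hh : 2 * h ∈ a) {κ : ℝ}
    (hκ : ∀ l, AC (s * s') l → ‖sQ (s * s') (fun x => DH F (2 * h) x * l x)‖ ≤ κ) :
    (∀ x, ‖F (x + h) * (starRingEnd ℂ) (F (x - h))‖ ≤ 1) ∧
    PerO (s * s') (fun x => F (x + h) * (starRingEnd ℂ) (F (x - h))) ∧
    ∀ l, AC (s * s') l →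
      ‖sQ (s * s') (fun x => F (x + h) * (starRingEnd ℂ) (F (x - h)) * l x)‖ ≤ κ := by
  have hform : ∀ x, F (x + h) * (starRingEnd ℂ) (F (x - h)) = DH F (2 * h) (x - h) := by
    intro x
    unfold DH
    have e1 : x - h + 2 * h = x + h := by ring
    rw [e1]
  have hper := DH_per L hF hh
  refine ⟨fun x => ?_, fun x y hxy => ?_, fun l hl => ?_⟩
  · rw [hform]
    exact hF.DH_le _ _
  · beta_reduce
    rw [hform, hform]
    refine hper _ _ ?_
    have e1 : x - h - (y - h) = x - y := by ring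
    rwa [e1]
  · have hg2 : PerO (s * s') (fun x => DH F (2 * h) x * l (x + h)) := by
      intro x y hxy
      beta_reduce
      rw [hper x y hxy, hl.per (x := x + h) (y := y + h) (by
        have e1 : x + h - (y + h) = x - y := by ring
        rwa [e1])]
    have h1 := sQ_shift hg2 (-h)
    have e1 : (fun x => F (x + h) * (starRingEnd ℂ) (F (x - h)) * l x) =
        fun x => DH F (2 * h) (x + -h) * l (x + -h + h) := by
      funext x
      rw [hform, neg_add_cancel_right, ← sub_eq_add_neg]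
    rw [e1, h1]
    have e2 : (fun x => DH F (2 * h) x * l (x + h)) =
        fun x => l h * (DH F (2 * h) x * l x) := by
      funext x
      rw [hl.add]
      ring
    rw [e2]
    have e3 : sQ (s * s') (fun x => l h * (DH F (2 * h) x * l x)) =
        l h * sQ (s * s') (fun x => DH F (2 * h) x * l x) := by
      unfold sQ
      rw [mul_sum]
    rw [e3, norm_mul, hl.norm, one_mul]
    exact hκ l hl

/-- the differenced sum -/
theorem diff_bd {B : ℝ} (hB : CBI K B) {β : Bool → ℂ → ℂ} (hβ : ∀ r, CIg S0 (β r)) :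
    ∃ C h0 : ℝ, 0 < C ∧ 0 < h0 ∧
    ∀ (I a s s' : Ideal (𝓞 K)) (b : Basis (Fin (dg K)) ℤ I) (F : 𝓞 K → ℂ) (x : LS K)
    (o : InfinitePlace K → ℂ) (θ : Par (InfinitePlace K)) (t : Fin (dg K) → ℤ) (κ : ℝ),
    I ≠ ⊥ → IsCoprime I (s * s') → LC a s s' → PM (a * s * s') F → Rot K o → 2 * el b t ∈ a →
    (∀ w, ‖lamK K w (vc (AX b x) t)‖ ≤ h0) →
    (∀ (_ : Fintype (𝓞 K ⧸ (s * s'))) l, AC (s * s') l →
      ‖sQ (s * s') (fun x => DH F (2 * el b t) x * l x)‖ ≤ κ) →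
    ‖∑' z, (Phi K β o θ (vc (AX b x) (z + t)) * F (el b (z + t))) *
      (starRingEnd ℂ) (Phi K β o θ (vc (AX b x) (z - t)) * F (el b (z - t)))‖ ≤
      C * (κ * (mm I x.2 / Ideal.absNorm (s * s') *
        ∏ w, (√((1 + ‖Cc (tp K w) (θ.1 w) (θ.2 w) (lamK K w (vc (AX b x) t))‖) ^ mult w))⁻¹ +
        ∏ w, √((1 + ‖Cc (tp K w) (θ.1 w) (θ.2 w) (lamK K w (vc (AX b x) t))‖) ^ mult w))) := by
  obtain ⟨C1, h0, hC1, hh0, H1⟩ := FT_diff (K := K) hβ
  obtain ⟨C3, hC3, H3⟩ := sum_dec K B (dg K + 1) le_rfl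
  refine ⟨C1 * C3, h0, by positivity, hh0,
    fun I a s s' b F x o θ t κ hI hc L hF ho hta hth hκ => ?_⟩
  obtain ⟨-, hs0, hs'0⟩ := L.parts
  have hbb0 : s * s' ≠ ⊥ := by
    intro h
    rcases Ideal.mul_eq_bot.1 h with h1 | h1
    · exact hs0 h1
    · exact hs'0 h1
  have : Finite (𝓞 K ⧸ (s * s')) := Ideal.finiteQuotientOfFreeOfNeBot _ hbb0
  have hft : Fintype (𝓞 K ⧸ (s * s')) := Fintype.ofFinite _
  have hIm : I * (s * s') ≠ ⊥ := by
    intro h
    rcases Ideal.mul_eq_bot.1 h with h1 | h1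
    · exact hI h1
    · exact hbb0 h1
  obtain ⟨b3⟩ := exists_bas (I * (s * s')) hIm
  obtain ⟨hf1, hf2, hf3⟩ := H1 o θ (vc (AX b x) t) ho hth
  obtain ⟨hg1, hg2, hg3⟩ := DH_cs L hF hta (fun l hl => hκ hft l hl)
  set P : InfinitePlace K → ℝ := fun w =>
    1 + ‖Cc (tp K w) (θ.1 w) (θ.2 w) (lamK K w (vc (AX b x) t))‖ with hP
  have hP0 : ∀ w, 0 < P w := fun w => by
    have := norm_nonneg (Cc (tp K w) (θ.1 w) (θ.2 w) (lamK K w (vc (AX b x) t)))
    simp only [hP]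
    linarith
  have hGB := GB_du K (GB_AX K hB hIm b3 x)
  obtain ⟨hs4, ht4⟩ := H3 (du (AX b3 x)) hGB 0 P hP0
  have hMM := mm_pos hI x.2
  have hN := absNorm_pos' hbb0
  set M := mm I x.2 with hM
  set q : ℝ := (Ideal.absNorm (s * s') : ℝ) with hq
  have hMv : Mv (AX b3 x) = M / q := by rw [Mv_AX, mm_mul hI hbb0]
  rw [Mv_du, hMv, inv_div] at ht4
  have hS2 : 0 ≤ ∏ w, (√(P w ^ mult w))⁻¹ := prod_nonneg fun w _ => by positivity
  have key := comp_le hI hbb0 hc b hg1 hg2 x b3 hf1 hf2 hg3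
    (D := fun ζ => C1 * ((∏ w, (√(P w ^ mult w))⁻¹) *
      ∏ w, ((1 + ‖lamK K w (0 + vc (du (AX b3 x)) ζ)‖ / P w) ^ (dg K + 1))⁻¹))
    (Y := C1 * ((∏ w, (√(P w ^ mult w))⁻¹) * (C3 * (1 + q / M * ∏ w, P w ^ mult w))))
    (fun ζ => by
      rw [zero_add]
      exact hf3 _) ((hs4.mul_left _).mul_left _) (by
      rw [tsum_mul_left, tsum_mul_left]
      refine mul_le_mul_of_nonneg_left ?_ hC1.le
      exact mul_le_mul_of_nonneg_left ht4 hS2)
  have e0 : ∀ z, (Phi K β o θ (vc (AX b x) (z + t)) * F (el b (z + t))) *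
      (starRingEnd ℂ) (Phi K β o θ (vc (AX b x) (z - t)) * F (el b (z - t))) =
      (Phi K β o θ (vc (AX b x) z + vc (AX b x) t) *
        (starRingEnd ℂ) (Phi K β o θ (vc (AX b x) z - vc (AX b x) t))) *
        (F (el b z + el b t) * (starRingEnd ℂ) (F (el b z - el b t))) := by
    intro z
    have e2 : el b (z - t) = el b z - el b t := by
      have h := el_addd b (z - t) t
      rw [sub_add_cancel] at h
      rw [h, add_sub_cancel_right]
    rw [vc_add', a15_vc_sub, el_addd, e2, map_mul]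
    ring
  simp_rw [e0]
  refine key.trans (le_of_eq ?_)
  rw [hMv]
  have e1 : ∏ w, P w ^ mult w = (∏ w, √(P w ^ mult w)) * ∏ w, √(P w ^ mult w) := by
    rw [← Finset.prod_mul_distrib]
    refine Finset.prod_congr rfl fun w _ => ?_
    rw [Real.mul_self_sqrt]
    have := hP0 w
    positivity
  have e2 : (∏ w, (√(P w ^ mult w))⁻¹) * ∏ w, √(P w ^ mult w) = 1 := by
    rw [← Finset.prod_mul_distrib]
    refine Finset.prod_eq_one fun w _ => ?_
    have : 0 < √(P w ^ mult w) := Real.sqrt_pos.2 (by have := hP0 w; positivity)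
    exact inv_mul_cancel₀ this.ne'
  rw [e1]
  set S1 := ∏ w, √(P w ^ mult w) with hS1
  set S3 := ∏ w, (√(P w ^ mult w))⁻¹ with hS3
  have e3 : M / q * (q / M) = 1 := by field_simp
  change κ * (M / q * (C1 * (S3 * (C3 * (1 + q / M * (S1 * S1)))))) =
    C1 * C3 * (κ * (M / q * S3 + S1))
  calc _ = C1 * C3 * (κ * (M / q * S3 + (M / q * (q / M)) * (S3 * S1) * S1)) := by ring
    _ = _ := by rw [e3, e2]; ring

end Pool.Agent.H3.W
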