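import Pool.Agent.H3.W.W5

/-!
# Sums over the shifts
-/

set_option autoImplicit false
set_option linter.unusedSectionVars false

namespace Pool.Agent.H3.W

open Finset NumberField NumberField.InfinitePlace Module MeasureTheory
open Pool.Agent.T2H29.SW Pool.Agent.T2H29.TA
open scoped RealInnerProductSpace ContDiff

variable {K : Type} [Field K] [NumberField K]

lemma vc_el {I I2 : Ideal (𝓞 K)} (b : Basis (Fin (dg K)) ℤ I) (b2 : Basis (Fin (dg K)) ℤ I2)
    (x : LS K) {z z2 : Fin (dg K) → ℤ} (h : el b z = el b2 z2) :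
    vc (AX b x) z = vc (AX b2 x) z2 := by
  unfold vc
  congr 1
  funext i
  unfold AX
  rw [MX_mulVec, MX_mulVec, h]

/-- the shifts in a sublattice -/
theorem sing_d {B : ℝ} (hB : CBI K B) : ∃ C : ℝ, 0 < C ∧
    ∀ (I f a d : Ideal (𝓞 K)) (b2 : Basis (Fin (dg K)) ℤ (I * (f * a) : Ideal (𝓞 K))) (x : LS K)
    (R : InfinitePlace K → ℝ) (S : Finset (Fin (dg K) → ℤ)), I ≠ ⊥ → f ≠ ⊥ → a ≠ ⊥ → d ≠ ⊥ →
    IsCoprime I (f * (a * d)) → IsCoprime f (a * d) → (∀ w, 0 < R w) →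
    (∀ t ∈ S, t ≠ 0 ∧ 2 * el b2 t ∈ a * d ∧ ∀ w, ‖lamK K w (vc (AX b2 x) t)‖ ≤ R w) →
    (S.card : ℝ) ≤ C * (mm I x.2 / (Ideal.absNorm (f * a) * Ideal.absNorm d) *
      ∏ w, R w ^ mult w) ∧
    ∑ t ∈ S, ∏ w, (√(‖lamK K w (vc (AX b2 x) t)‖ ^ mult w))⁻¹ ≤
      C * (mm I x.2 / (Ideal.absNorm (f * a) * Ideal.absNorm d) * ∏ w, √(R w ^ mult w)) := by
  classical
  obtain ⟨C1, hC1, h1⟩ := cnt_ne K B
  obtain ⟨C2, hC2, h2⟩ := sum_sing K B
  refine ⟨C1 * 2 ^ dg K + C2 * (√(2 ^ dg K) * √(2 ^ dg K)), by positivity,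
    fun I f a d b2 x R S hI hf ha hd hI1 hf1 hR hS => ?_⟩
  have hmul : ∀ {P Q : Ideal (𝓞 K)}, P ≠ ⊥ → Q ≠ ⊥ → P * Q ≠ ⊥ := fun hP hQ h => by
    rcases Ideal.mul_eq_bot.1 h with h1 | h1
    · exact hP h1
    · exact hQ h1
  have had := hmul ha hd
  have hfad := hmul hf had
  have hId := hmul hI hfad
  obtain ⟨bd⟩ := exists_bas (I * (f * (a * d))) hId
  have hel2 : ∀ t, el b2 (t + t) = 2 * el b2 t := fun t => by rw [el_addd]; ring
  have hmem : ∀ t, 2 * el b2 t ∈ a * d → el b2 (t + t) ∈ I * (f * (a * d)) := by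
    intro t ht
    rw [Ideal.mul_eq_inf_of_isCoprime hI1, Ideal.mul_eq_inf_of_isCoprime hf1]
    have h3 : el b2 (t + t) ∈ I * (f * a) := el_mem b2 _
    have h4 : el b2 (t + t) ∈ I := Ideal.mul_le_left h3
    have h5 : el b2 (t + t) ∈ f * a := Ideal.mul_le_right h3
    have h6 : el b2 (t + t) ∈ f := Ideal.mul_le_left h5
    refine ⟨h4, h6, ?_⟩
    rw [hel2]
    exact ht
  set φ : (Fin (dg K) → ℤ) → (Fin (dg K) → ℤ) := fun t =>
    if h : el b2 (t + t) ∈ I * (f * (a * d)) then crd bd ⟨_, h⟩ else 0 with hφ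
  have hel : ∀ t ∈ S, el bd (φ t) = el b2 (t + t) := by
    intro t ht
    simp only [hφ]
    rw [dif_pos (hmem t (hS t ht).2.1), el_crd]
  have hvc : ∀ t ∈ S, ∀ w, ‖lamK K w (vc (AX bd x) (φ t))‖ = 2 * ‖lamK K w (vc (AX b2 x) t)‖ := by
    intro t ht w
    rw [vc_el bd b2 x (hel t ht), vc_add', map_add, ← two_mul, norm_mul]
    norm_num
  have hinj : Set.InjOn φ S := by
    intro t ht t' ht' h
    have h3 := hel t ht
    rw [h, hel t' ht', hel2, hel2] at h3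
    exact (el_inj b2 (mul_left_cancel₀ two_ne_zero h3)).symm
  have hne : ∀ t ∈ S, φ t ≠ 0 := by
    intro t ht h
    have h3 := hel t ht
    rw [h, el_zero, hel2] at h3
    have h4 := el_ne b2 (hS t ht).1
    exact h4 (by
      have := mul_eq_zero.1 h3.symm
      exact this.resolve_left two_ne_zero)
  have hGB := GB_AX K hB hId bd x
  have hR2 : ∀ w, 0 < 2 * R w := fun w => by
    have := hR w
    positivity
  have hbd : ∀ z ∈ S.image φ, z ≠ 0 ∧ ∀ w, ‖lamK K w (vc (AX bd x) z)‖ ≤ 2 * R w := by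
    intro z hz
    obtain ⟨t, ht, rfl⟩ := mem_image.1 hz
    refine ⟨hne t ht, fun w => ?_⟩
    rw [hvc t ht w]
    exact mul_le_mul_of_nonneg_left ((hS t ht).2.2 w) (by norm_num)
  have hMv : Mv (AX bd x) = mm I x.2 / (Ideal.absNorm (f * a) * Ideal.absNorm d) := by
    rw [Mv_AX, mm_mul hI hfad, ← mul_assoc f a d, map_mul _ (f * a) d]
    push_cast
    rfl
  have hMpos : 0 < Mv (AX bd x) := Mv_pos (det_AX_ne hId bd x)
  rw [← hMv]
  have e1 : ∏ w : InfinitePlace K, (2 * R w) ^ mult w = 2 ^ dg K * ∏ w, R w ^ mult w := by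
    rw [← prod_pow_mult K 2, ← prod_mul_distrib]
    exact prod_congr rfl fun w _ => mul_pow _ _ _
  have hPR : 0 ≤ ∏ w, R w ^ mult w := prod_nonneg fun w _ => by
    have := hR w
    positivity
  have hPS : 0 ≤ ∏ w, √(R w ^ mult w) := prod_nonneg fun w _ => by positivity
  constructor
  · have h3 := h1 (AX bd x) hGB (fun w => 2 * R w) hR2 (S.image φ) hbd
    rw [card_image_of_injOn hinj, e1] at h3
    refine h3.trans ?_
    calc C1 * (Mv (AX bd x) * (2 ^ dg K * ∏ w, R w ^ mult w)) =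
          C1 * 2 ^ dg K * (Mv (AX bd x) * ∏ w, R w ^ mult w) := by ring
      _ ≤ _ := mul_le_mul_of_nonneg_right (by
          have : 0 ≤ C2 * (√(2 ^ dg K) * √(2 ^ dg K)) := by positivity
          linarith) (by positivity)
  · have h3 := h2 (AX bd x) hGB (fun w => 2 * R w) hR2 (S.image φ) hbd
    rw [sum_image hinj] at h3
    have e2 : ∀ t ∈ S, ∏ w, (√(‖lamK K w (vc (AX b2 x) t)‖ ^ mult w))⁻¹ =
        √(2 ^ dg K) * ∏ w, (√(‖lamK K w (vc (AX bd x) (φ t))‖ ^ mult w))⁻¹ := by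
      intro t ht
      rw [← prod_pow_mult K 2, sqrt_prod _ _ (fun w => by positivity), ← prod_mul_distrib]
      refine prod_congr rfl fun w _ => ?_
      have e4 : √((2 : ℝ) ^ mult w) ≠ 0 := (Real.sqrt_pos.2 (by positivity)).ne'
      rw [hvc t ht w, mul_pow, Real.sqrt_mul (by positivity), mul_inv, mul_inv_cancel_left₀ e4]
    have e3 : ∏ w : InfinitePlace K, √((2 * R w) ^ mult w) =
        √(2 ^ dg K) * ∏ w, √(R w ^ mult w) := by
      rw [← prod_pow_mult K 2, sqrt_prod _ _ (fun w => by positivity), ← prod_mul_distrib]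
      refine prod_congr rfl fun w _ => ?_
      rw [mul_pow, Real.sqrt_mul (by positivity)]
    rw [e3] at h3
    rw [sum_congr rfl e2, ← mul_sum]
    calc √(2 ^ dg K) * ∑ t ∈ S, ∏ w, (√(‖lamK K w (vc (AX bd x) (φ t))‖ ^ mult w))⁻¹ ≤
          √(2 ^ dg K) * (C2 * (Mv (AX bd x) * (√(2 ^ dg K) * ∏ w, √(R w ^ mult w)))) :=
          mul_le_mul_of_nonneg_left h3 (by positivity)
      _ = C2 * (√(2 ^ dg K) * √(2 ^ dg K)) * (Mv (AX bd x) * ∏ w, √(R w ^ mult w)) := by ring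
      _ ≤ _ := mul_le_mul_of_nonneg_right (by
          have : 0 ≤ C1 * 2 ^ dg K := by positivity
          linarith) (by positivity)

end Pool.Agent.H3.W
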