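import Pool.Agent.H3.W.W6

/-!
# The off-diagonal terms
-/

set_option autoImplicit false
set_option linter.unusedSectionVars false

namespace Pool.Agent.H3.W

open Finset NumberField NumberField.InfinitePlace Module MeasureTheory
open Pool.Agent.T2H29.SW Pool.Agent.T2H29.TA
open scoped RealInnerProductSpace ContDiff

variable {K : Type} [Field K] [NumberField K]

/-- the radii of the shifts -/
noncomputable def rd (h1 : ℝ) (θ : Par (InfinitePlace K)) (w : InfinitePlace K) : ℝ :=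
  h1 * Ta θ w ^ (-(1 / 3 : ℝ))

lemma rd_pos {h1 : ℝ} (hh : 0 < h1) (θ : Par (InfinitePlace K)) (w : InfinitePlace K) :
    0 < rd h1 θ w := mul_pos hh (Real.rpow_pos_of_pos (Ta_pos θ w) _)

lemma rd_le {h1 : ℝ} (hh : 0 < h1) (θ : Par (InfinitePlace K)) (w : InfinitePlace K) :
    rd h1 θ w ≤ h1 := by
  unfold rd
  refine mul_le_of_le_one_right hh.le ?_
  exact Real.rpow_le_one_of_one_le_of_nonpos (Ta_one θ w) (by norm_num)

lemma rd_prod {h1 : ℝ} (θ : Par (InfinitePlace K)) :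
    ∏ w, rd h1 θ w ^ mult w = h1 ^ dg K * VT θ ^ (-(1 / 3 : ℝ)) := by
  rw [← VT_rpow, ← prod_pow_mult K h1, ← prod_mul_distrib]
  exact prod_congr rfl fun w _ => mul_pow _ _ _

/-- the local factors -/
lemma loc_fac {h1 : ℝ} (hh : 0 < h1) (hh1 : h1 ≤ 1) (θ : Par (InfinitePlace K))
    {p : EK K} (hp : ∀ w, lamK K w p ≠ 0) (hpR : ∀ w, ‖lamK K w p‖ ≤ rd h1 θ w) :
    ∏ w, (√((1 + ‖Cc (tp K w) (θ.1 w) (θ.2 w) (lamK K w p)‖) ^ mult w))⁻¹ ≤
      (√(VT θ))⁻¹ * ∏ w, (√(‖lamK K w p‖ ^ mult w))⁻¹ ∧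
    ∏ w, √((1 + ‖Cc (tp K w) (θ.1 w) (θ.2 w) (lamK K w p)‖) ^ mult w) ≤
      √(3 ^ dg K) * VT θ ^ (1 / 3 : ℝ) := by
  have hn : ∀ w, 0 < ‖lamK K w p‖ := fun w => norm_pos_iff.2 (hp w)
  have hC : ∀ w, ‖Cc (tp K w) (θ.1 w) (θ.2 w) (lamK K w p)‖ =
      2 * (Ta θ w - 1) * ‖lamK K w p‖ := fun w => by
    rw [a15_Cc]
    unfold Ta
    rw [add_sub_cancel_left]
  constructor
  · rw [← VT_sqrt, ← prod_mul_distrib]
    refine prod_le_prod (fun w _ => by positivity) fun w _ => ?_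
    have hT := Ta_one θ w
    have hn0 := hn w
    have h2 : ‖lamK K w p‖ ≤ 1 := (hpR w).trans ((rd_le hh θ w).trans hh1)
    rw [hC, ← mul_inv, ← Real.sqrt_mul (by positivity), ← mul_pow]
    refine inv_anti₀ (Real.sqrt_pos.2 (by positivity)) (Real.sqrt_le_sqrt ?_)
    refine pow_le_pow_left₀ (by positivity) ?_ _
    nlinarith
  · have e1 : √(3 ^ dg K) * VT θ ^ (1 / 3 : ℝ) =
        ∏ w, √((3 * Ta θ w ^ (2 / 3 : ℝ)) ^ mult w) := by
      rw [← sqrt_prod _ _ (fun w => by have := Ta_pos θ w; positivity)]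
      have e2 : ∏ w, (3 * Ta θ w ^ (2 / 3 : ℝ)) ^ mult w = 3 ^ dg K * VT θ ^ (2 / 3 : ℝ) := by
        rw [← VT_rpow, ← prod_pow_mult K 3, ← prod_mul_distrib]
        exact prod_congr rfl fun w _ => mul_pow _ _ _
      rw [e2, Real.sqrt_mul (by positivity)]
      congr 1
      rw [Real.sqrt_eq_rpow, ← Real.rpow_mul (VT_pos θ).le]
      norm_num
    rw [e1]
    refine prod_le_prod (fun w _ => by positivity) fun w _ => ?_
    refine Real.sqrt_le_sqrt (pow_le_pow_left₀ (by positivity) ?_ _)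
    have hT := Ta_one θ w
    have hTp := Ta_pos θ w
    rw [hC]
    have h2 : (Ta θ w - 1) * ‖lamK K w p‖ ≤ Ta θ w ^ (2 / 3 : ℝ) := by
      have h3 : ‖lamK K w p‖ ≤ Ta θ w ^ (-(1 / 3 : ℝ)) := by
        refine (hpR w).trans ?_
        unfold rd
        exact mul_le_of_le_one_left (by positivity) hh1
      calc (Ta θ w - 1) * ‖lamK K w p‖ ≤ Ta θ w * Ta θ w ^ (-(1 / 3 : ℝ)) :=
            mul_le_mul (by linarith) h3 (norm_nonneg _) hTp.le
        _ = Ta θ w ^ (2 / 3 : ℝ) := by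
            nth_rewrite 1 [← Real.rpow_one (Ta θ w)]
            rw [← Real.rpow_add hTp]
            norm_num
    have h4 : 1 ≤ Ta θ w ^ (2 / 3 : ℝ) := Real.one_le_rpow hT (by norm_num)
    nlinarith

/-- the sum of the off-diagonal terms -/
theorem off_sum {B : ℝ} (hB : CBI K B) {β : Bool → ℂ → ℂ} (hβ : ∀ r, CIg S0 (β r)) :
    ∃ C h1 : ℝ, 0 < C ∧ 0 < h1 ∧ h1 ≤ 1 ∧
    ∀ (I f a s s' : Ideal (𝓞 K)) (b : Basis (Fin (dg K)) ℤ I)
    (b2 : Basis (Fin (dg K)) ℤ (I * (f * a) : Ideal (𝓞 K))) (hle : I * (f * a) ≤ I)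
    (F : 𝓞 K → ℂ) (x : LS K) (o : InfinitePlace K → ℂ) (θ : Par (InfinitePlace K))
    (E : Finset (Fin (dg K) → ℤ)), I ≠ ⊥ → f ≠ ⊥ → LC a s s' → IsCoprime f (a * s * s') →
    IsCoprime I (f * (a * s * s')) → PM (a * s * s') F → Rot K o →
    mm I x.2 ≤ Ideal.absNorm (s * s') * VT θ ^ (2 / 3 : ℝ) →
    (∀ t ∈ E, t ≠ 0 ∧ ∀ w, ‖lamK K w (vc (AX b2 x) t)‖ ≤ rd h1 θ w) →
    ∑ t ∈ E, ‖∑' z, (Phi K β o θ (vc (AX b x) (z + tauI b b2 hle t)) *
        F (el b (z + tauI b b2 hle t))) *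
      (starRingEnd ℂ) (Phi K β o θ (vc (AX b x) (z - tauI b b2 hle t)) *
        F (el b (z - tauI b b2 hle t)))‖ ≤
      C * ((tau s' : ℝ) ^ 2 * Ideal.absNorm s * (mm I x.2 / Ideal.absNorm (f * a))) := by
  classical
  obtain ⟨C1, h0, hC1, hh0, H1⟩ := diff_bd (K := K) hB hβ
  obtain ⟨C2, hC2, H2⟩ := sing_d (K := K) hB
  set N2 : ℝ := ((Ideal.absNorm (Ideal.span {(2 : 𝓞 K)}) : ℕ) : ℝ) with hN2
  have h20 : Ideal.span {(2 : 𝓞 K)} ≠ ⊥ := by
    rw [Ne, Ideal.span_singleton_eq_bot]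
    exact two_ne_zero
  have hN20 : 0 < N2 := absNorm_pos' h20
  refine ⟨C1 * N2 * C2 * (1 + √(3 ^ dg K)), min h0 1, by positivity, lt_min hh0 one_pos,
    min_le_right _ _, fun I f a s s' b b2 hle F x o θ E hI hf L hfc hIc hF ho hM hE => ?_⟩
  have hh1 : 0 < min h0 1 := lt_min hh0 one_pos
  obtain ⟨ha0, hs0, hs'0⟩ := L.parts
  have hmul : ∀ {P Q : Ideal (𝓞 K)}, P ≠ ⊥ → Q ≠ ⊥ → P * Q ≠ ⊥ := fun hP hQ h => by
    rcases Ideal.mul_eq_bot.1 h with h1 | h1
    · exact hP h1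
    · exact hQ h1
  have hbb0 := hmul hs0 hs'0
  have hfa := hmul hf ha0
  have hbI : IsCoprime I (s * s') := by
    have e1 : f * (a * s * s') = f * a * (s * s') := by ring
    rw [e1] at hIc
    exact IsCoprime.of_mul_right_right hIc
  have hMM := mm_pos hI x.2
  have hNb := absNorm_pos' hbb0
  have hNfa := absNorm_pos' hfa
  have hNs := absNorm_pos' hs0
  set M := mm I x.2 with hMdef
  set q : ℝ := (Ideal.absNorm (s * s') : ℝ) with hq
  have hV := VT_pos θ
  have hGB2 : GB K B (AX b2 x) := GB_AX K hB (hmul hI hfa) b2 x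
  -- the weights
  set W : (Fin (dg K) → ℤ) → ℝ := fun t => M / q * ((√(VT θ))⁻¹ *
    ∏ w, (√(‖lamK K w (vc (AX b2 x) t)‖ ^ mult w))⁻¹) + √(3 ^ dg K) * VT θ ^ (1 / 3 : ℝ) with hW
  have hW0 : ∀ t, 0 ≤ W t := fun t => by
    have : 0 ≤ ∏ w, (√(‖lamK K w (vc (AX b2 x) t)‖ ^ mult w))⁻¹ :=
      prod_nonneg fun w _ => by positivity
    simp only [hW]
    positivity
  -- one term
  have hterm : ∀ t ∈ E, ‖∑' z, (Phi K β o θ (vc (AX b x) (z + tauI b b2 hle t)) *
        F (el b (z + tauI b b2 hle t))) *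
      (starRingEnd ℂ) (Phi K β o θ (vc (AX b x) (z - tauI b b2 hle t)) *
        F (el b (z - tauI b b2 hle t)))‖ ≤
      C1 * ((tau s' * (N2 * Ideal.absNorm s * ∑ d ∈ dvs s',
        (if 2 * el b2 t ∈ a * d then (Ideal.absNorm d : ℝ) else 0))) * W t) := by
    intro t ht
    obtain ⟨ht0, htR⟩ := hE t ht
    have hel : el b (tauI b b2 hle t) = el b2 t := el_tauI b b2 hle t
    have hmem : el b2 t ∈ I * (f * a) := el_mem b2 t
    have hmema : el b2 t ∈ a := by
      have h3 : el b2 t ∈ f * a := Ideal.mul_le_right hmem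
      exact Ideal.mul_le_right h3
    have h2a : 2 * el b2 t ∈ a := Ideal.mul_mem_left _ _ hmema
    have hvc := vc_tau b b2 hle x t
    have hκ0 : 0 ≤ ∑ d ∈ dvs s', (if 2 * el b2 t ∈ a * d then (Ideal.absNorm d : ℝ) else 0) :=
      sum_nonneg fun d _ => by
        split_ifs
        · positivity
        · exact le_rfl
    have h2 := H1 I a s s' b F x o θ (tauI b b2 hle t)
      (tau s' * (N2 * Ideal.absNorm s * ∑ d ∈ dvs s',
        (if 2 * el b2 t ∈ a * d then (Ideal.absNorm d : ℝ) else 0))) hI hbI L hF ho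
      (by rw [hel]; exact h2a)
      (fun w => by
        rw [hvc]
        exact (htR w).trans ((rd_le hh1 θ w).trans (min_le_left _ _)))
      (fun hft l hl => by
        rw [hel]
        obtain ⟨g, hg1, hg2, hg3⟩ := sQ_DH L hF (h := 2 * el b2 t) rfl hmema rfl hl
        refine hg3.trans ?_
        have h3 := single_le_sum (f := fun d => (if 2 * el b2 t ∈ a * d then
          (Ideal.absNorm d : ℝ) else 0)) (fun d _ => by
            beta_reduce
            split_ifs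
            · positivity
            · exact le_rfl) ((mem_dvs hs'0).2 hg1)
        beta_reduce at h3
        rw [if_pos hg2] at h3
        refine mul_le_mul_of_nonneg_left ?_ (by positivity)
        exact mul_le_mul_of_nonneg_left h3 (by positivity))
    refine h2.trans (mul_le_mul_of_nonneg_left ?_ hC1.le)
    have hNs1 : (0 : ℝ) ≤ (tau s' : ℝ) := Nat.cast_nonneg _
    refine mul_le_mul_of_nonneg_left ?_ (mul_nonneg hNs1
      (mul_nonneg (mul_nonneg hN20.le hNs.le) hκ0))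
    obtain ⟨g1, g2⟩ := loc_fac hh1 (min_le_right _ _) θ (p := vc (AX b2 x) t)
      (fun w => lam_ne K B hGB2 ht0 w) htR
    have hMq : 0 ≤ M / q := by positivity
    have g3 := mul_le_mul_of_nonneg_left g1 hMq
    have g4 := add_le_add g3 g2
    rw [hvc]
    exact g4
  -- the sums over the sublattices
  have hdsum : ∀ d ∈ dvs s', ∑ t ∈ E with 2 * el b2 t ∈ a * d, W t ≤
      C2 * (1 + √(3 ^ dg K)) * (M / (Ideal.absNorm (f * a) * Ideal.absNorm d)) := by
    intro d hd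
    obtain ⟨d', hd'⟩ := (mem_dvs hs'0).1 hd
    have hd0 : d ≠ ⊥ := (ne_bot_mul (hd' ▸ hs'0)).1
    have hNd := absNorm_pos' hd0
    have hfad : IsCoprime f (a * d) := by
      have e1 : a * s * s' = (a * d) * (s * d') := by
        conv_lhs => rw [hd']
        ring
      rw [e1] at hfc
      exact IsCoprime.of_mul_right_left hfc
    have hIad : IsCoprime I (f * (a * d)) := by
      have e1 : f * (a * s * s') = (f * (a * d)) * (s * d') := by
        conv_lhs => rw [hd']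
        ring
      rw [e1] at hIc
      exact IsCoprime.of_mul_right_left hIc
    obtain ⟨g1, g2⟩ := H2 I f a d b2 x (fun w => rd (min h0 1) θ w)
      (E.filter fun t => 2 * el b2 t ∈ a * d) hI hf ha0 hd0 hIad hfad (fun w => rd_pos hh1 θ w)
      (fun t ht => by
        obtain ⟨ht1, ht2⟩ := mem_filter.1 ht
        exact ⟨(hE t ht1).1, ht2, (hE t ht1).2⟩)
    set X := M / (Ideal.absNorm (f * a) * Ideal.absNorm d : ℝ) with hX
    have hX0 : 0 ≤ X := by positivity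
    have hh1n : min h0 1 ^ dg K ≤ 1 := pow_le_one₀ hh1.le (min_le_right _ _)
    have hR1 : ∏ w, rd (min h0 1) θ w ^ mult w ≤ VT θ ^ (-(1 / 3 : ℝ)) := by
      rw [rd_prod]
      exact mul_le_of_le_one_left (by positivity) hh1n
    have hR2 : ∏ w, √(rd (min h0 1) θ w ^ mult w) ≤ VT θ ^ (-(1 / 6 : ℝ)) := by
      rw [← sqrt_prod _ _ (fun w => by have := rd_pos hh1 θ w; positivity)]
      refine (Real.sqrt_le_sqrt hR1).trans (le_of_eq ?_)
      rw [Real.sqrt_eq_rpow, ← Real.rpow_mul hV.le]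
      norm_num
    simp only [hW]
    rw [sum_add_distrib, sum_const, nsmul_eq_mul, ← mul_sum, ← mul_sum]
    have k1 : M / q * ((√(VT θ))⁻¹ * ∑ t ∈ E with 2 * el b2 t ∈ a * d,
        ∏ w, (√(‖lamK K w (vc (AX b2 x) t)‖ ^ mult w))⁻¹) ≤ C2 * X := by
      calc _ ≤ M / q * ((√(VT θ))⁻¹ * (C2 * (X * VT θ ^ (-(1 / 6 : ℝ))))) := by
            refine mul_le_mul_of_nonneg_left ?_ (by positivity)
            refine mul_le_mul_of_nonneg_left ?_ (by positivity)
            refine g2.trans (mul_le_mul_of_nonneg_left ?_ hC2.le)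
            exact mul_le_mul_of_nonneg_left hR2 hX0
        _ = (M / q * ((√(VT θ))⁻¹ * VT θ ^ (-(1 / 6 : ℝ)))) * (C2 * X) := by ring
        _ ≤ 1 * (C2 * X) := by
            refine mul_le_mul_of_nonneg_right ?_ (by positivity)
            have e1 : (√(VT θ))⁻¹ * VT θ ^ (-(1 / 6 : ℝ)) = (VT θ ^ (2 / 3 : ℝ))⁻¹ := by
              rw [Real.sqrt_eq_rpow, ← Real.rpow_neg hV.le, ← Real.rpow_neg hV.le,
                ← Real.rpow_add hV]
              norm_num
            rw [e1, ← div_eq_mul_inv, div_div, div_le_one (by positivity)]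
            exact hM
        _ = C2 * X := one_mul _
    have k2 : ((E.filter fun t => 2 * el b2 t ∈ a * d).card : ℝ) *
        (√(3 ^ dg K) * VT θ ^ (1 / 3 : ℝ)) ≤ C2 * √(3 ^ dg K) * X := by
      calc _ ≤ (C2 * (X * VT θ ^ (-(1 / 3 : ℝ)))) * (√(3 ^ dg K) * VT θ ^ (1 / 3 : ℝ)) := by
            refine mul_le_mul_of_nonneg_right ?_ (by positivity)
            refine g1.trans (mul_le_mul_of_nonneg_left ?_ hC2.le)
            exact mul_le_mul_of_nonneg_left hR1 hX0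
        _ = C2 * √(3 ^ dg K) * X * (VT θ ^ (-(1 / 3 : ℝ)) * VT θ ^ (1 / 3 : ℝ)) := by ring
        _ = _ := by
            rw [← Real.rpow_add hV]
            norm_num
    calc _ ≤ C2 * X + C2 * √(3 ^ dg K) * X := add_le_add k1 k2
      _ = _ := by ring
  refine (sum_le_sum hterm).trans ?_
  have e5 : ∀ t ∈ E, C1 * ((tau s' * (N2 * Ideal.absNorm s * ∑ d ∈ dvs s',
        (if 2 * el b2 t ∈ a * d then (Ideal.absNorm d : ℝ) else 0))) * W t) =
      C1 * (tau s' * (N2 * Ideal.absNorm s)) * ∑ d ∈ dvs s', (Ideal.absNorm d : ℝ) *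
        (if 2 * el b2 t ∈ a * d then W t else 0) := by
    intro t _
    have e6 : ∑ d ∈ dvs s', (Ideal.absNorm d : ℝ) * (if 2 * el b2 t ∈ a * d then W t else 0) =
        (∑ d ∈ dvs s', (if 2 * el b2 t ∈ a * d then (Ideal.absNorm d : ℝ) else 0)) * W t := by
      rw [sum_mul]
      refine sum_congr rfl fun d _ => ?_
      split_ifs <;> simp
    rw [e6]
    ring
  rw [sum_congr rfl e5, ← mul_sum, sum_comm]
  have h7 : ∑ d ∈ dvs s', ∑ t ∈ E, (Ideal.absNorm d : ℝ) *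
      (if 2 * el b2 t ∈ a * d then W t else 0) ≤
      tau s' * (C2 * (1 + √(3 ^ dg K)) * (M / Ideal.absNorm (f * a))) := by
    have h8 : ∀ d ∈ dvs s', ∑ t ∈ E, (Ideal.absNorm d : ℝ) *
        (if 2 * el b2 t ∈ a * d then W t else 0) ≤
        C2 * (1 + √(3 ^ dg K)) * (M / Ideal.absNorm (f * a)) := by
      intro d hd
      obtain ⟨d', hd'⟩ := (mem_dvs hs'0).1 hd
      have hd0 : d ≠ ⊥ := (ne_bot_mul (hd' ▸ hs'0)).1
      have hNd := absNorm_pos' hd0
      rw [← mul_sum, ← sum_filter]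
      refine (mul_le_mul_of_nonneg_left (hdsum d hd) hNd.le).trans (le_of_eq ?_)
      field_simp
    refine (sum_le_sum h8).trans (le_of_eq ?_)
    rw [sum_const, nsmul_eq_mul]
    rfl
  calc C1 * (tau s' * (N2 * Ideal.absNorm s)) * _ ≤
        C1 * (tau s' * (N2 * Ideal.absNorm s)) *
          (tau s' * (C2 * (1 + √(3 ^ dg K)) * (M / Ideal.absNorm (f * a)))) :=
        mul_le_mul_of_nonneg_left h7 (by positivity)
    _ = _ := by ring

end Pool.Agent.H3.W
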