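import Pool.Agent.H3.W.W7

/-!
# Short sums
-/

set_option autoImplicit false
set_option linter.unusedSectionVars false

namespace Pool.Agent.H3.W

open Finset NumberField NumberField.InfinitePlace Module MeasureTheory
open Pool.Agent.T2H29.SW Pool.Agent.T2H29.TA
open scoped RealInnerProductSpace ContDiff

variable {K : Type} [Field K] [NumberField K]

lemma diff_pairs {α : Type} [AddCommGroup α] [DecidableEq α] (Y : Finset α) (Dn : α → ℝ)
    (h0 : ∀ t, 0 ≤ Dn t) :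
    ∑ y1 ∈ Y, ∑ y2 ∈ Y, Dn (y1 - y2) ≤
      Y.card * (Dn 0 + ∑ t ∈ ((Y ×ˢ Y).image fun p => p.1 - p.2).erase 0, Dn t) := by
  rw [← nsmul_eq_mul, ← sum_const]
  refine sum_le_sum fun y1 hy1 => ?_
  have hinj : Set.InjOn (fun y2 => y1 - y2) (Y : Set α) := fun a _ b _ h => by
    simpa using h
  rw [← sum_image (f := Dn) hinj]
  have h1 : Y.image (fun y2 => y1 - y2) ⊆
      insert 0 (((Y ×ˢ Y).image fun p => p.1 - p.2).erase 0) := by
    intro t ht
    obtain ⟨y2, hy2, rfl⟩ := mem_image.1 ht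
    by_cases h : y1 - y2 = 0
    · rw [h]
      exact mem_insert_self _ _
    · refine mem_insert_of_mem (mem_erase.2 ⟨h, mem_image.2 ⟨(y1, y2), mem_product.2 ⟨hy1, hy2⟩, rfl⟩⟩)
  refine (sum_le_sum_of_subset_of_nonneg h1 fun t _ _ => h0 t).trans (le_of_eq ?_)
  rw [sum_insert (notMem_erase _ _)]

/-- one sector -/
theorem short_o {B : ℝ} (hB : CBI K B) {β : Bool → ℂ → ℂ} (hβ : ∀ r, CIg S0 (β r)) :
    ∃ C : ℝ, 0 < C ∧
    ∀ (I f a s s' : Ideal (𝓞 K)) (b : Basis (Fin (dg K)) ℤ I)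
    (F1 F2 : 𝓞 K → ℂ) (x : LS K) (o : InfinitePlace K → ℂ) (θ : Par (InfinitePlace K)),
    I ≠ ⊥ → f ≠ ⊥ → LC a s s' → IsCoprime f (a * s * s') →
    IsCoprime I (f * (a * s * s')) → PM (a * s * s') F1 → PerO f F2 → (∀ x, ‖F2 x‖ ≤ 1) →
    Rot K o → mm I x.2 ≤ Ideal.absNorm (s * s') * VT θ ^ (2 / 3 : ℝ) →
    ‖∑' z, F2 (el b z) * (Phi K β o θ (vc (AX b x) z) * F1 (el b z))‖ ^ 2 ≤
      C * ((tau s' : ℝ) ^ 2 * (Ideal.absNorm (f * a) + Ideal.absNorm s) * VT θ ^ (1 / 3 : ℝ) *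
        (1 + mm I x.2)) := by
  classical
  obtain ⟨C1, h1, hC1, hh1, hh11, H1⟩ := off_sum (K := K) hB hβ
  obtain ⟨C2, hC2, H2⟩ := cnt_le K B
  obtain ⟨c3, C3, hc3, hC3, H3⟩ := cnt_ge K B
  obtain ⟨b0, hb0, Hb⟩ := a15_phi_bound K hβ
  set n := dg K with hn
  set E1 : ℝ := b0 ^ 2 * (C2 * (3 / 2) ^ n) with hE1
  set E2 : ℝ := C2 * (C3⁻¹ + (5 / 2) ^ n) with hE2
  set E3 : ℝ := E2 * (c3 * (h1 / 2) ^ n)⁻¹ * (E1 + C1) with hE3
  set E4 : ℝ := (b0 * (C2 * (3 / 2) ^ n)) ^ 2 * (1 + C3 * ((h1 / 2) ^ n)⁻¹) with hE4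
  refine ⟨E3 + E4, by positivity, fun I f a s s' b F1 F2 x o θ hI hf L hfc hIc hF1 hF2 hF2n ho hM => ?_⟩
  obtain ⟨ha0, hs0, hs'0⟩ := L.parts
  have hmul : ∀ {P Q : Ideal (𝓞 K)}, P ≠ ⊥ → Q ≠ ⊥ → P * Q ≠ ⊥ := fun hP hQ h => by
    rcases Ideal.mul_eq_bot.1 h with h1 | h1
    · exact hP h1
    · exact hQ h1
  have hfa := hmul hf ha0
  have hI2 := hmul hI hfa
  obtain ⟨b2⟩ := exists_bas (I * (f * a)) hI2
  have hle : I * (f * a) ≤ I := Ideal.mul_le_left
  have hcI : IsCoprime I (f * a) := by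
    have e1 : f * (a * s * s') = f * a * (s * s') := by ring
    rw [e1] at hIc
    exact IsCoprime.of_mul_right_left hIc
  have : Finite (𝓞 K ⧸ (f * a)) := Ideal.finiteQuotientOfFreeOfNeBot _ hfa
  have hft : Fintype (𝓞 K ⧸ (f * a)) := Fintype.ofFinite _
  have hcard : (Fintype.card (𝓞 K ⧸ (f * a)) : ℝ) = Ideal.absNorm (f * a) := by
    have : Ideal.absNorm (f * a) = Fintype.card (𝓞 K ⧸ (f * a)) := by
      rw [Ideal.absNorm_apply, Submodule.cardQuot_apply, Nat.card_eq_fintype_card]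
    rw [this]
  have hMM := mm_pos hI x.2
  have hNfa := absNorm_pos' hfa
  have hNs := absNorm_pos' hs0
  have hNfa1 : (1 : ℝ) ≤ Ideal.absNorm (f * a) := by exact_mod_cast nrm_pos hfa
  have hτ1 : (1 : ℝ) ≤ tau s' := by exact_mod_cast tau_pos hs'0
  have hGB : GB K B (AX b x) := GB_AX K hB hI b x
  have hGB2 : GB K B (AX b2 x) := GB_AX K hB hI2 b2 x
  have hMv1 : Mv (AX b x) = mm I x.2 := Mv_AX b x
  have hMv2 : Mv (AX b2 x) = mm I x.2 / Ideal.absNorm (f * a) := by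
    rw [Mv_AX, mm_mul hI hfa]
  set M := mm I x.2 with hMdef
  set Nc : ℝ := (Ideal.absNorm (f * a) : ℝ) with hNc
  set Ns : ℝ := (Ideal.absNorm s : ℝ) with hNsd
  set t1 : ℝ := (tau s' : ℝ) with ht1
  have hV := VT_pos θ
  have hV1 := VT_one θ
  have hV3 : 1 ≤ VT θ ^ (1 / 3 : ℝ) := Real.one_le_rpow hV1 (by norm_num)
  set V3 : ℝ := VT θ ^ (1 / 3 : ℝ) with hV3d
  have hVm : VT θ ^ (-(1 / 3 : ℝ)) = V3⁻¹ := Real.rpow_neg hV.le _
  set G : (Fin n → ℤ) → ℂ := fun z => Phi K β o θ (vc (AX b x) z) * F1 (el b z) with hG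
  have hGle : ∀ z, ‖G z‖ ≤ b0 := fun z => by
    simp only [hG]
    rw [norm_mul]
    exact (mul_le_of_le_one_right (norm_nonneg _) (hF1.le_one _)).trans (Hb o θ _)
  have hGs : ∀ z, G z ≠ 0 → ∀ w, ‖lamK K w (vc (AX b x) z)‖ ≤ 3 / 2 := fun z hz w =>
    a15_phi_supp K hβ ho (left_ne_zero_of_mul hz) w
  have hfin0 := cnt_fin K hGB.1 0 (3 / 2)
  set Z0 : Finset (Fin n → ℤ) := hfin0.toFinset with hZ0
  have hZ0m : ∀ z, G z ≠ 0 → z ∈ Z0 := fun z hz => by
    rw [hZ0, Set.Finite.mem_toFinset]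
    intro w
    rw [zero_add]
    exact hGs z hz w
  have hZ0c : (Z0.card : ℝ) ≤ C2 * (3 / 2) ^ n * (1 + M) := by
    have h2 := H2 (AX b x) hGB 0 (fun _ => 3 / 2) (fun _ => by norm_num) Z0 (fun z hz => by
      rw [hZ0, Set.Finite.mem_toFinset] at hz
      exact hz)
    rw [prod_pow_mult, hMv1] at h2
    refine h2.trans ?_
    have h3 : (1 : ℝ) ≤ (3 / 2) ^ n := one_le_pow₀ (by norm_num)
    have h4 : 1 + M * (3 / 2) ^ n ≤ (3 / 2) ^ n * (1 + M) := by nlinarith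
    calc C2 * (1 + M * (3 / 2) ^ n) ≤ C2 * ((3 / 2) ^ n * (1 + M)) :=
          mul_le_mul_of_nonneg_left h4 hC2.le
      _ = _ := by ring
  have hGfin : (Function.support G).Finite := Z0.finite_toSet.subset fun z hz => hZ0m z hz
  have h1M : 1 ≤ 1 + M := by linarith
  have ht2 : 1 ≤ t1 ^ 2 := one_le_pow₀ hτ1
  by_cases hbig : C3 ≤ Mv (AX b2 x) * ∏ w, (rd h1 θ w / 2) ^ mult w
  · -- many shifts
    have hrd0 : ∀ w, 0 < rd h1 θ w / 2 := fun w => by
      have := rd_pos hh1 θ w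
      positivity
    obtain ⟨Y, hY1, hY2⟩ := H3 (AX b2 x) hGB2 (fun w => rd h1 θ w / 2) hrd0 hbig
    have hprod : ∏ w, (rd h1 θ w / 2) ^ mult w = (h1 / 2) ^ n * V3⁻¹ := by
      have e1 : ∏ w, (rd h1 θ w / 2) ^ mult w =
          (∏ w, rd h1 θ w ^ mult w) * ∏ w : InfinitePlace K, (1 / 2 : ℝ) ^ mult w := by
        rw [← prod_mul_distrib]
        refine prod_congr rfl fun w _ => ?_
        rw [← mul_pow]
        congr 1
        ring
      rw [e1, rd_prod, prod_pow_mult, hVm, div_pow, div_pow, one_pow]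
      ring
    rw [hprod, hMv2] at hY2 hbig
    set M2 := M / Nc with hM2
    have hM20 : 0 < M2 := by positivity
    have hV3i : V3⁻¹ ≤ 1 := inv_le_one_of_one_le₀ hV3
    have hM2big : C3 ≤ M2 := by
      refine hbig.trans ?_
      refine mul_le_of_le_one_right hM20.le ?_
      have : (h1 / 2) ^ n ≤ 1 := pow_le_one₀ (by positivity) (by linarith)
      exact mul_le_one₀ this (by positivity) hV3i
    set cls := clsI (f * a) b with hcls
    set τ := tauI b b2 hle with hτ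
    have hsub : SubL cls τ := subLI b hcI b2 rfl hle
    obtain ⟨e0, he0, he1⟩ := exists_e0 hcI
    set rp : 𝓞 K ⧸ (f * a) → (Fin n → ℤ) := repI (f * a) b ⟨e0, he0⟩ with hrp
    have hfinZ : ∀ k, {t : Fin n → ℤ | ∀ w, ‖lamK K w (vc (AX b x) (rp k) + vc (AX b2 x) t)‖ ≤
        5 / 2}.Finite := fun k => cnt_fin K hGB2.1 _ _
    set Zk : 𝓞 K ⧸ (f * a) → Finset (Fin n → ℤ) := fun k => (hfinZ k).toFinset with hZk
    have hZc : ∀ k, ((Zk k).card : ℝ) ≤ E2 * M2 := by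
      intro k
      have h2 := H2 (AX b2 x) hGB2 (vc (AX b x) (rp k)) (fun _ => 5 / 2) (fun _ => by norm_num)
        (Zk k) (fun z hz => by
          simp only [hZk] at hz
          rw [Set.Finite.mem_toFinset] at hz
          exact hz)
      rw [prod_pow_mult, hMv2] at h2
      refine h2.trans ?_
      have h3 : 1 ≤ C3⁻¹ * M2 := by
        rw [le_inv_mul_iff₀ hC3, mul_one]
        exact hM2big
      rw [hE2]
      calc C2 * (1 + M2 * (5 / 2) ^ n) ≤ C2 * (C3⁻¹ * M2 + M2 * (5 / 2) ^ n) :=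
            mul_le_mul_of_nonneg_left (by linarith) hC2.le
        _ = _ := by ring
    have hZm : ∀ k, ∀ y ∈ Y, ∀ t, G (rp k + τ (t + 2 • y)) ≠ 0 → t ∈ Zk k := by
      intro k y hy t ht
      simp only [hZk]
      rw [Set.Finite.mem_toFinset]
      intro w
      have h2 := hGs _ ht w
      have h3 : vc (AX b x) (rp k + τ (t + 2 • y)) =
          (vc (AX b x) (rp k) + vc (AX b2 x) t) + (vc (AX b2 x) y + vc (AX b2 x) y) := by
        rw [vc_add', hτ, vc_tau, vc_add', two_nsmul, vc_add']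
        abel
      rw [h3, map_add] at h2
      have h4 := hY1 y hy w
      have h5 : ‖lamK K w (vc (AX b2 x) y + vc (AX b2 x) y)‖ ≤ 1 := by
        rw [map_add]
        refine (norm_add_le _ _).trans ?_
        have := (rd_le hh1 θ w).trans hh11
        linarith
      have h6 : lamK K w (vc (AX b x) (rp k) + vc (AX b2 x) t) =
          (lamK K w (vc (AX b x) (rp k) + vc (AX b2 x) t) +
            lamK K w (vc (AX b2 x) y + vc (AX b2 x) y)) -
            lamK K w (vc (AX b2 x) y + vc (AX b2 x) y) := by ring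
      rw [h6]
      refine (norm_sub_le _ _).trans ?_
      linarith
    have hvdc := vdc_cls hsub (tauI_add b b2 hle) (rep := rp) (cls_repI b he1) (G := G)
      (u := fun z => F2 (el b z)) hGfin (fun z => hF2n _) (fun z w h => by
        have h' : clsI (f * a) b z = clsI (f * a) b w := h
        unfold clsI at h'
        rw [Ideal.Quotient.mk_eq_mk_iff_sub_mem] at h'
        have h'' : el b z - el b w ∈ f := Ideal.mul_le_left h'
        exact hF2 _ _ h'') Y Zk hZm hZc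
    set Dn : (Fin n → ℤ) → ℝ := fun t =>
      ‖∑' z, G (z + τ t) * (starRingEnd ℂ) (G (z - τ t))‖ with hDn
    have hDn0 : ∀ t, 0 ≤ Dn t := fun t => norm_nonneg _
    have hpairs := diff_pairs Y Dn hDn0
    set E := ((Y ×ˢ Y).image fun p => p.1 - p.2).erase 0 with hE
    have hEm : ∀ t ∈ E, t ≠ 0 ∧ ∀ w, ‖lamK K w (vc (AX b2 x) t)‖ ≤ rd h1 θ w := by
      intro t ht
      obtain ⟨ht0, ht'⟩ := mem_erase.1 ht
      obtain ⟨⟨y1, y2⟩, hy, rfl⟩ := mem_image.1 ht'
      obtain ⟨hy1, hy2⟩ := mem_product.1 hy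
      refine ⟨ht0, fun w => ?_⟩
      have h2 := hY1 y1 hy1 w
      have h3 := hY1 y2 hy2 w
      show ‖lamK K w (vc (AX b2 x) (y1 - y2))‖ ≤ _
      rw [a15_vc_sub, map_sub]
      refine (norm_sub_le _ _).trans ?_
      linarith
    have hoff := H1 I f a s s' b b2 hle F1 x o θ E hI hf L hfc hIc hF1 ho hM hEm
    have hoff' : ∑ t ∈ E, Dn t ≤ C1 * (t1 ^ 2 * Ns * M2) := hoff
    have hdiag : Dn 0 ≤ E1 * (1 + M) := by
      have hτ0 : τ 0 = 0 := by
        have := tauI_add b b2 hle 0 0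
        rw [add_zero] at this
        simpa using this
      simp only [hDn]
      rw [hτ0]
      have h2 := a15_tsum_le (F := fun z => G (z + 0) * (starRingEnd ℂ) (G (z - 0)))
        (b := b0 ^ 2) (Z := Z0) (fun z => by
          rw [norm_mul, Complex.norm_conj, sq]
          exact mul_le_mul (hGle _) (hGle _) (norm_nonneg _) hb0.le) (fun z hz => by
          have h3 := left_ne_zero_of_mul hz
          rw [add_zero] at h3
          exact hZ0m z h3)
      refine h2.trans ?_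
      calc b0 ^ 2 * (Z0.card : ℝ) ≤ b0 ^ 2 * (C2 * (3 / 2) ^ n * (1 + M)) :=
            mul_le_mul_of_nonneg_left hZ0c (by positivity)
        _ = _ := by rw [hE1]; ring
    set S := ‖∑' z, F2 (el b z) * G z‖ with hS
    have hYc : 0 < (Y.card : ℝ) := by
      refine lt_of_lt_of_le ?_ hY2
      positivity
    have h5 : (Y.card : ℝ) ^ 2 * S ^ 2 ≤ Nc * (E2 * M2 * (Y.card *
        (E1 * (1 + M) + C1 * (t1 ^ 2 * Ns * M2)))) := by
      refine hvdc.trans ?_
      rw [hcard]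
      refine mul_le_mul_of_nonneg_left ?_ hNfa.le
      refine mul_le_mul_of_nonneg_left ?_ (by positivity)
      refine hpairs.trans ?_
      exact mul_le_mul_of_nonneg_left (add_le_add hdiag hoff') hYc.le
    have h6 : (Y.card : ℝ) * S ^ 2 ≤ Nc * (E2 * M2 *
        (E1 * (1 + M) + C1 * (t1 ^ 2 * Ns * M2))) := by
      have h7 : (Y.card : ℝ) * ((Y.card : ℝ) * S ^ 2) ≤ Y.card * (Nc * (E2 * M2 *
        (E1 * (1 + M) + C1 * (t1 ^ 2 * Ns * M2)))) := by
        calc (Y.card : ℝ) * ((Y.card : ℝ) * S ^ 2) = (Y.card : ℝ) ^ 2 * S ^ 2 := by ring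
          _ ≤ _ := h5
          _ = _ := by ring
      exact le_of_mul_le_mul_left h7 hYc
    have h7 : c3 * (M2 * ((h1 / 2) ^ n * V3⁻¹)) * S ^ 2 ≤ Nc * (E2 * M2 *
        (E1 * (1 + M) + C1 * (t1 ^ 2 * Ns * M2))) :=
      (mul_le_mul_of_nonneg_right hY2 (sq_nonneg _)).trans h6
    have h8 : S ^ 2 ≤ E2 * (c3 * (h1 / 2) ^ n)⁻¹ * V3 *
        (Nc * (E1 * (1 + M) + C1 * (t1 ^ 2 * Ns * M2))) := by
      have hp : 0 < c3 * (M2 * ((h1 / 2) ^ n * V3⁻¹)) := by positivity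
      rw [← mul_le_mul_iff_right₀ hp]
      refine h7.trans (le_of_eq ?_)
      field_simp
    have h9 : Nc * (E1 * (1 + M) + C1 * (t1 ^ 2 * Ns * M2)) ≤
        (E1 + C1) * (t1 ^ 2 * (Nc + Ns) * (1 + M)) := by
      have e1 : Nc * (E1 * (1 + M) + C1 * (t1 ^ 2 * Ns * M2)) =
          E1 * (1 * Nc * (1 + M)) + C1 * (t1 ^ 2 * Ns * M) := by
        rw [hM2]
        field_simp
      rw [e1, add_mul]
      refine add_le_add ?_ ?_
      · refine mul_le_mul_of_nonneg_left ?_ (by positivity)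
        refine mul_le_mul_of_nonneg_right ?_ (by positivity)
        exact mul_le_mul ht2 (by linarith) hNfa.le (by positivity)
      · refine mul_le_mul_of_nonneg_left ?_ hC1.le
        refine mul_le_mul ?_ (by linarith) hMM.le (by positivity)
        exact mul_le_mul_of_nonneg_left (by linarith) (by positivity)
    calc S ^ 2 ≤ E2 * (c3 * (h1 / 2) ^ n)⁻¹ * V3 *
          (Nc * (E1 * (1 + M) + C1 * (t1 ^ 2 * Ns * M2))) := h8
      _ ≤ E2 * (c3 * (h1 / 2) ^ n)⁻¹ * V3 * ((E1 + C1) * (t1 ^ 2 * (Nc + Ns) * (1 + M))) :=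
          mul_le_mul_of_nonneg_left h9 (by positivity)
      _ = E3 * (t1 ^ 2 * (Nc + Ns) * V3 * (1 + M)) := by rw [hE3]; ring
      _ ≤ _ := mul_le_mul_of_nonneg_right (by
          have : 0 ≤ E4 := by positivity
          linarith) (by positivity)
  · -- few shifts
    push Not at hbig
    have hprod : ∏ w, (rd h1 θ w / 2) ^ mult w = (h1 / 2) ^ n * V3⁻¹ := by
      have e1 : ∏ w, (rd h1 θ w / 2) ^ mult w =
          (∏ w, rd h1 θ w ^ mult w) * ∏ w : InfinitePlace K, (1 / 2 : ℝ) ^ mult w := by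
        rw [← prod_mul_distrib]
        refine prod_congr rfl fun w _ => ?_
        rw [← mul_pow]
        congr 1
        ring
      rw [e1, rd_prod, prod_pow_mult, hVm, div_pow, div_pow, one_pow]
      ring
    rw [hprod, hMv2] at hbig
    have hMle : M ≤ C3 * ((h1 / 2) ^ n)⁻¹ * (Nc * V3) := by
      have hp : 0 < (h1 / 2) ^ n * V3⁻¹ / Nc := by positivity
      have h2 : M * ((h1 / 2) ^ n * V3⁻¹ / Nc) ≤
          C3 * ((h1 / 2) ^ n)⁻¹ * (Nc * V3) * ((h1 / 2) ^ n * V3⁻¹ / Nc) := by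
        have e1 : C3 * ((h1 / 2) ^ n)⁻¹ * (Nc * V3) * ((h1 / 2) ^ n * V3⁻¹ / Nc) = C3 := by
          field_simp
        rw [e1]
        refine le_trans (le_of_eq ?_) hbig.le
        ring
      exact le_of_mul_le_mul_right h2 hp
    have h2 : ‖∑' z, F2 (el b z) * G z‖ ≤ b0 * (C2 * (3 / 2) ^ n * (1 + M)) := by
      have h3 := a15_tsum_le (F := fun z => F2 (el b z) * G z) (b := b0) (Z := Z0) (fun z => by
          rw [norm_mul]
          exact (mul_le_of_le_one_left (norm_nonneg _) (hF2n _)).trans (hGle z)) (fun z hz =>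
          hZ0m z (right_ne_zero_of_mul hz))
      exact h3.trans (mul_le_mul_of_nonneg_left hZ0c hb0.le)
    have hNV : 1 ≤ Nc * V3 := one_le_mul_of_one_le_of_one_le hNfa1 hV3
    have h3 : 1 + M ≤ (1 + C3 * ((h1 / 2) ^ n)⁻¹) * (Nc * V3) := by
      rw [add_mul, one_mul]
      exact add_le_add hNV hMle
    calc ‖∑' z, F2 (el b z) * G z‖ ^ 2 ≤ (b0 * (C2 * (3 / 2) ^ n * (1 + M))) ^ 2 :=
          pow_le_pow_left₀ (norm_nonneg _) h2 2
      _ = (b0 * (C2 * (3 / 2) ^ n)) ^ 2 * (1 + M) * (1 + M) := by ring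
      _ ≤ (b0 * (C2 * (3 / 2) ^ n)) ^ 2 * ((1 + C3 * ((h1 / 2) ^ n)⁻¹) * (Nc * V3)) * (1 + M) := by
          refine mul_le_mul_of_nonneg_right ?_ (by positivity)
          exact mul_le_mul_of_nonneg_left h3 (by positivity)
      _ = E4 * (1 * Nc * V3 * (1 + M)) := by rw [hE4]; ring
      _ ≤ E4 * (t1 ^ 2 * (Nc + Ns) * V3 * (1 + M)) := by
          refine mul_le_mul_of_nonneg_left ?_ (by positivity)
          refine mul_le_mul_of_nonneg_right ?_ (by positivity)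
          refine mul_le_mul_of_nonneg_right ?_ (by positivity)
          exact mul_le_mul ht2 (by linarith) hNfa.le (by positivity)
      _ ≤ _ := mul_le_mul_of_nonneg_right (by
          have : 0 ≤ E3 := by positivity
          linarith) (by positivity)

end Pool.Agent.H3.W
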