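import Pool.Agent.H3.W.W8

/-!
# The middle range
-/

set_option autoImplicit false
set_option linter.unusedSectionVars false

namespace Pool.Agent.H3.W

open Finset NumberField NumberField.InfinitePlace Module MeasureTheory
open Pool.Agent.T2H29.SW Pool.Agent.T2H29.TA
open scoped RealInnerProductSpace ContDiff

variable {K : Type} [Field K] [NumberField K]

/-- short sums -/
theorem short_bd {B : ℝ} (hB : CBI K B) : ∃ C : ℝ, 0 < C ∧
    ∀ (I f a s s' : Ideal (𝓞 K)) (b : Basis (Fin (dg K)) ℤ I)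
    (F1 F2 : 𝓞 K → ℂ) (x : LS K) (θ : Par (InfinitePlace K)),
    I ≠ ⊥ → f ≠ ⊥ → LC a s s' → IsCoprime f (a * s * s') →
    IsCoprime I (f * (a * s * s')) → PM (a * s * s') F1 → PerO f F2 → (∀ x, ‖F2 x‖ ≤ 1) →
    mm I x.2 ≤ Ideal.absNorm (s * s') * VT θ ^ (2 / 3 : ℝ) →
    ‖∑' z, Wt (lamK K) θ (vc (AX b x) z) * (F2 (el b z) * F1 (el b z))‖ ≤
      C * √((tau s' : ℝ) ^ 2 * (Ideal.absNorm (f * a) + Ideal.absNorm s) * VT θ ^ (1 / 3 : ℝ) *
        (1 + mm I x.2)) := by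
  obtain ⟨β, S, hβ, hS, hWt⟩ := Wt_sectors K
  obtain ⟨C, hC, H⟩ := short_o hB hβ
  refine ⟨(S.card + 1) * √C, by positivity,
    fun I f a s s' b F1 F2 x θ hI hf L hfc hIc hF1 hF2 hF2n hM => ?_⟩
  have hA : (AX b x).det ≠ 0 := det_AX_ne hI b x
  set R := (tau s' : ℝ) ^ 2 * (Ideal.absNorm (f * a) + Ideal.absNorm s) * VT θ ^ (1 / 3 : ℝ) *
        (1 + mm I x.2) with hR
  have h1 : ∀ o ∈ S, ‖∑' z, F2 (el b z) * (Phi K β o θ (vc (AX b x) z) * F1 (el b z))‖ ≤
      √C * √R := by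
    intro o ho
    have h2 := H I f a s s' b F1 F2 x o θ hI hf L hfc hIc hF1 hF2 hF2n (hS o ho) hM
    rw [← Real.sqrt_mul hC.le]
    exact Real.le_sqrt_of_sq_le h2
  have h2 : ∀ z, Wt (lamK K) θ (vc (AX b x) z) * (F2 (el b z) * F1 (el b z)) =
      ∑ o ∈ S, F2 (el b z) * (Phi K β o θ (vc (AX b x) z) * F1 (el b z)) := by
    intro z
    rw [hWt, sum_mul]
    refine sum_congr rfl fun o _ => ?_
    ring
  have h3 : ∀ o ∈ S, Summable fun z => F2 (el b z) * (Phi K β o θ (vc (AX b x) z) *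
      F1 (el b z)) := by
    intro o ho
    refine summable_of_hasFiniteSupport ((cnt_fin K hA 0 (3 / 2)).subset fun z hz => ?_)
    intro w
    rw [zero_add]
    exact a15_phi_supp K hβ (hS o ho) (left_ne_zero_of_mul (right_ne_zero_of_mul hz)) w
  simp_rw [h2]
  rw [Summable.tsum_finsetSum h3]
  refine (norm_sum_le _ _).trans ((sum_le_sum h1).trans ?_)
  rw [sum_const, nsmul_eq_mul]
  have : 0 ≤ √C * √R := by positivity
  calc (S.card : ℝ) * (√C * √R) ≤ (S.card + 1) * (√C * √R) :=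
        mul_le_mul_of_nonneg_right (by linarith) this
    _ = _ := by ring

/-- the middle range -/
theorem mid_bd {B : ℝ} (hB : CBI K B) {ε : ℝ} (hε : 0 < ε) : ∃ C : ℝ, 0 < C ∧
    ∀ (c s s' I : Ideal (𝓞 K)) (b : Basis (Fin (dg K)) ℤ I) (F : 𝓞 K → ℂ) (x : LS K)
    (θ : Par (InfinitePlace K)), c * s * s' ≠ ⊥ → s ≤ s' →
    (∀ P : Ideal (𝓞 K), P.IsPrime → s' ≤ P → c ≤ P) → PM (c * s * s') F → I ≠ ⊥ →
    IsCoprime I (c * s * s') → m0 K ≤ mm I x.2 →
    mm I x.2 ≤ Ideal.absNorm (c * s * s') * VT θ ^ (1 + ε) →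
    ‖∑' z, Wt (lamK K) θ (vc (AX b x) z) * F (el b z)‖ ≤
      C * (tau s' * √(Ideal.absNorm c + Ideal.absNorm s) * VT θ ^ (1 / 6 + ε)) *
        √(mm I x.2) := by
  obtain ⟨C1, hC1, H1⟩ := short_bd hB
  obtain ⟨C2, hC2, H2⟩ := long_bd hB hε
  have hm0 := m0_pos (K := K)
  refine ⟨C1 * √((m0 K)⁻¹ + 1) + 2 * C2, by positivity,
    fun c s s' I b F x θ hne hle hp hF hI hIc hx1 hx2 => ?_⟩
  have hc0 : c ≠ ⊥ := (ne_bot_mul (ne_bot_mul hne).1).1
  have hs0 : s ≠ ⊥ := (ne_bot_mul (ne_bot_mul hne).1).2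
  have hs'0 : s' ≠ ⊥ := (ne_bot_mul hne).2
  have hbb0 : s * s' ≠ ⊥ := by
    intro h
    rcases Ideal.mul_eq_bot.1 h with h1 | h1
    · exact hs0 h1
    · exact hs'0 h1
  have hMM := mm_pos hI x.2
  have hV := VT_pos θ
  have hV1 := VT_one θ
  have hNc := absNorm_pos' hc0
  have hNs := absNorm_pos' hs0
  have hNb := absNorm_pos' hbb0
  have hτ1 : (1 : ℝ) ≤ tau s' := by exact_mod_cast tau_pos hs'0
  have hNc1 : (1 : ℝ) ≤ Ideal.absNorm c := by exact_mod_cast nrm_pos hc0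
  have hqe : (Ideal.absNorm (c * s * s') : ℝ) = Ideal.absNorm c * Ideal.absNorm (s * s') := by
    rw [mul_assoc, map_mul]
    push_cast
    rfl
  rcases le_total (mm I x.2) (Ideal.absNorm (s * s') * VT θ ^ (2 / 3 : ℝ)) with hM | hM
  · -- short sums
    obtain ⟨f, a, hfa, hfs, has⟩ := split_cop s _ c hc0 le_rfl
    have hf0 : f ≠ ⊥ := (ne_bot_mul (hfa ▸ hc0)).1
    have ha0 : a ≠ ⊥ := (ne_bot_mul (hfa ▸ hc0)).2
    have hm : c * s * s' = f * (a * s * s') := by rw [hfa]; ring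
    have L : LC a s s' := by
      refine ⟨?_, hle, fun P hP h1 => ?_, has⟩
      · rw [hm] at hne
        exact (ne_bot_mul hne).2
      · have h2 := hp P hP h1
        rw [hfa] at h2
        rcases (Ideal.IsPrime.mul_le hP).1 h2 with h3 | h3
        · exact absurd (hle.trans h1) fun h4 => cop_prime.1 hfs P hP h3 h4
        · exact h3
    have hfc : IsCoprime f (a * s * s') := by
      rw [cop_prime]
      intro P hP h1 h2
      refine cop_prime.1 hfs P hP h1 ?_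
      rcases (Ideal.IsPrime.mul_le hP).1 h2 with h3 | h3
      · rcases (Ideal.IsPrime.mul_le hP).1 h3 with h4 | h4
        · exact has P hP h4
        · exact h4
      · exact hle.trans h3
    obtain ⟨e, he, he1⟩ := exists_e0 hfc
    have hFm' : PM (f * (a * s * s')) F := hm ▸ hF
    have hF1 := FA_PM hf0 hFm' he he1
    have hF2 := FA_per hFm' he he1
    have hFF : ∀ α, F α = FA F (1 - e) α * FA F e α := FA_prod hFm' he he1
    have h2 := H1 I f a s s' b (FA F e) (FA F (1 - e)) x θ hI hf0 L hfc (hm ▸ hIc) hF1 hF2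
      (fun x => by unfold FA; exact hF.le_one _) hM
    rw [← hfa] at h2
    have e1 : ∀ z, Wt (lamK K) θ (vc (AX b x) z) * F (el b z) =
        Wt (lamK K) θ (vc (AX b x) z) * (FA F (1 - e) (el b z) * FA F e (el b z)) := fun z => by
      rw [hFF]
    simp_rw [e1]
    refine h2.trans ?_
    set M := mm I x.2 with hMd
    set Nc : ℝ := (Ideal.absNorm c : ℝ) with hNcd
    set Ns : ℝ := (Ideal.absNorm s : ℝ) with hNsd
    set t1 : ℝ := (tau s' : ℝ) with ht1
    have h3 : 1 + M ≤ ((m0 K)⁻¹ + 1) * M := by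
      have : 1 ≤ (m0 K)⁻¹ * M := by
        rw [le_inv_mul_iff₀ hm0, mul_one]
        exact hx1
      linarith
    have h4 : √(t1 ^ 2 * (Nc + Ns) * VT θ ^ (1 / 3 : ℝ) * (1 + M)) ≤
        √((m0 K)⁻¹ + 1) * (t1 * √(Nc + Ns) * VT θ ^ (1 / 6 : ℝ)) * √M := by
      have e2 : √((m0 K)⁻¹ + 1) * (t1 * √(Nc + Ns) * VT θ ^ (1 / 6 : ℝ)) * √M =
          √(t1 ^ 2 * (Nc + Ns) * VT θ ^ (1 / 3 : ℝ) * (((m0 K)⁻¹ + 1) * M)) := by
        have e3 : √(VT θ ^ (1 / 3 : ℝ)) = VT θ ^ (1 / 6 : ℝ) := by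
          rw [Real.sqrt_eq_rpow, ← Real.rpow_mul hV.le]
          norm_num
        rw [Real.sqrt_mul (by positivity), Real.sqrt_mul (by positivity),
          Real.sqrt_mul (by positivity), Real.sqrt_mul (by positivity), Real.sqrt_sq (by positivity),
          e3]
        ring
      rw [e2]
      exact Real.sqrt_le_sqrt (mul_le_mul_of_nonneg_left h3 (by positivity))
    have h5 : VT θ ^ (1 / 6 : ℝ) ≤ VT θ ^ (1 / 6 + ε) :=
      Real.rpow_le_rpow_of_exponent_le hV1 (by linarith)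
    calc C1 * √(t1 ^ 2 * (Nc + Ns) * VT θ ^ (1 / 3 : ℝ) * (1 + M)) ≤
          C1 * (√((m0 K)⁻¹ + 1) * (t1 * √(Nc + Ns) * VT θ ^ (1 / 6 : ℝ)) * √M) :=
          mul_le_mul_of_nonneg_left h4 hC1.le
      _ ≤ C1 * (√((m0 K)⁻¹ + 1) * (t1 * √(Nc + Ns) * VT θ ^ (1 / 6 + ε)) * √M) := by
          refine mul_le_mul_of_nonneg_left ?_ hC1.le
          refine mul_le_mul_of_nonneg_right ?_ (by positivity)
          refine mul_le_mul_of_nonneg_left ?_ (by positivity)
          exact mul_le_mul_of_nonneg_left h5 (by positivity)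
      _ = C1 * √((m0 K)⁻¹ + 1) * (t1 * √(Nc + Ns) * VT θ ^ (1 / 6 + ε)) * √M := by ring
      _ ≤ _ := by
          refine mul_le_mul_of_nonneg_right ?_ (by positivity)
          exact mul_le_mul_of_nonneg_right (by linarith) (by positivity)
  · -- long sums
    have h2 := H2 I (c * s * s') b F x θ hI hne hIc hF
    rw [hqe] at h2 hx2
    set M := mm I x.2 with hMd
    set Nc : ℝ := (Ideal.absNorm c : ℝ) with hNcd
    set Ns : ℝ := (Ideal.absNorm s : ℝ) with hNsd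
    set Nb : ℝ := (Ideal.absNorm (s * s') : ℝ) with hNbd
    set t1 : ℝ := (tau s' : ℝ) with ht1
    have hsM : 0 < √M := Real.sqrt_pos.2 hMM
    have hsq : √M * √M = M := Real.mul_self_sqrt hMM.le
    have hqV : 0 < Nc * Nb * VT θ := by positivity
    have hsqV : 0 < √(Nc * Nb * VT θ) := Real.sqrt_pos.2 hqV
    have hVε : VT θ ^ (1 + ε) = VT θ * VT θ ^ ε := by
      rw [Real.rpow_add hV, Real.rpow_one]
    have hVe0 : 0 < VT θ ^ ε := Real.rpow_pos_of_pos hV _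
    have hVe1 : 1 ≤ VT θ ^ ε := Real.one_le_rpow hV1 hε.le
    have hV6 : 1 ≤ VT θ ^ (1 / 6 : ℝ) := Real.one_le_rpow hV1 (by norm_num)
    have hV6e : VT θ ^ (1 / 6 + ε) = VT θ ^ (1 / 6 : ℝ) * VT θ ^ ε := Real.rpow_add hV _ _
    have hR1 : 1 ≤ t1 * √(Nc + Ns) := by
      refine one_le_mul_of_one_le_of_one_le hτ1 ?_
      rw [Real.one_le_sqrt]
      linarith
    -- the first term
    have k1 : M / √(Nc * Nb * VT θ) ≤ VT θ ^ ε * √M := by
      rw [div_le_iff₀ hsqV]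
      have h3 : √M ≤ VT θ ^ ε * √(Nc * Nb * VT θ) := by
        rw [Real.sqrt_le_left (by positivity), mul_pow, Real.sq_sqrt hqV.le]
        calc M ≤ Nc * Nb * VT θ ^ (1 + ε) := hx2
          _ = (Nc * Nb * VT θ) * VT θ ^ ε * 1 := by rw [hVε]; ring
          _ ≤ (Nc * Nb * VT θ) * VT θ ^ ε * VT θ ^ ε := mul_le_mul_of_nonneg_left hVe1 (by positivity)
          _ = _ := by ring
      calc M = √M * √M := hsq.symm
        _ ≤ √M * (VT θ ^ ε * √(Nc * Nb * VT θ)) := mul_le_mul_of_nonneg_left h3 hsM.le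
        _ = _ := by ring
    -- the second term
    have k2 : M / √(Nc * Nb * VT θ) * (Nc * Nb * VT θ ^ (1 + ε) / M) ≤
        √Nc * VT θ ^ (1 / 6 + ε) * √M := by
      have e2 : M / √(Nc * Nb * VT θ) * (Nc * Nb * VT θ ^ (1 + ε) / M) =
          √(Nc * Nb * VT θ) * VT θ ^ ε := by
        rw [hVε]
        have e3 : Nc * Nb * (VT θ * VT θ ^ ε) =
            √(Nc * Nb * VT θ) * √(Nc * Nb * VT θ) * VT θ ^ ε := by
          rw [Real.mul_self_sqrt hqV.le]
          ring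
        rw [e3]
        field_simp
      rw [e2, hV6e]
      have h3 : √(Nc * Nb * VT θ) ≤ √Nc * VT θ ^ (1 / 6 : ℝ) * √M := by
        have e3 : √Nc * VT θ ^ (1 / 6 : ℝ) * √M = √(Nc * VT θ ^ (1 / 3 : ℝ) * M) := by
          have e4 : √(VT θ ^ (1 / 3 : ℝ)) = VT θ ^ (1 / 6 : ℝ) := by
            rw [Real.sqrt_eq_rpow, ← Real.rpow_mul hV.le]
            norm_num
          rw [Real.sqrt_mul (by positivity), Real.sqrt_mul (by positivity), e4]
        rw [e3]
        refine Real.sqrt_le_sqrt ?_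
        have e5 : VT θ = VT θ ^ (1 / 3 : ℝ) * VT θ ^ (2 / 3 : ℝ) := by
          rw [← Real.rpow_add hV]
          norm_num
        calc Nc * Nb * VT θ = Nc * VT θ ^ (1 / 3 : ℝ) * (Nb * VT θ ^ (2 / 3 : ℝ)) := by
              nth_rewrite 1 [e5]
              ring
          _ ≤ _ := mul_le_mul_of_nonneg_left hM (by positivity)
      calc √(Nc * Nb * VT θ) * VT θ ^ ε ≤ (√Nc * VT θ ^ (1 / 6 : ℝ) * √M) * VT θ ^ ε :=
            mul_le_mul_of_nonneg_right h3 hVe0.le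
        _ = _ := by ring
    have k3 : √Nc ≤ t1 * √(Nc + Ns) := by
      calc √Nc ≤ √(Nc + Ns) := Real.sqrt_le_sqrt (by linarith)
        _ ≤ _ := le_mul_of_one_le_left (Real.sqrt_nonneg _) hτ1
    have k4 : VT θ ^ ε ≤ t1 * √(Nc + Ns) * VT θ ^ (1 / 6 + ε) := by
      rw [hV6e]
      calc VT θ ^ ε = 1 * (1 * VT θ ^ ε) := by ring
        _ ≤ t1 * √(Nc + Ns) * (VT θ ^ (1 / 6 : ℝ) * VT θ ^ ε) := by
            refine mul_le_mul hR1 ?_ (by positivity) (by positivity)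
            exact mul_le_mul_of_nonneg_right hV6 hVe0.le
    refine h2.trans ?_
    rw [mul_add, mul_one]
    calc C2 * (M / √(Nc * Nb * VT θ) + M / √(Nc * Nb * VT θ) *
          (Nc * Nb * VT θ ^ (1 + ε) / M)) ≤
          C2 * (VT θ ^ ε * √M + √Nc * VT θ ^ (1 / 6 + ε) * √M) :=
          mul_le_mul_of_nonneg_left (add_le_add k1 k2) hC2.le
      _ ≤ C2 * ((t1 * √(Nc + Ns) * VT θ ^ (1 / 6 + ε)) * √M +
            (t1 * √(Nc + Ns)) * VT θ ^ (1 / 6 + ε) * √M) := by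
          refine mul_le_mul_of_nonneg_left (add_le_add ?_ ?_) hC2.le
          · exact mul_le_mul_of_nonneg_right k4 hsM.le
          · refine mul_le_mul_of_nonneg_right ?_ hsM.le
            exact mul_le_mul_of_nonneg_right k3 (by positivity)
      _ = 2 * C2 * (t1 * √(Nc + Ns) * VT θ ^ (1 / 6 + ε)) * √M := by ring
      _ ≤ _ := by
          refine mul_le_mul_of_nonneg_right ?_ hsM.le
          refine mul_le_mul_of_nonneg_right ?_ (by positivity)
          have : 0 ≤ C1 * √((m0 K)⁻¹ + 1) := by positivity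
          linarith

end Pool.Agent.H3.W
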